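import Pool.Agent.CRV.Targets

set_option autoImplicit false

/-!
# CRV-ALL: contour sequences for planar graphs
-/

namespace Pool.Agent.CRV

open Relation

theorem ALL_conn {V : Type} (G : SimpleGraph V) (K : Finset V)
    (hK : ∀ u ∈ K, ∀ v, G.Adj u v → v ∈ K) {w r : V} (h : ReflTransGen G.Adj w r) (hw : w ∈ K) :
    r ∈ K ∧ ReflTransGen (fun c d => G.Adj c d ∧ d ∈ K) w r := by
  induction h with
  | refl => exact ⟨hw, ReflTransGen.refl⟩
  | tail _ hbc ih =>
    obtain ⟨hb, ih⟩ := ih
    have hc := hK _ hb _ hbc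
    exact ⟨hc, ih.tail ⟨hbc, hc⟩⟩

theorem tALL (h1 : T_SHEAR) (h2 : T_ROT) (h3 : T_ORDER) (h4 : T_UNION) : T_ALL := by
  classical
  intro V _ G hG
  have := Fintype.ofFinite V
  obtain ⟨p, hp, hx⟩ := h1 V G hG
  have key : ∀ n : ℕ, ∀ Γ : Finset V, Γ.card = n → (∀ u ∈ Γ, ∀ v, G.Adj u v → v ∈ Γ) →
      ∃ L, Contour G (↑Γ) L := by
    intro n
    induction n using Nat.strong_induction_on with
    | _ n ih =>
      intro Γ hn hcl
      rcases Γ.eq_empty_or_nonempty with rfl | ⟨v, hv⟩
      · exact ⟨[], by simpa using Contour.nil⟩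
      · set K : Finset V := Γ.filter (fun u => ReflTransGen G.Adj v u) with hKdef
        have hvK : v ∈ K := by
          rw [hKdef, Finset.mem_filter]
          exact ⟨hv, ReflTransGen.refl⟩
        have hKcl : ∀ u ∈ K, ∀ w, G.Adj u w → w ∈ K := by
          intro u hu w huw
          rw [hKdef, Finset.mem_filter] at hu ⊢
          exact ⟨hcl u hu.1 w huw, hu.2.tail huw⟩
        have hsym : ∀ a b, ReflTransGen G.Adj a b → ReflTransGen G.Adj b a := by
          intro a b hab
          induction hab with
          | refl => exact ReflTransGen.refl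
          | tail _ hbc ih' => exact ReflTransGen.head (G.adj_symm hbc) ih'
        obtain ⟨r, hrK, hr⟩ := Finset.exists_max_image K (fun u => (p u).2) ⟨v, hvK⟩
        obtain ⟨rot, hrot, hnone, hsome⟩ := h2 V G K p r hp hx hrK hr
        have hPL : PlaneList G K [r] := by
          refine ⟨⟨rot, hrot, by simpa using hnone, hsome⟩, ?_, ?_⟩
          · intro a ha
            rw [List.mem_singleton] at ha
            exact ha ▸ hrK
          · intro w hw
            refine ⟨r, List.mem_singleton.2 rfl, ?_⟩
            have hw' := (Finset.mem_filter.1 hw).2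
            have hr' := (Finset.mem_filter.1 hrK).2
            exact (ALL_conn G K hKcl ((hsym _ _ hw').trans hr') hw).2
        have hC1 := h3 V G K [r] hPL
        have hcard : (Γ \ K).card < n := by
          rw [← hn]
          refine Finset.card_lt_card ?_
          rw [Finset.ssubset_iff_of_subset Finset.sdiff_subset]
          exact ⟨v, hv, fun h => (Finset.mem_sdiff.1 h).2 hvK⟩
        have hDcl : ∀ u ∈ Γ \ K, ∀ w, G.Adj u w → w ∈ Γ \ K := by
          intro u hu w huw
          rw [Finset.mem_sdiff] at hu ⊢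
          exact ⟨hcl u hu.1 w huw, fun hwK => hu.2 (hKcl w hwK u (G.adj_symm huw))⟩
        obtain ⟨L', hL'⟩ := ih _ hcard (Γ \ K) rfl hDcl
        have hU := h4 V G (↑K) (↑(Γ \ K)) [r] L' hC1 hL'
          (fun x hx hx' => by
            rw [Finset.mem_coe] at hx hx'
            exact (Finset.mem_sdiff.1 hx').2 hx)
          (fun x hx y hy hxy => by
            rw [Finset.mem_coe] at hx hy
            exact (Finset.mem_sdiff.1 hy).2 (hKcl x hx y hxy))
        refine ⟨[r] ++ L', ?_⟩
        have hKΓ : K ⊆ Γ := Finset.filter_subset _ _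
        have : (↑K ∪ ↑(Γ \ K) : Set V) = ↑Γ := by
          rw [← Finset.coe_union, Finset.union_sdiff_of_subset hKΓ]
        rw [← this]
        exact hU
  obtain ⟨L, hL⟩ := key _ Finset.univ rfl (fun _ _ _ _ => Finset.mem_univ _)
  exact ⟨L, by simpa using hL⟩

end Pool.Agent.CRV
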