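import Pool.Agent.CRV.Targets

set_option autoImplicit false

/-!
# CRV-CONTR: contraction of an edge at the additional vertex
-/

namespace Pool.Agent.CRV

namespace CONTR

section lists

set_option linter.unusedSectionVars false

variable {W X : Type} [DecidableEq W] [DecidableEq X]

/-- the part of the list before `a` -/
def bef (l : List W) (a : W) : List W := l.takeWhile fun u => decide (u ≠ a)

theorem bef_nil (a : W) : bef [] a = [] := rfl

theorem bef_cons (b : W) (l : List W) (a : W) :
    bef (b :: l) a = if b = a then [] else b :: bef l a := by
  unfold bef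
  by_cases h : b = a <;> simp [h]

theorem bef_append_mem {l₁ : List W} (l₂ : List W) {a : W} (h : a ∈ l₁) :
    bef (l₁ ++ l₂) a = bef l₁ a := by
  induction l₁ with
  | nil => simp at h
  | cons b l ih =>
    rw [List.cons_append, bef_cons, bef_cons]
    by_cases hb : b = a
    · simp [hb]
    · rw [if_neg hb, if_neg hb, ih]
      rcases List.mem_cons.1 h with h | h
      · exact absurd h.symm hb
      · exact h

theorem bef_append_not {l₁ : List W} (l₂ : List W) {a : W} (h : a ∉ l₁) :
    bef (l₁ ++ l₂) a = l₁ ++ bef l₂ a := by
  induction l₁ with
  | nil => rfl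
  | cons b l ih =>
    rw [List.mem_cons, not_or] at h
    rw [List.cons_append, bef_cons, if_neg (fun e => h.1 e.symm), ih h.2]
    rfl

theorem bef_filter (q : W → Bool) {a : W} (ha : q a = true) (l : List W) :
    bef (l.filter q) a = (bef l a).filter q := by
  induction l with
  | nil => rfl
  | cons b l ih =>
    rw [bef_cons]
    by_cases hb : b = a
    · subst hb
      rw [List.filter_cons_of_pos ha, bef_cons, if_pos rfl, if_pos rfl]
      rfl
    · rw [if_neg hb]
      by_cases hq : q b = true
      · rw [List.filter_cons_of_pos hq, List.filter_cons_of_pos hq, bef_cons, if_neg hb, ih]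
      · rw [List.filter_cons_of_neg hq, List.filter_cons_of_neg hq, ih]

theorem bef_map (f : W → X) {l : List W} {a : W} {b : X} (h : ∀ o ∈ l, f o = b ↔ o = a) :
    bef (l.map f) b = (bef l a).map f := by
  induction l with
  | nil => rfl
  | cons c l ih =>
    rw [List.map_cons, bef_cons, bef_cons]
    have h1 := h c (by simp)
    by_cases hc : c = a
    · rw [if_pos (h1.2 hc), if_pos hc]
      rfl
    · rw [if_neg (fun e => hc (h1.1 e)), if_neg hc, ih fun o ho => h o (by simp [ho])]
      rfl

theorem mem_bef {l : List W} {a u : W} (h : u ∈ bef l a) : u ∈ l :=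
  List.takeWhile_subset _ h

theorem sum_congr' {l : List W} {f g : W → ZMod 2} (h : ∀ o ∈ l, f o = g o) :
    (l.map f).sum = (l.map g).sum :=
  congrArg List.sum (List.map_congr_left h)

theorem sum_filter (q : W → Bool) (f : W → ZMod 2) (l : List W) :
    ((l.filter q).map f).sum = (l.map fun o => if q o = true then f o else 0).sum := by
  induction l with
  | nil => rfl
  | cons b l ih =>
    by_cases hq : q b = true
    · rw [List.filter_cons_of_pos hq]
      simp [hq, ih]
    · rw [List.filter_cons_of_neg hq]
      simp [hq, ih]

theorem sum_append (f : W → ZMod 2) (l₁ l₂ : List W) :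
    ((l₁ ++ l₂).map f).sum = (l₁.map f).sum + (l₂.map f).sum := by
  rw [List.map_append, List.sum_append]

theorem zadd (a : ZMod 2) : a + a = 0 := by
  revert a
  decide

end lists

variable {V : Type} [DecidableEq V]

/-- the data of the contraction -/
structure Data (G : SimpleGraph V) (Γ : Finset V) (A B : List V) (x : V)
    (rot : Option V → List (Option V)) (P Q : List V) : Prop where
  pr : PlaneRot rot
  h0 : rot none = (A ++ x :: B).map some
  hG : ∀ u v, some u ∈ rot (some v) ↔ u ∈ Γ ∧ v ∈ Γ ∧ G.Adj u v
  hx : rot (some x) = P.map some ++ none :: Q.map some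

/-- the new elements of the list -/
def us (A B : List V) (x : V) (P Q : List V) : List V :=
  (Q ++ P).filter fun u => decide (u ∉ A ++ x :: B)

/-- renaming of `x` -/
def ren (x : V) (o : Option V) : Option V := if o = some x then none else o

/-- the new rotation system -/
def rot' (rot : Option V → List (Option V)) (A B : List V) (x : V) (U : List V) :
    Option V → List (Option V)
  | none => (A ++ U ++ B).map some
  | some w => if w = x then [] else if w ∈ U then (rot (some w)).map (ren x) else
      (rot (some w)).filter fun o => decide (o ≠ some x)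

theorem rot'_some (rot : Option V → List (Option V)) (A B : List V) (x : V) (U : List V) (w : V) :
    rot' rot A B x U (some w) = if w = x then [] else if w ∈ U then (rot (some w)).map (ren x) else
      (rot (some w)).filter fun o => decide (o ≠ some x) := rfl

section main

variable {G : SimpleGraph V} {Γ : Finset V} {A B : List V} {x : V}
  {rot : Option V → List (Option V)} {P Q : List V}

theorem mem_us (D : Data G Γ A B x rot P Q) (u : V) :
    u ∈ us A B x P Q ↔ some u ∈ rot (some x) ∧ u ∉ A ++ x :: B := by
  unfold us
  rw [D.hx]
  simp only [List.mem_filter, List.mem_append, decide_eq_true_eq, List.mem_map, List.mem_cons,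
    Option.some.injEq, exists_eq_right, reduceCtorEq, false_or]
  tauto

theorem mem_none (D : Data G Γ A B x rot P Q) (u : V) :
    none ∈ rot (some u) ↔ u ∈ A ++ x :: B := by
  constructor
  · intro h
    have h1 := D.pr.symm _ _ h
    rw [D.h0, List.mem_map] at h1
    obtain ⟨a, ha, e⟩ := h1
    rw [Option.some.injEq] at e
    exact e ▸ ha
  · intro h
    apply D.pr.symm
    rw [D.h0]
    exact List.mem_map_of_mem h

theorem nd0 (D : Data G Γ A B x rot P Q) : (A ++ x :: B).Nodup := by
  have := D.pr.nodup none
  rw [D.h0] at this
  exact this.of_map _

theorem ndx (D : Data G Γ A B x rot P Q) : (Q ++ P).Nodup := by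
  have h := D.pr.nodup (some x)
  rw [D.hx, List.nodup_middle, List.nodup_cons, ← List.map_append] at h
  have h1 := h.2.of_map _
  exact List.perm_append_comm.nodup_iff.1 h1

theorem x_not_us (D : Data G Γ A B x rot P Q) : x ∉ us A B x P Q := by
  rw [mem_us D]
  simp

theorem us_some (D : Data G Γ A B x rot P Q) {u : V} (hu : u ∈ us A B x P Q) :
    ∀ o ∈ rot (some u), o ≠ none := by
  rintro o ho rfl
  exact ((mem_us D u).1 hu).2 ((mem_none D u).1 ho)

/-- the elements of `rot'` -/
theorem mem_rot' (_D : Data G Γ A B x rot P Q) (u v : V) :
    some u ∈ rot' rot A B x (us A B x P Q) (some v) ↔ v ≠ x ∧ u ≠ x ∧ some u ∈ rot (some v) := by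
  rw [rot'_some]
  by_cases hv : v = x
  · simp [hv]
  · rw [if_neg hv]
    by_cases hU : v ∈ us A B x P Q
    · rw [if_pos hU, List.mem_map]
      constructor
      · rintro ⟨o, ho, e⟩
        unfold ren at e
        by_cases hox : o = some x
        · rw [if_pos hox] at e
          simp at e
        · rw [if_neg hox] at e
          subst e
          exact ⟨hv, fun e => hox (by rw [e]), ho⟩
      · rintro ⟨-, h1, h2⟩
        exact ⟨some u, h2, by simp [ren, h1]⟩
    · rw [if_neg hU, List.mem_filter]
      simp only [ne_eq, Option.some.injEq, decide_eq_true_eq]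
      tauto

theorem mem_rot'_none (D : Data G Γ A B x rot P Q) (v : V) :
    none ∈ rot' rot A B x (us A B x P Q) (some v) ↔ v ∈ A ++ us A B x P Q ++ B := by
  have hx1 := nd0 D
  rw [List.nodup_middle, List.nodup_cons] at hx1
  have hxu := x_not_us D
  rw [rot'_some]
  by_cases hv : v = x
  · subst hv
    rw [if_pos rfl]
    simp only [List.not_mem_nil, List.mem_append, false_iff, not_or]
    have := hx1.1
    rw [List.mem_append, not_or] at this
    exact ⟨⟨this.1, hxu⟩, this.2⟩
  · rw [if_neg hv]
    by_cases hU : v ∈ us A B x P Q
    · rw [if_pos hU, List.mem_map]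
      constructor
      · intro _
        simp [hU]
      · intro _
        refine ⟨some x, D.pr.symm _ _ ((mem_us D v).1 hU).1, by simp [ren]⟩
    · rw [if_neg hU, List.mem_filter, mem_none D]
      simp only [List.mem_append, List.mem_cons, ne_eq, reduceCtorEq, not_false_eq_true,
        decide_true, and_true]
      tauto

theorem nodup' (D : Data G Γ A B x rot P Q) (v : Option V) :
    (rot' rot A B x (us A B x P Q) v).Nodup := by
  cases v with
  | none =>
    refine List.Nodup.map (Option.some_injective V) ?_
    have h1 := nd0 D
    rw [List.nodup_append] at h1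
    have h2 := (List.nodup_cons.1 h1.2.1)
    have hu : (us A B x P Q).Nodup := (ndx D).filter _
    rw [List.nodup_append, List.nodup_append]
    refine ⟨⟨h1.1, hu, ?_⟩, h2.2, ?_⟩
    · rintro a ha b hb rfl
      exact ((mem_us D a).1 hb).2 (by simp [ha])
    · rintro a ha b hb rfl
      rcases List.mem_append.1 ha with ha | ha
      · exact h1.2.2 a ha a (by simp [hb]) rfl
      · exact ((mem_us D a).1 ha).2 (by simp [hb])
  | some w =>
    rw [rot'_some]
    by_cases hw : w = x
    · simp [hw]
    · rw [if_neg hw]
      by_cases hU : w ∈ us A B x P Q
      · rw [if_pos hU]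
        refine List.Nodup.map_on ?_ (D.pr.nodup _)
        intro a ha b hb e
        have h1 := us_some D hU a ha
        have h2 := us_some D hU b hb
        unfold ren at e
        by_cases ea : a = some x <;> by_cases eb : b = some x
        · rw [ea, eb]
        · rw [if_pos ea, if_neg eb] at e
          exact absurd e.symm h2
        · rw [if_neg ea, if_pos eb] at e
          exact absurd e h1
        · rw [if_neg ea, if_neg eb] at e
          exact e
      · rw [if_neg hU]
        exact (D.pr.nodup _).filter _

theorem symm' (D : Data G Γ A B x rot P Q) (u v : Option V)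
    (h : u ∈ rot' rot A B x (us A B x P Q) v) : v ∈ rot' rot A B x (us A B x P Q) u := by
  have hn : ∀ w : V, some w ∈ rot' rot A B x (us A B x P Q) none ↔ w ∈ A ++ us A B x P Q ++ B := by
    intro w
    change some w ∈ List.map some _ ↔ _
    rw [List.mem_map]
    simp
  cases v with
  | none =>
    cases u with
    | none =>
      change none ∈ List.map some _ at h
      rw [List.mem_map] at h
      obtain ⟨a, -, e⟩ := h
      exact absurd e (by simp)
    | some u =>
      rw [mem_rot'_none D]
      exact (hn u).1 h
  | some v =>
    cases u with
    | none =>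
      rw [mem_rot'_none D] at h
      exact (hn v).2 h
    | some u =>
      rw [mem_rot' D] at h ⊢
      exact ⟨h.2.1, h.1, D.pr.symm _ _ h.2.2⟩

/-- the function `g` of the proof -/
def gg (U : List V) (C' : Option V → Option V → ZMod 2) : Option V → ZMod 2
  | none => (U.map fun u => C' none (some u)).sum
  | some u => if u ∈ U then C' none (some u) else 0

/-- the edge set for the old rotation system -/
def CC (x : V) (U : List V) (C' : Option V → Option V → ZMod 2) (a b : Option V) : ZMod 2 :=
  if a = some x then (if b = some x then 0 else gg U C' b)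
  else if b = some x then gg U C' a else C' a b

theorem CC_symm {x : V} {U : List V} {C' : Option V → Option V → ZMod 2}
    (hC : ∀ u v, C' u v = C' v u) (u v : Option V) : CC x U C' u v = CC x U C' v u := by
  unfold CC
  by_cases h1 : u = some x <;> by_cases h2 : v = some x
  · rw [h1, h2]
  · rw [if_pos h1, if_neg h2, if_neg h2, if_pos h1]
  · rw [if_neg h1, if_pos h2, if_pos h2, if_neg h1]
  · rw [if_neg h1, if_neg h2, if_neg h2, if_neg h1, hC]

theorem CC_of {x : V} {U : List V} {C' : Option V → Option V → ZMod 2} {a b : Option V}
    (ha : a ≠ some x) (hb : b ≠ some x) : CC x U C' a b = C' a b := by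
  unfold CC
  rw [if_neg ha, if_neg hb]

theorem CC_x {x : V} {U : List V} {C' : Option V → Option V → ZMod 2} {b : Option V}
    (hb : b ≠ some x) : CC x U C' (some x) b = gg U C' b := by
  unfold CC
  rw [if_pos rfl, if_neg hb]

theorem CC_x' {x : V} {U : List V} {C' : Option V → Option V → ZMod 2} {b : Option V}
    (hb : b ≠ some x) : CC x U C' b (some x) = gg U C' b := by
  unfold CC
  rw [if_neg hb, if_pos rfl]

/-- sums over the rotation at a vertex of `us` -/
theorem sum_us (D : Data G Γ A B x rot P Q) {C' : Option V → Option V → ZMod 2}
    (hC : ∀ u v, C' u v = C' v u) {w : V} (hw : w ∈ us A B x P Q) {l : List (Option V)}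
    (hl : ∀ o ∈ l, o ∈ rot (some w)) :
    (l.map (CC x (us A B x P Q) C' (some w))).sum = ((l.map (ren x)).map (C' (some w))).sum := by
  rw [List.map_map]
  apply sum_congr'
  intro o ho
  have h1 := us_some D hw o (hl o ho)
  have hwx : w ≠ x := fun e => x_not_us D (e ▸ hw)
  have hwx' : (some w : Option V) ≠ some x := fun e => hwx (Option.some.inj e)
  change _ = C' (some w) (ren x o)
  unfold ren
  by_cases hox : o = some x
  · rw [if_pos hox, hox, CC_x' hwx']
    change (if w ∈ us A B x P Q then C' none (some w) else 0) = _
    rw [if_pos hw, hC]
  · rw [if_neg hox, CC_of hwx' hox]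

/-- sums over the rotation at a vertex not in `us` -/
theorem sum_not (C' : Option V → Option V → ZMod 2) {w : V} {U : List V} (hwx : w ≠ x)
    (hw : w ∉ U) (l : List (Option V)) :
    (l.map (CC x U C' (some w))).sum =
      ((l.filter fun o => decide (o ≠ some x)).map (C' (some w))).sum := by
  rw [sum_filter]
  apply sum_congr'
  intro o _
  have hwx' : (some w : Option V) ≠ some x := fun e => hwx (Option.some.inj e)
  by_cases hox : o = some x
  · rw [hox, CC_x' hwx']
    change (if w ∈ U then C' none (some w) else 0) = _
    rw [if_neg hw]
    simp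
  · rw [CC_of hwx' hox]
    simp [hox]

/-- sums of `C none` -/
theorem sum_none (C' : Option V → Option V → ZMod 2) (U : List V) {l : List V} (hl : x ∉ l) :
    ((l.map some).map (CC x U C' none)).sum = (l.map fun u => C' none (some u)).sum := by
  rw [List.map_map]
  apply sum_congr'
  intro u hu
  change CC x U C' none (some u) = _
  rw [CC_of (by simp)]
  intro e
  rw [Option.some.inj e] at hu
  exact hl hu

/-- sums of `C x` -/
theorem sum_x (C' : Option V → Option V → ZMod 2) (D : Data G Γ A B x rot P Q) {l : List V}
    (hl : ∀ u ∈ l, u ∈ Q ++ P) :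
    ((l.map some).map (CC x (us A B x P Q) C' (some x))).sum =
      ((l.filter fun u => decide (u ∉ A ++ x :: B)).map fun u => C' none (some u)).sum := by
  rw [List.map_map, sum_filter]
  apply sum_congr'
  intro u hu
  have hu' : some u ∈ rot (some x) := by
    rw [D.hx]
    have := hl u hu
    simp only [List.mem_append] at this
    simp [this.symm]
  have hux : u ≠ x := by
    rintro rfl
    exact D.pr.loopless _ hu'
  change CC x (us A B x P Q) C' (some x) (some u) = _
  rw [CC_x (fun e => hux (Option.some.inj e))]
  change (if u ∈ us A B x P Q then C' none (some u) else 0) = _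
  by_cases h : u ∈ A ++ x :: B
  · rw [if_neg (fun h' => ((mem_us D u).1 h').2 h), if_neg (by rw [decide_eq_true_eq]; exact fun h' => h' h)]
  · rw [if_pos ((mem_us D u).2 ⟨hu', h⟩), if_pos (by rw [decide_eq_true_eq]; exact h)]

theorem hom' (D : Data G Γ A B x rot P Q) (C' : Option V → Option V → ZMod 2)
    (hC : ∀ u v, C' u v = C' v u)
    (hev : ∀ v, ((rot' rot A B x (us A B x P Q) v).map (C' v)).sum = 0) :
    ∃ s : Option V → ZMod 2, ∀ u v, v ∈ rot' rot A B x (us A B x P Q) u →
      s u + s v = cnt (rot' rot A B x (us A B x P Q)) C' u v +
        cnt (rot' rot A B x (us A B x P Q)) C' v u + C' u v := by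
  set U := us A B x P Q with hU
  have hxU : x ∉ U := x_not_us D
  have hnd := nd0 D
  have hnd' := hnd
  rw [List.nodup_middle, List.nodup_cons, List.mem_append, not_or] at hnd'
  have hxA : x ∉ A := hnd'.1.1
  have hxB : x ∉ B := hnd'.1.2
  -- `S`
  have hS : gg U C' none = (U.map fun u => C' none (some u)).sum := rfl
  have hS2 : gg U C' none =
      ((Q.filter fun u => decide (u ∉ A ++ x :: B)).map fun u => C' none (some u)).sum +
        ((P.filter fun u => decide (u ∉ A ++ x :: B)).map fun u => C' none (some u)).sum := by
    rw [hS, hU, ← sum_append]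
    unfold us
    rw [List.filter_append]
  -- `C` is even
  have heven : ∀ v, ((rot v).map (CC x U C' v)).sum = 0 := by
    intro v
    cases v with
    | none =>
      have h1 := hev none
      change (((A ++ U ++ B).map some).map (C' none)).sum = 0 at h1
      rw [List.map_map, sum_append, sum_append] at h1
      rw [D.h0, List.map_append, sum_append, List.map_cons, List.map_cons, List.sum_cons,
        sum_none C' U hxA, sum_none C' U hxB, CC_x' (by simp), hS]
      have h2 : ∀ l : List V, (l.map (C' none ∘ some)).sum =
        (l.map fun u => C' none (some u)).sum := fun l => rfl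
      rw [h2, h2, h2] at h1
      rw [← h1]
      ring
    | some w =>
      by_cases hwx : w = x
      · subst hwx
        rw [D.hx, sum_append, List.map_cons, List.sum_cons, sum_x C' D (by simp +contextual),
          sum_x C' D (by simp +contextual), CC_x (by simp), hS2]
        have := zadd ((Q.filter fun u => decide (u ∉ A ++ w :: B)).map
          fun u => C' none (some u)).sum
        have h3 := zadd ((P.filter fun u => decide (u ∉ A ++ w :: B)).map
          fun u => C' none (some u)).sum
        linear_combination this + h3
      · have h1 := hev (some w)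
        unfold rot' at h1
        simp only [if_neg hwx] at h1
        by_cases hw : w ∈ U
        · rw [if_pos hw] at h1
          rw [hU, sum_us D hC hw fun o ho => ho]
          exact h1
        · rw [if_neg hw] at h1
          rw [sum_not C' hwx hw]
          exact h1
  obtain ⟨s, hs⟩ := D.pr.hom (CC x U C') (CC_symm hC) heven
  -- counts at `some a`
  have hcnt : ∀ a : V, a ≠ x → ∀ b : V, b ≠ x →
      cnt rot (CC x U C') (some a) (some b) = cnt (rot' rot A B x U) C' (some a) (some b) := by
    intro a ha b hb
    change ((bef (rot (some a)) (some b)).map _).sum = ((bef (rot' rot A B x U (some a)) _).map _).sum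
    unfold rot'
    simp only [if_neg ha]
    by_cases haU : a ∈ U
    · rw [if_pos haU, bef_map (ren x) (a := some b), ← sum_us D hC haU fun o ho => mem_bef ho]
      intro o _
      unfold ren
      by_cases hox : o = some x
      · rw [if_pos hox, hox]
        simp [Ne.symm hb]
      · rw [if_neg hox]
    · rw [if_neg haU, bef_filter _ (by simp [hb]), ← sum_not C' ha haU]
  have hcnt0 : ∀ a : V, a ≠ x → a ∉ U →
      cnt rot (CC x U C') (some a) none = cnt (rot' rot A B x U) C' (some a) none := by
    intro a ha haU
    change ((bef (rot (some a)) _).map _).sum = ((bef (rot' rot A B x U (some a)) _).map _).sum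
    unfold rot'
    simp only [if_neg ha, if_neg haU]
    rw [bef_filter _ (by simp), ← sum_not C' ha haU]
  -- the main case
  have hmain : ∀ w : V, w ∈ A ++ U ++ B → s none + s (some w) =
      cnt (rot' rot A B x U) C' none (some w) + cnt (rot' rot A B x U) C' (some w) none +
        C' none (some w) := by
    intro w hw
    have hinj : ∀ (l : List V) (a : V), bef (l.map some) (some a) = (bef l a).map some :=
      fun l a => bef_map some fun o _ => by simp
    have hcn : ∀ a, cnt (rot' rot A B x U) C' none (some a) =
        ((bef (A ++ U ++ B) a).map fun u => C' none (some u)).sum := by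
      intro a
      change ((bef ((A ++ U ++ B).map some) (some a)).map _).sum = _
      rw [hinj, List.map_map]
      rfl
    have hxw : x ≠ w := by
      rintro rfl
      simp only [List.mem_append] at hw
      tauto
    by_cases hwU : w ∈ U
    · -- `w` in `us`
      have hw1 := (mem_us D w).1 hwU
      have hwA : w ∉ A := fun h => hw1.2 (by simp [h])
      have e1 := hs none (some x) (by rw [D.h0]; simp)
      have e2 := hs (some x) (some w) hw1.1
      rw [CC_x' (by simp)] at e1
      rw [CC_x (fun e => hxw (Option.some.inj e).symm)] at e2
      have e3 : gg U C' (some w) = C' none (some w) := if_pos hwU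
      rw [e3] at e2
      have c1 : cnt rot (CC x U C') none (some x) = (A.map fun u => C' none (some u)).sum := by
        change ((bef (rot none) (some x)).map _).sum = _
        rw [D.h0, hinj, bef_append_not _ hxA, bef_cons, if_pos rfl, List.append_nil,
          sum_none C' U hxA]
      have c2 : cnt rot (CC x U C') (some w) (some x) =
          cnt (rot' rot A B x U) C' (some w) none := by
        change ((bef (rot (some w)) _).map _).sum = ((bef (rot' rot A B x U (some w)) _).map _).sum
        unfold rot'
        simp only [if_neg (Ne.symm hxw)]
        rw [if_pos hwU, bef_map (ren x) (a := some x), ← sum_us D hC hwU fun o ho => mem_bef ho]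
        intro o ho
        have h1 := us_some D hwU o ho
        unfold ren
        by_cases hox : o = some x
        · simp [hox]
        · simp [hox, h1]
      have c3 : cnt rot (CC x U C') (some x) none =
          ((P.filter fun u => decide (u ∉ A ++ x :: B)).map fun u => C' none (some u)).sum := by
        change ((bef (rot (some x)) none).map _).sum = _
        rw [D.hx, bef_append_not _ (by simp), bef_cons, if_pos rfl, List.append_nil,
          sum_x C' D (by simp +contextual)]
      have c4 : cnt (rot' rot A B x U) C' none (some w) =
          (A.map fun u => C' none (some u)).sum +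
            ((bef U w).map fun u => C' none (some u)).sum := by
        rw [hcn, bef_append_mem _ (by simp [hwU]), bef_append_not _ hwA, sum_append]
      have hq : decide (w ∉ A ++ x :: B) = true := by simpa using hw1.2
      have c5 : bef U w = (bef (Q ++ P) w).filter fun u => decide (u ∉ A ++ x :: B) :=
        bef_filter (fun u => decide (u ∉ A ++ x :: B)) hq _
      have hndx := ndx D
      rw [List.nodup_append] at hndx
      have hwQP : w ∈ Q ++ P := by
        have := hwU
        rw [hU] at this
        exact (List.mem_filter.1 this).1
      have key : cnt rot (CC x U C') (some x) none + gg U C' none +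
          cnt rot (CC x U C') (some x) (some w) =
            ((bef U w).map fun u => C' none (some u)).sum := by
        rw [c3]
        have c6 : cnt rot (CC x U C') (some x) (some w) =
          ((bef (P.map some ++ none :: Q.map some) (some w)).map
            (CC x U C' (some x))).sum := by
          change ((bef (rot (some x)) (some w)).map _).sum = _
          rw [D.hx]
        rw [c6]
        by_cases hwQ : w ∈ Q
        · have hwP : w ∉ P := fun h => hndx.2.2 w hwQ w h rfl
          rw [c5, bef_append_mem _ hwQ, bef_append_not _ (by simpa using hwP), bef_cons,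
            if_neg (by simp), hinj, sum_append, List.map_cons, List.sum_cons,
            sum_x C' D (by simp +contextual), CC_x (by simp),
            sum_x C' D (fun u hu => by simp [mem_bef hu])]
          have h1 := zadd ((P.filter fun u => decide (u ∉ A ++ x :: B)).map
            fun u => C' none (some u)).sum
          have h2 := zadd (gg U C' none)
          linear_combination h1 + h2
        · have hwP : w ∈ P := by
            rcases List.mem_append.1 hwQP with h | h
            · exact absurd h hwQ
            · exact h
          rw [c5, bef_append_not _ hwQ, bef_append_mem _ (by simpa using hwP), hinj,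
            List.filter_append, sum_append, sum_x C' D (fun u hu => by simp [mem_bef hu]), hS2]
          have h1 := zadd ((P.filter fun u => decide (u ∉ A ++ x :: B)).map
            fun u => C' none (some u)).sum
          linear_combination h1
      rw [c1] at e1
      rw [c2] at e2
      rw [c4, ← key]
      have h2 := zadd (s (some x))
      linear_combination e1 + e2 - h2
    · -- `w` in `A` or `B`
      have hwAB : w ∈ A ∨ w ∈ B := by
        simp only [List.mem_append] at hw
        tauto
      have e1 := hs none (some w) (by
        rw [D.h0]
        rcases hwAB with h | h <;> simp [h])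
      rw [CC_of (by simp) (fun e => hxw (Option.some.inj e).symm), hcnt0 w (Ne.symm hxw) hwU] at e1
      rw [e1, hcn]
      congr 2
      change ((bef (rot none) (some w)).map _).sum = _
      rw [D.h0, hinj]
      by_cases hwA : w ∈ A
      · rw [bef_append_mem _ hwA, List.append_assoc, bef_append_mem _ hwA,
          sum_none C' U fun h => hxA (mem_bef h)]
      · rw [bef_append_not _ hwA, bef_append_not _ (by simp [hwA, hwU]), bef_cons, if_neg hxw,
          List.map_append, sum_append, sum_append, sum_append, List.map_cons, List.map_cons,
          List.sum_cons, sum_none C' U hxA, sum_none C' U fun h => hxB (mem_bef h), CC_x' (by simp),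
          hS]
        ring
  refine ⟨s, fun u v huv => ?_⟩
  cases u with
  | none =>
    cases v with
    | none =>
      change none ∈ List.map some _ at huv
      rw [List.mem_map] at huv
      obtain ⟨a, -, e⟩ := huv
      exact absurd e (by simp)
    | some w =>
      apply hmain
      change some w ∈ List.map some _ at huv
      rw [List.mem_map] at huv
      obtain ⟨a, ha, e⟩ := huv
      rw [Option.some.injEq] at e
      exact e ▸ ha
  | some a =>
    cases v with
    | none =>
      have h1 := hmain a ((mem_rot'_none D a).1 huv)
      rw [hC, add_comm (s (some a)), h1]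
      ring
    | some b =>
      rw [hU, mem_rot' D] at huv
      rw [hs _ _ huv.2.2, hcnt a huv.1 b huv.2.1, hcnt b huv.2.1 a huv.1,
        CC_of (fun e => huv.1 (Option.some.inj e)) (fun e => huv.2.1 (Option.some.inj e))]

end main

end CONTR

open CONTR in
/-- CONTR -/
theorem tCONTR : T_CONTR := by
  intro V _ G Γ A B x h
  obtain ⟨rot, hr, h0, hG⟩ := h.rot
  have hxn : none ∈ rot (some x) := by
    apply hr.symm
    rw [h0]
    simp
  obtain ⟨P₀, Q₀, hPQ⟩ := List.append_of_mem hxn
  have hnd := hr.nodup (some x)
  rw [hPQ, List.nodup_middle, List.nodup_cons, List.mem_append, not_or] at hnd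
  have hsome : ∀ l : List (Option V), none ∉ l → ∃ l' : List V, l = l'.map some := by
    intro l
    induction l with
    | nil => exact fun _ => ⟨[], rfl⟩
    | cons a l ih =>
      intro hl
      rw [List.mem_cons, not_or] at hl
      obtain ⟨l', rfl⟩ := ih hl.2
      cases a with
      | none => exact absurd rfl hl.1
      | some a => exact ⟨a :: l', rfl⟩
  obtain ⟨P, rfl⟩ := hsome P₀ hnd.1.1
  obtain ⟨Q, rfl⟩ := hsome Q₀ hnd.1.2
  have D : Data G Γ A B x rot P Q := ⟨hr, h0, hG, hPQ⟩
  have hxΓ : x ∈ Γ := h.sub x (by simp)
  have hus : ∀ u, u ∈ us A B x P Q ↔ u ∈ Γ ∧ G.Adj x u ∧ u ∉ A ++ x :: B := by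
    intro u
    rw [mem_us D, hG, G.adj_comm]
    tauto
  refine ⟨us A B x P Q, hus, ⟨rot' rot A B x (us A B x P Q), ⟨nodup' D, symm' D, ?_, hom' D⟩,
    rfl, ?_⟩, ?_, ?_⟩
  · intro v hv
    cases v with
    | none =>
      change none ∈ List.map some _ at hv
      rw [List.mem_map] at hv
      obtain ⟨a, -, e⟩ := hv
      exact absurd e (by simp)
    | some v =>
      rw [mem_rot' D] at hv
      exact hr.loopless _ hv.2.2
  · intro u v
    rw [mem_rot' D, hG, Finset.mem_erase, Finset.mem_erase]
    tauto
  · intro a ha
    have hnd0 := nd0 D
    rw [List.nodup_middle, List.nodup_cons, List.mem_append, not_or] at hnd0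
    rw [List.mem_append, List.mem_append] at ha
    rw [Finset.mem_erase]
    rcases ha with (ha | ha) | ha
    · exact ⟨fun e => hnd0.1.1 (e ▸ ha), h.sub a (by simp [ha])⟩
    · exact ⟨fun e => x_not_us D (e ▸ ha), ((hus a).1 ha).1⟩
    · exact ⟨fun e => hnd0.1.2 (e ▸ ha), h.sub a (by simp [ha])⟩
  · intro v hv
    rw [Finset.mem_erase] at hv
    obtain ⟨a, ha, hva⟩ := h.conn v hv.2
    revert hv
    induction hva using Relation.ReflTransGen.head_induction_on with
    | refl =>
      intro hv
      refine ⟨a, ?_, Relation.ReflTransGen.refl⟩
      simp only [List.mem_append, List.mem_cons] at ha ⊢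
      rcases ha with ha | ha | ha
      · exact Or.inl (Or.inl ha)
      · exact absurd ha hv.1
      · exact Or.inr ha
    | @head c d hcd _ ih =>
      intro hc
      by_cases hd : d = x
      · subst hd
        refine ⟨c, ?_, Relation.ReflTransGen.refl⟩
        by_cases hcL : c ∈ A ++ d :: B
        · simp only [List.mem_append, List.mem_cons] at hcL ⊢
          rcases hcL with ha | ha | ha
          · exact Or.inl (Or.inl ha)
          · exact absurd ha hc.1
          · exact Or.inr ha
        · have := (hus c).2 ⟨hc.2, hcd.1.symm, hcL⟩
          simp [this]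
      · obtain ⟨a', ha', hp⟩ := ih ⟨hd, hcd.2⟩
        exact ⟨a', ha', Relation.ReflTransGen.head ⟨hcd.1, Finset.mem_erase.2 ⟨hd, hcd.2⟩⟩ hp⟩

end Pool.Agent.CRV
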