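import Pool.Agent.CRV.Targets

set_option autoImplicit false

/-!
# COORD: there is room for the new rectangle
-/

namespace Pool.Agent.CRV

theorem room_above (S : List ℝ) (c : ℝ) (h : ∀ s ∈ S, c < s) : ∃ x, c < x ∧ ∀ s ∈ S, x < s := by
  induction S with
  | nil => exact ⟨c + 1, by linarith, by simp⟩
  | cons a S ih =>
    obtain ⟨x, hx, hS⟩ := ih fun s hs => h s (by simp [hs])
    have ha := h a (by simp)
    refine ⟨min x ((c + a) / 2), lt_min hx (by linarith), ?_⟩
    intro s hs
    rw [List.mem_cons] at hs
    rcases hs with rfl | hs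
    · exact (min_le_right _ _).trans_lt (by linarith)
    · exact (min_le_left _ _).trans_lt (hS s hs)

theorem room_below (S : List ℝ) (c : ℝ) (h : ∀ s ∈ S, s < c) : ∃ x, x < c ∧ ∀ s ∈ S, s < x := by
  induction S with
  | nil => exact ⟨c - 1, by linarith, by simp⟩
  | cons a S ih =>
    obtain ⟨x, hx, hS⟩ := ih fun s hs => h s (by simp [hs])
    have ha := h a (by simp)
    refine ⟨max x ((c + a) / 2), max_lt hx (by linarith), ?_⟩
    intro s hs
    rw [List.mem_cons] at hs
    rcases hs with rfl | hs
    · exact lt_of_lt_of_le (by linarith) (le_max_right _ _)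
    · exact (hS s hs).trans_le (le_max_left _ _)

theorem room_sep (S T : List ℝ) (h : ∀ s ∈ S, ∀ t ∈ T, s < t) :
    ∃ x y, x < y ∧ (∀ s ∈ S, s < x) ∧ ∀ t ∈ T, y < t := by
  have h1 : ∃ c, (∀ s ∈ S, s ≤ c) ∧ ∀ t ∈ T, c < t := by
    induction S with
    | nil =>
      induction T with
      | nil => exact ⟨0, by simp, by simp⟩
      | cons a T ih =>
        obtain ⟨c, -, hc⟩ := ih (by simp)
        refine ⟨min c (a - 1), by simp, ?_⟩
        intro t ht
        rw [List.mem_cons] at ht
        rcases ht with rfl | ht
        · exact (min_le_right _ _).trans_lt (by linarith)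
        · exact (min_le_left _ _).trans_lt (hc t ht)
    | cons a S ih =>
      obtain ⟨c, hc1, hc2⟩ := ih fun s hs => h s (by simp [hs])
      refine ⟨max c a, ?_, ?_⟩
      · intro s hs
        rw [List.mem_cons] at hs
        rcases hs with rfl | hs
        · exact le_max_right _ _
        · exact (hc1 s hs).trans (le_max_left _ _)
      · intro t ht
        exact max_lt (hc2 t ht) (h a (by simp) t ht)
  obtain ⟨c, hc1, hc2⟩ := h1
  obtain ⟨x, hx1, hx2⟩ := room_above T c hc2
  obtain ⟨y, hy1, hy2⟩ := room_above T x hx2
  exact ⟨x, y, hy1, fun s hs => (hc1 s hs).trans_lt hx1, hy2⟩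

theorem tCOORD : T_COORD := by
  intro V Γ R A us B P M Q e hB hL hP hQ
  obtain ⟨h1, h2, h3⟩ := List.pairwise_append.mp hB.mono
  obtain ⟨h4, h5, h6⟩ := List.pairwise_append.mp h1
  have hx : ∃ xl xr : ℝ, xl < xr ∧ (∀ a ∈ P, (R a).l ≤ xl) ∧ (∀ a ∈ A, (R a).l < xl) ∧
      (∀ m ∈ M ++ Q, xr < (R m).l) ∧ (∀ f, P.getLast? = some f → xr < (R f).r) ∧
      ∀ u ∈ us, xl ≤ (R u).l := by
    rcases hP with rfl | ⟨u, us', rfl, rfl⟩
    · have hL' : us ++ B = M ++ Q := by
        rw [List.append_assoc, List.append_assoc] at hL
        exact List.append_cancel_left hL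
      have hlast : ∀ f, P.getLast? = some f → ∀ a ∈ P, (R a).l ≤ (R f).l := by
        intro f hf a ha
        obtain ⟨P', rfl⟩ := List.getLast?_eq_some_iff.mp hf
        obtain ⟨-, -, h7⟩ := List.pairwise_append.mp h4
        rw [List.mem_append, List.mem_singleton] at ha
        rcases ha with ha | rfl
        · exact (h7 a ha f (by simp)).1.le
        · exact le_rfl
      obtain ⟨x, y, hxy, hS, hT⟩ := room_sep (P.map fun a => (R a).l)
        ((M ++ Q).map (fun a => (R a).l) ++ (P.getLast?.toList).map fun f => (R f).r) (by
          intro s hs t ht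
          rw [List.mem_map] at hs
          obtain ⟨a, ha, rfl⟩ := hs
          rw [List.mem_append, List.mem_map, List.mem_map] at ht
          rcases ht with ⟨m, hm, rfl⟩ | ⟨f, hf, rfl⟩
          · rw [← hL'] at hm
            rw [List.mem_append] at hm
            rcases hm with hm | hm
            · exact (h6 a ha m hm).1
            · exact (h3 a (by simp [ha]) m hm).1
          · rw [Option.mem_toList] at hf
            have := hlast f hf a ha
            have := (R f).width
            linarith)
      refine ⟨x, y, hxy, fun a ha => (hS _ (List.mem_map.mpr ⟨a, ha, rfl⟩)).le,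
        fun a ha => hS _ (List.mem_map.mpr ⟨a, ha, rfl⟩),
        fun m hm => hT _ (List.mem_append_left _ (List.mem_map.mpr ⟨m, hm, rfl⟩)), ?_, ?_⟩
      · intro f hf
        exact hT _ (List.mem_append_right _ (List.mem_map.mpr ⟨f, Option.mem_toList.mpr hf, rfl⟩))
      · intro u hu
        have : u ∈ M ++ Q := by rw [← hL']; simp [hu]
        have := hT _ (List.mem_append_left _ (List.mem_map.mpr ⟨u, this, rfl⟩))
        linarith
    · have hL' : us' ++ B = M ++ Q := by
        have : A ++ (u :: (us' ++ B)) = A ++ (u :: (M ++ Q)) := by simpa using hL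
        have := List.append_cancel_left this
        exact (List.cons.inj this).2
      have hu1 : ∀ m ∈ M ++ Q, (R u).l < (R m).l := by
        intro m hm
        rw [← hL', List.mem_append] at hm
        rcases hm with hm | hm
        · exact (List.rel_of_pairwise_cons h5 hm).1
        · exact (h3 u (by simp) m hm).1
      obtain ⟨x, hx, hT⟩ := room_above ((M ++ Q).map (fun a => (R a).l) ++ [(R u).r]) (R u).l (by
        intro t ht
        rw [List.mem_append, List.mem_map, List.mem_singleton] at ht
        rcases ht with ⟨m, hm, rfl⟩ | rfl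
        · exact hu1 m hm
        · exact (R u).width)
      refine ⟨(R u).l, x, hx, ?_, ?_, fun m hm => hT _ (List.mem_append_left _
        (List.mem_map.mpr ⟨m, hm, rfl⟩)), ?_, ?_⟩
      · intro a ha
        rw [List.mem_append, List.mem_singleton] at ha
        rcases ha with ha | rfl
        · exact (h6 a ha u (by simp)).1.le
        · exact le_rfl
      · intro a ha
        exact (h6 a ha u (by simp)).1
      · intro f hf
        simp only [List.getLast?_append, List.getLast?_singleton, Option.some_or,
          Option.some.injEq] at hf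
        subst hf
        exact hT _ (by simp)
      · intro a ha
        rw [List.mem_cons] at ha
        rcases ha with rfl | ha
        · exact le_rfl
        · exact (List.rel_of_pairwise_cons h5 ha).1.le
  have hy : ∃ yb yt : ℝ, yb < yt ∧ (∀ a ∈ P ++ M, (R a).t < yb) ∧ (∀ q ∈ Q, yt ≤ (R q).t) ∧
      (∀ q ∈ B, yt < (R q).t) ∧ (∀ w, Q.head? = some w → (R w).b < yb) ∧
      ∀ u ∈ us, (R u).t ≤ yt := by
    rcases hQ with rfl | ⟨us', u, rfl, rfl⟩
    · have hL' : A ++ us = P ++ M := List.append_cancel_right hL
      have hhead : ∀ w, Q.head? = some w → ∀ q ∈ Q, (R w).t ≤ (R q).t := by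
        intro w hw q hq
        obtain ⟨Q', rfl⟩ := List.head?_eq_some_iff.mp hw
        rw [List.mem_cons] at hq
        rcases hq with rfl | hq
        · exact le_rfl
        · exact (List.rel_of_pairwise_cons h2 hq).2.le
      obtain ⟨x, y, hxy, hS, hT⟩ := room_sep ((P ++ M).map (fun a => (R a).t) ++
          (Q.head?.toList).map fun w => (R w).b) (Q.map fun a => (R a).t) (by
          intro s hs t ht
          rw [List.mem_map] at ht
          obtain ⟨q, hq, rfl⟩ := ht
          rw [List.mem_append, List.mem_map, List.mem_map] at hs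
          rcases hs with ⟨m, hm, rfl⟩ | ⟨w, hw, rfl⟩
          · rw [← hL'] at hm
            exact (h3 m hm q hq).2
          · rw [Option.mem_toList] at hw
            have := hhead w hw q hq
            have := (R w).height
            linarith)
      refine ⟨x, y, hxy, fun a ha => hS _ (List.mem_append_left _ (List.mem_map.mpr ⟨a, ha, rfl⟩)),
        fun q hq => (hT _ (List.mem_map.mpr ⟨q, hq, rfl⟩)).le,
        fun q hq => hT _ (List.mem_map.mpr ⟨q, hq, rfl⟩), ?_, ?_⟩
      · intro w hw
        exact hS _ (List.mem_append_right _ (List.mem_map.mpr ⟨w, Option.mem_toList.mpr hw, rfl⟩))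
      · intro u hu
        have : u ∈ P ++ M := by rw [← hL']; simp [hu]
        have := hS _ (List.mem_append_left _ (List.mem_map.mpr ⟨u, this, rfl⟩))
        linarith
    · have hL' : A ++ us' = P ++ M := by
        have : (A ++ us') ++ (u :: B) = (P ++ M) ++ (u :: B) := by simpa using hL
        exact List.append_cancel_right this
      obtain ⟨-, -, h8⟩ := List.pairwise_append.mp h5
      have hu1 : ∀ m ∈ P ++ M, (R m).t < (R u).t := by
        intro m hm
        rw [← hL', List.mem_append] at hm
        rcases hm with hm | hm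
        · exact (h6 m hm u (by simp)).2
        · exact (h8 m hm u (by simp)).2
      obtain ⟨x, hx, hT⟩ := room_below ((P ++ M).map (fun a => (R a).t) ++ [(R u).b]) (R u).t (by
        intro t ht
        rw [List.mem_append, List.mem_map, List.mem_singleton] at ht
        rcases ht with ⟨m, hm, rfl⟩ | rfl
        · exact hu1 m hm
        · exact (R u).height)
      refine ⟨x, (R u).t, hx, fun m hm => hT _ (List.mem_append_left _
        (List.mem_map.mpr ⟨m, hm, rfl⟩)), ?_, ?_, ?_, ?_⟩
      · intro a ha
        rw [List.mem_cons] at ha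
        rcases ha with rfl | ha
        · exact le_rfl
        · exact (h3 u (by simp) a ha).2.le
      · intro a ha
        exact (h3 u (by simp) a ha).2
      · intro f hf
        simp only [List.head?_cons, Option.some.injEq] at hf
        subst hf
        exact hT _ (by simp)
      · intro a ha
        rw [List.mem_append, List.mem_singleton] at ha
        rcases ha with ha | rfl
        · exact (h8 a ha u (by simp)).2.le
        · exact le_rfl
  obtain ⟨xl, xr, hx1, hx2, hx3, hx4, hx5, hx6⟩ := hx
  obtain ⟨yb, yt, hy1, hy2, hy3, hy4, hy5, hy6⟩ := hy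
  refine ⟨⟨⟨xl, xr, yb, yt, hx1, hy1⟩, e⟩, rfl, ?_⟩
  exact {
    split := hL
    pos := {
      left := fun a ha => ⟨hx2 a ha, hy2 a (by simp [ha])⟩
      mid := fun m hm => ⟨hx4 m (by simp [hm]), hy2 m (by simp [hm])⟩
      right := fun q hq => ⟨hx4 q (by simp [hq]), hy3 q hq⟩
      floor := hx5
      wall := hy5 }
    hP := hP
    hQ := hQ
    left := hx3
    right := hy4
    cover := fun u hu => ⟨hx6 u hu, hy6 u hu⟩ }

end Pool.Agent.CRV
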