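import Pool.Agent.CRV.Targets

set_option autoImplicit false

/-!
# Corner rectangle visibility graphs: CROSS
-/

namespace Pool.Agent.CRV

/-- the indicator of the triangle on `none`, `some x`, `some y` -/
def crossC {V : Type} [DecidableEq V] (x y : V) (p q : Option V) : ZMod 2 :=
  if (p = none ∨ p = some x ∨ p = some y) ∧ (q = none ∨ q = some x ∨ q = some y) ∧ p ≠ q
    then 1 else 0

theorem crossC_symm {V : Type} [DecidableEq V] (x y : V) (p q : Option V) :
    crossC x y p q = crossC x y q p := by
  unfold crossC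
  refine if_congr ?_ rfl rfl
  constructor
  · rintro ⟨h1, h2, h3⟩; exact ⟨h2, h1, fun h => h3 h.symm⟩
  · rintro ⟨h1, h2, h3⟩; exact ⟨h2, h1, fun h => h3 h.symm⟩

theorem cross_two {V : Type} [DecidableEq V] (x y : V) (l : List (Option V)) (hl : l.Nodup)
    (v p q : Option V) (hp : p ∈ l) (hq : q ∈ l) (hpq : p ≠ q)
    (h1 : crossC x y v p = 1) (h2 : crossC x y v q = 1)
    (h0 : ∀ u, u ≠ p → u ≠ q → crossC x y v u = 0) :
    (l.map (crossC x y v)).sum = 0 := by
  rw [← List.sum_toFinset _ hl]
  rw [← Finset.sum_subset (s₁ := {p, q})]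
  · rw [Finset.sum_pair hpq, h1, h2]; decide
  · intro u hu
    rw [Finset.mem_insert, Finset.mem_singleton] at hu
    rw [List.mem_toFinset]
    rcases hu with rfl | rfl
    · exact hp
    · exact hq
  · intro u _ hu
    rw [Finset.mem_insert, Finset.mem_singleton, not_or] at hu
    exact h0 u hu.1 hu.2

/-- CROSS: no two edges cross -/
theorem tCROSS : T_CROSS := by
  intro V _ G Γ L hPL
  obtain ⟨rot, hrot, hnone, hadj⟩ := hPL.rot
  have hnd : L.Nodup := by
    have := hrot.nodup none
    rw [hnone] at this
    exact List.Nodup.of_map _ this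
  refine ⟨hnd, ?_⟩
  intro x a y b hsub hxy hab
  rw [List.cons_sublist_iff] at hsub
  obtain ⟨r1, s1, hL1, hx, hsub⟩ := hsub
  rw [List.cons_sublist_iff] at hsub
  obtain ⟨r2, s2, hL2, ha, hsub⟩ := hsub
  rw [List.cons_sublist_iff] at hsub
  obtain ⟨r3, s3, hL3, hy, hsub⟩ := hsub
  rw [List.singleton_sublist] at hsub
  obtain ⟨a1, a2, rfl⟩ := List.append_of_mem ha
  obtain ⟨b1, b2, rfl⟩ := List.append_of_mem hsub
  subst hL3 hL2 hL1
  -- the list
  have hnd' := hnd
  rw [List.nodup_append] at hnd'
  obtain ⟨hn1, hn2, hn3⟩ := hnd'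
  have hn2' := hn2
  rw [List.append_assoc, List.nodup_append] at hn2'
  obtain ⟨hn4, hn5, hn6⟩ := hn2'
  have hxa : x ≠ a := hn3 x hx a (by simp)
  have hxy' : x ≠ y := hn3 x hx y (by simp [hy])
  have hxb : x ≠ b := hn3 x hx b (by simp)
  have hay : a ≠ y := by
    rw [List.cons_append, List.nodup_cons] at hn5
    intro h
    apply hn5.1
    rw [h]
    simp [hy]
  have hab' : a ≠ b := by
    rw [List.cons_append, List.nodup_cons] at hn5
    intro h
    apply hn5.1
    rw [h]
    simp
  have hyb : y ≠ b := by
    rw [List.cons_append, List.nodup_cons] at hn5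
    have h7 := hn5.2
    rw [List.nodup_append] at h7
    have h8 := h7.2.1
    rw [List.nodup_append] at h8
    exact h8.2.2 y hy b (by simp)
  -- memberships
  set L := r1 ++ (a1 ++ a :: a2 ++ (r3 ++ (b1 ++ b :: b2))) with hLdef
  have hxL : x ∈ L := by simp [hLdef, hx]
  have haL : a ∈ L := by simp [hLdef]
  have hyL : y ∈ L := by simp [hLdef, hy]
  have hbL : b ∈ L := by simp [hLdef]
  have hxn : some x ∈ rot none := by rw [hnone]; exact List.mem_map_of_mem hxL
  have hyn : some y ∈ rot none := by rw [hnone]; exact List.mem_map_of_mem hyL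
  have han : some a ∈ rot none := by rw [hnone]; exact List.mem_map_of_mem haL
  have hbn : some b ∈ rot none := by rw [hnone]; exact List.mem_map_of_mem hbL
  have hnx : none ∈ rot (some x) := hrot.symm _ _ hxn
  have hny : none ∈ rot (some y) := hrot.symm _ _ hyn
  have hyx : some y ∈ rot (some x) :=
    (hadj y x).2 ⟨hPL.sub _ hyL, hPL.sub _ hxL, hxy.symm⟩
  have hxy2 : some x ∈ rot (some y) :=
    (hadj x y).2 ⟨hPL.sub _ hxL, hPL.sub _ hyL, hxy⟩
  have hba : some b ∈ rot (some a) :=
    (hadj b a).2 ⟨hPL.sub _ hbL, hPL.sub _ haL, hab.symm⟩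
  have hzero : ∀ v : Option V, v ≠ none → v ≠ some x → v ≠ some y → ∀ u, crossC x y v u = 0 := by
    intro v h1 h2 h3 u
    unfold crossC
    rw [if_neg]
    rintro ⟨h, _⟩
    rcases h with h | h | h
    · exact h1 h
    · exact h2 h
    · exact h3 h
  have hone : ∀ p q : Option V, (p = none ∨ p = some x ∨ p = some y) →
      (q = none ∨ q = some x ∨ q = some y) → p ≠ q → crossC x y p q = 1 := by
    intro p q h1 h2 h3
    unfold crossC
    rw [if_pos ⟨h1, h2, h3⟩]
  have hzero2 : ∀ v u : Option V, u ≠ none → u ≠ some x → u ≠ some y → crossC x y v u = 0 := by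
    intro v u h1 h2 h3
    rw [crossC_symm]
    exact hzero u h1 h2 h3 v
  have hself : ∀ v : Option V, crossC x y v v = 0 := by
    intro v
    unfold crossC
    rw [if_neg]
    rintro ⟨_, _, h⟩
    exact h rfl
  obtain ⟨s, hs⟩ := hrot.hom (crossC x y) (crossC_symm x y) (by
    intro v
    by_cases h1 : v = none
    · subst h1
      refine cross_two x y _ (hrot.nodup _) none (some x) (some y) hxn hyn (by simpa using hxy')
        (hone _ _ (by simp) (by simp) (by simp)) (hone _ _ (by simp) (by simp) (by simp)) ?_
      intro u hu1 hu2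
      by_cases hu : u = none
      · rw [hu]; exact hself _
      · exact hzero2 _ _ hu hu1 hu2
    by_cases h2 : v = some x
    · subst h2
      refine cross_two x y _ (hrot.nodup _) (some x) none (some y) hnx hyx (by simp)
        (hone _ _ (by simp) (by simp) (by simp))
        (hone _ _ (by simp) (by simp) (by simpa using hxy')) ?_
      intro u hu1 hu2
      by_cases hu : u = some x
      · rw [hu]; exact hself _
      · exact hzero2 _ _ hu1 hu hu2
    by_cases h3 : v = some y
    · subst h3
      refine cross_two x y _ (hrot.nodup _) (some y) none (some x) hny hxy2 (by simp)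
        (hone _ _ (by simp) (by simp) (by simp))
        (hone _ _ (by simp) (by simp) (by simpa using hxy'.symm)) ?_
      intro u hu1 hu2
      by_cases hu : u = some y
      · rw [hu]; exact hself _
      · exact hzero2 _ _ hu1 hu2 hu
    · apply List.sum_eq_zero
      intro z hz
      rw [List.mem_map] at hz
      obtain ⟨u, _, rfl⟩ := hz
      exact hzero v h1 h2 h3 u)
  have hsa : ∀ c, (some a : Option V) ≠ none ∧ crossC x y (some a) c = 0 := fun c =>
    ⟨by simp, hzero _ (by simp) (by simpa using hxa.symm) (by simpa using hay) c⟩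
  have hsb : ∀ c, (some b : Option V) ≠ none ∧ crossC x y (some b) c = 0 := fun c =>
    ⟨by simp, hzero _ (by simp) (by simpa using hxb.symm) (by simpa using hyb.symm) c⟩
  have hcnt0 : ∀ v c : Option V, (∀ u, crossC x y v u = 0) → cnt rot (crossC x y) v c = 0 := by
    intro v c h
    unfold cnt
    apply List.sum_eq_zero
    intro z hz
    rw [List.mem_map] at hz
    obtain ⟨u, _, rfl⟩ := hz
    exact h u
  -- the prefix sums
  have hpre : ∀ (pre post : List V) (c : V), L = pre ++ c :: post →
      cnt rot (crossC x y) none (some c) = ((pre.map some).map (crossC x y none)).sum := by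
    intro pre post c h
    unfold cnt
    have hc : c ∉ pre := by
      have h5 := hnd
      rw [h, List.nodup_append] at h5
      intro hcp
      exact h5.2.2 c hcp c (by simp) rfl
    rw [hnone, h, List.map_append, List.map_cons]
    rw [List.takeWhile_append_of_pos, List.takeWhile_cons_of_neg, List.append_nil]
    · simp
    · intro u hu
      rw [List.mem_map] at hu
      obtain ⟨w, hw, rfl⟩ := hu
      simp only [ne_eq, Option.some.injEq, decide_eq_true_eq]
      intro hwc
      rw [hwc] at hw
      exact hc hw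
  have hca : cnt rot (crossC x y) none (some a) = 1 := by
    rw [hpre (r1 ++ a1) (a2 ++ (r3 ++ (b1 ++ b :: b2))) a (by simp [hLdef])]
    have hnd2 : ((r1 ++ a1).map (some : V → Option V)).Nodup := by
      have h5 := hnd
      have h6 : L = (r1 ++ a1) ++ a :: (a2 ++ (r3 ++ (b1 ++ b :: b2))) := by simp [hLdef]
      rw [h6, List.nodup_append] at h5
      exact List.Nodup.map (Option.some_injective _) h5.1
    have hy' : y ∉ r1 ++ a1 := by
      have h5 := hnd
      have h6 : L = (r1 ++ a1) ++ a :: (a2 ++ (r3 ++ (b1 ++ b :: b2))) := by simp [hLdef]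
      rw [h6, List.nodup_append] at h5
      intro hyy
      exact h5.2.2 y hyy y (by simp [hy]) rfl
    rw [← List.sum_toFinset _ hnd2]
    rw [Finset.sum_eq_single (some x)]
    · exact hone _ _ (by simp) (by simp) (by simp)
    · intro u hu hux
      rw [List.mem_toFinset, List.mem_map] at hu
      obtain ⟨w, hw, rfl⟩ := hu
      refine hzero2 _ _ (by simp) hux ?_
      intro hwy
      rw [Option.some.injEq] at hwy
      rw [hwy] at hw
      exact hy' hw
    · intro hx'
      exfalso
      apply hx'
      rw [List.mem_toFinset, List.mem_map]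
      exact ⟨x, by simp [hx], rfl⟩
  have hcb : cnt rot (crossC x y) none (some b) = 0 := by
    rw [hpre (r1 ++ (a1 ++ a :: a2 ++ (r3 ++ b1))) b2 b (by simp [hLdef])]
    have hnd2 : ((r1 ++ (a1 ++ a :: a2 ++ (r3 ++ b1))).map (some : V → Option V)).Nodup := by
      have h5 := hnd
      have h6 : L = (r1 ++ (a1 ++ a :: a2 ++ (r3 ++ b1))) ++ b :: b2 := by simp [hLdef]
      rw [h6, List.nodup_append] at h5
      exact List.Nodup.map (Option.some_injective _) h5.1
    refine cross_two x y _ hnd2 none (some x) (some y)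
      (List.mem_map_of_mem (by simp [hx])) (List.mem_map_of_mem (by simp [hy]))
      (by simpa using hxy')
      (hone _ _ (by simp) (by simp) (by simp)) (hone _ _ (by simp) (by simp) (by simp)) ?_
    intro u hu1 hu2
    by_cases hu : u = none
    · rw [hu]; exact hself _
    · exact hzero2 _ _ hu hu1 hu2
  have e1 := hs none (some a) han
  have e2 := hs none (some b) hbn
  have e3 := hs (some a) (some b) hba
  rw [hca, hcnt0 (some a) none (fun u => (hsa u).2), crossC_symm, (hsa none).2] at e1
  rw [hcb, hcnt0 (some b) none (fun u => (hsb u).2), crossC_symm, (hsb none).2] at e2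
  rw [hcnt0 (some a) _ (fun u => (hsa u).2), hcnt0 (some b) _ (fun u => (hsb u).2),
    (hsa _).2] at e3
  have key : ∀ p q r : ZMod 2, p + q = 1 + 0 + 0 → p + r = 0 + 0 + 0 → q + r = 0 + 0 + 0 → False := by
    decide
  exact key _ _ _ e1 e2 e3

end Pool.Agent.CRV
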