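import Pool.Agent.CRV.Targets

set_option autoImplicit false

/-!
# Corner rectangle visibility graphs: DECR
-/

namespace Pool.Agent.CRV

theorem cons_eq_append_cases {V : Type} (x : V) (B S T : List V) (h : x :: B = S ++ T) :
    (S = [] ∧ T = x :: B) ∨ ∃ S', S = x :: S' ∧ B = S' ++ T := by
  cases S with
  | nil => exact Or.inl ⟨rfl, h.symm⟩
  | cons a S =>
    rw [List.cons_append, List.cons.injEq] at h
    exact Or.inr ⟨S, by rw [h.1], h.2⟩

theorem append_five_cases {V : Type} (A B P M Q : List V) (x : V) (h : A ++ x :: B = P ++ M ++ Q) :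
    (P = A ++ [x] ∧ B = M ++ Q) ∨
    (∃ S f, P = A ++ x :: (S ++ [f]) ∧ B = (S ++ [f]) ++ M ++ Q) ∨
    (∃ C D, A = P ++ C ∧ M = C ++ x :: D ∧ B = D ++ Q) ∨
    (Q = x :: B ∧ A = P ++ M) ∨
    (∃ w C, A = P ++ M ++ w :: C ∧ Q = w :: C ++ x :: B) := by
  rw [List.append_assoc] at h
  rcases List.append_eq_append_iff.1 h with ⟨a, h1, h2⟩ | ⟨c, h1, h2⟩
  · rcases cons_eq_append_cases _ _ _ _ h2 with ⟨rfl, h3⟩ | ⟨S, rfl, h3⟩
    · rw [List.append_nil] at h1
      rcases cons_eq_append_cases _ _ _ _ h3.symm with ⟨rfl, h4⟩ | ⟨S, rfl, h4⟩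
      · exact Or.inr (Or.inr (Or.inr (Or.inl ⟨h4, by rw [h1]; simp⟩)))
      · exact Or.inr (Or.inr (Or.inl ⟨[], S, by rw [h1]; simp, by simp, h4⟩))
    · rcases List.eq_nil_or_concat S with rfl | ⟨S', f, rfl⟩
      · exact Or.inl ⟨h1, by simpa using h3⟩
      · exact Or.inr (Or.inl ⟨S', f, by rw [h1]; simp, by rw [h3]; simp⟩)
  · rcases List.append_eq_append_iff.1 h2 with ⟨a, h3, h4⟩ | ⟨a, h3, h4⟩
    · cases a with
      | nil =>
        exact Or.inr (Or.inr (Or.inr (Or.inl ⟨by simpa using h4, by rw [h1, h3]; simp⟩)))
      | cons w a =>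
        exact Or.inr (Or.inr (Or.inr (Or.inr ⟨w, a, by rw [h1, h3]; simp, h4⟩)))
    · rcases cons_eq_append_cases _ _ _ _ h4 with ⟨rfl, h5⟩ | ⟨S, rfl, h5⟩
      · exact Or.inr (Or.inr (Or.inr (Or.inl ⟨h5, by rw [h1, h3]; simp⟩)))
      · exact Or.inr (Or.inr (Or.inl ⟨c, S, h1, h3, h5⟩))

theorem tDECR : T_DECR := by
  intro V Γ R A us B P M Q x hb hpl Y hY
  obtain ⟨P1, M1, Q1, hL, hp⟩ := hY
  have hmono := hb.mono
  have hsplit := hpl.split
  have hpos := hpl.pos
  have hcov := hpl.cover
  rcases append_five_cases _ _ _ _ _ _ hL with ⟨h1, h2⟩ | ⟨S, f, h1, h2⟩ | ⟨C, D, h1, h2, h3⟩ |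
    ⟨h1, h2⟩ | ⟨w, C, h1, h2⟩
  · -- `x` is the floor
    have hx := hp.left x (by rw [h1]; simp)
    have hxr := hp.floor x (by rw [h1]; simp)
    rcases hpl.hP with hP | ⟨u, us', hus, hP⟩
    · have hr : ∀ u ∈ us, (R x).r < (R u).l := by
        intro u hu
        have e : us ++ B = M ++ Q := by
          rw [hP, List.append_assoc, List.append_assoc] at hsplit
          exact List.append_cancel_left hsplit
        have h3 : u ∈ M ++ Q := by rw [← e]; exact List.mem_append_left _ hu
        rcases List.mem_append.1 h3 with h3 | h3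
        · exact (hpos.mid u h3).1
        · exact (hpos.right u h3).1
      refine ⟨A, us ++ M1, Q1, by rw [h2]; simp, ?_, ?_, hp.right, ?_, hp.wall⟩
      · intro a ha
        exact hp.left a (by rw [h1]; exact List.mem_append_left _ ha)
      · intro m hm
        rcases List.mem_append.1 hm with hm | hm
        · exact ⟨hxr.trans (hr m hm), lt_of_le_of_lt (hcov m hm).2 hx.2⟩
        · exact hp.mid m hm
      · intro f hf
        rw [← hP] at hf
        exact hxr.trans (hpos.floor f hf)
    · have hr : ∀ u' ∈ us', (R x).r < (R u').l := by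
        intro u' hu
        have e : us' ++ B = M ++ Q := by
          have e1 : (A ++ [u]) ++ (us' ++ B) = (A ++ [u]) ++ (M ++ Q) := by
            rw [hus, hP] at hsplit
            simpa using hsplit
          exact List.append_cancel_left e1
        have h3 : u' ∈ M ++ Q := by rw [← e]; exact List.mem_append_left _ hu
        rcases List.mem_append.1 h3 with h3 | h3
        · exact (hpos.mid u' h3).1
        · exact (hpos.right u' h3).1
      have hu1 := hpos.left u (by rw [hP]; simp)
      have hu2 := hcov u (by rw [hus]; simp)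
      refine ⟨A ++ [u], us' ++ M1, Q1, by rw [hus, h2]; simp, ?_, ?_, hp.right, ?_, hp.wall⟩
      · intro a ha
        rcases List.mem_append.1 ha with ha | ha
        · exact hp.left a (by rw [h1]; exact List.mem_append_left _ ha)
        · rw [List.mem_singleton] at ha
          rw [ha]
          exact ⟨hu1.1.trans hx.1, lt_of_le_of_lt hu2.2 hx.2⟩
      · intro m hm
        rcases List.mem_append.1 hm with hm | hm
        · exact ⟨hxr.trans (hr m hm), lt_of_le_of_lt (hcov m (by rw [hus]; simp [hm])).2 hx.2⟩
        · exact hp.mid m hm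
      · intro f hf
        rw [← hP] at hf
        exact hxr.trans (hpos.floor f hf)
  · -- the floor is in `B`
    have hf := hp.left f (by rw [h1]; simp)
    have hus : ∀ u ∈ us, (R u).l < (R f).l ∧ (R u).t < (R f).t := by
      intro u hu
      rw [List.append_assoc, List.pairwise_append] at hmono
      have h3 := hmono.2.1
      rw [List.pairwise_append] at h3
      exact h3.2.2 u hu f (by rw [h2]; simp)
    refine ⟨A ++ us ++ (S ++ [f]), M1, Q1, by rw [h2]; simp, ?_, hp.mid, hp.right, ?_, hp.wall⟩
    · intro a ha
      rcases List.mem_append.1 ha with ha | ha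
      · rcases List.mem_append.1 ha with ha | ha
        · exact hp.left a (by rw [h1]; exact List.mem_append_left _ ha)
        · exact ⟨(hus a ha).1.le.trans hf.1, (hus a ha).2.trans hf.2⟩
      · exact hp.left a (by
          rw [h1]; exact List.mem_append_right _ (List.mem_cons_of_mem _ ha))
    · intro g hg
      have e : g = f := by
        have h3 : (A ++ us ++ (S ++ [f])).getLast? = some f := by simp
        rw [h3] at hg
        exact (Option.some.inj hg).symm
      rw [e]
      exact hp.floor f (by
        rw [h1, show A ++ x :: (S ++ [f]) = (A ++ x :: S) ++ [f] by simp]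
        exact List.getLast?_concat)
  · -- `x` is in the middle
    have hx := hp.mid x (by rw [h2]; simp)
    refine ⟨P1, C ++ us ++ D, Q1, by rw [h1, h3]; simp, hp.left, ?_, hp.right, hp.floor, hp.wall⟩
    intro m hm
    rcases List.mem_append.1 hm with hm | hm
    · rcases List.mem_append.1 hm with hm | hm
      · exact hp.mid m (by rw [h2]; exact List.mem_append_left _ hm)
      · exact ⟨lt_of_lt_of_le hx.1 (hcov m hm).1, lt_of_le_of_lt (hcov m hm).2 hx.2⟩
    · exact hp.mid m (by
        rw [h2]; exact List.mem_append_right _ (List.mem_cons_of_mem _ hm))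
  · -- `x` is the wall
    have hx := hp.right x (by rw [h1]; simp)
    have hxb := hp.wall x (by rw [h1]; rfl)
    rcases hpl.hQ with hQ | ⟨us', u, hus, hQ⟩
    · have hr : ∀ u ∈ us, (R u).t < (R x).b := by
        intro u hu
        have e : A ++ us = P ++ M := by
          rw [hQ] at hsplit
          exact List.append_cancel_right hsplit
        have h3 : u ∈ P ++ M := by rw [← e]; exact List.mem_append_right _ hu
        rcases List.mem_append.1 h3 with h3 | h3
        · exact (hpos.left u h3).2
        · exact (hpos.mid u h3).2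
      refine ⟨P1, M1 ++ us, B, by rw [h2]; simp, hp.left, ?_, ?_, hp.floor, ?_⟩
      · intro m hm
        rcases List.mem_append.1 hm with hm | hm
        · exact hp.mid m hm
        · exact ⟨lt_of_lt_of_le hx.1 (hcov m hm).1, (hr m hm).trans hxb⟩
      · intro q hq
        exact hp.right q (by rw [h1]; exact List.mem_cons_of_mem _ hq)
      · intro w hw
        rw [← hQ] at hw
        exact (hpos.wall w hw).trans hxb
    · have hr : ∀ u' ∈ us', (R u').t < (R x).b := by
        intro u' hu
        have e : A ++ us' = P ++ M := by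
          have e1 : (A ++ us') ++ (u :: B) = (P ++ M) ++ (u :: B) := by
            rw [hus, hQ] at hsplit
            simpa using hsplit
          exact List.append_cancel_right e1
        have h3 : u' ∈ P ++ M := by rw [← e]; exact List.mem_append_right _ hu
        rcases List.mem_append.1 h3 with h3 | h3
        · exact (hpos.left u' h3).2
        · exact (hpos.mid u' h3).2
      have hu1 := hpos.right u (by rw [hQ]; simp)
      have hu2 := hcov u (by rw [hus]; simp)
      refine ⟨P1, M1 ++ us', u :: B, by rw [hus, h2]; simp, hp.left, ?_, ?_, hp.floor, ?_⟩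
      · intro m hm
        rcases List.mem_append.1 hm with hm | hm
        · exact hp.mid m hm
        · exact ⟨lt_of_lt_of_le hx.1 (hcov m (by rw [hus]; simp [hm])).1, (hr m hm).trans hxb⟩
      · intro q hq
        rcases List.mem_cons.1 hq with hq | hq
        · rw [hq]
          exact ⟨lt_of_lt_of_le hx.1 hu2.1, hx.2.trans hu1.2⟩
        · exact hp.right q (by rw [h1]; exact List.mem_cons_of_mem _ hq)
      · intro w hw
        rw [← hQ] at hw
        exact (hpos.wall w hw).trans hxb
  · -- the wall is in `A`
    have hx := hp.right x (by rw [h2]; simp)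
    have hw := hp.right w (by rw [h2]; simp)
    have hus : ∀ u ∈ us, (R w).t < (R u).t := by
      intro u hu
      rw [List.pairwise_append] at hmono
      have h3 := hmono.1
      rw [List.pairwise_append] at h3
      exact (h3.2.2 w (by rw [h1]; simp) u hu).2
    refine ⟨P1, M1, w :: C ++ us ++ B, by rw [h1]; simp, hp.left, hp.mid, ?_, hp.floor, ?_⟩
    · intro q hq
      rcases List.mem_append.1 hq with hq | hq
      · rcases List.mem_append.1 hq with hq | hq
        · exact hp.right q (by rw [h2]; exact List.mem_append_left _ hq)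
        · exact ⟨lt_of_lt_of_le hx.1 (hcov q hq).1, hw.2.trans (hus q hq).le⟩
      · exact hp.right q (by
          rw [h2]; exact List.mem_append_right _ (List.mem_cons_of_mem _ hq))
    · intro w' hw'
      have e : w' = w := by
        have h3 : (w :: C ++ us ++ B).head? = some w := by simp
        rw [h3] at hw'
        exact (Option.some.inj hw').symm
      rw [e]
      exact hp.wall w (by rw [h2]; simp)

end Pool.Agent.CRV
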