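import Mathlib

set_option autoImplicit false

/-!
# Corner rectangle visibility graphs: all definitions used in the main statement
-/

namespace Pool.Agent.CRV

/-- A closed axis-parallel rectangle of positive width and height: `l`, `r` are the `x`-coordinates
of its left and right side, `b`, `t` the `y`-coordinates of its bottom and top side. -/
structure Rect where
  l : ℝ
  r : ℝ
  b : ℝ
  t : ℝ
  width : l < r
  height : b < t

/-- The points of the rectangle. -/
def Rect.pts (A : Rect) : Set (ℝ × ℝ) := Set.Icc A.l A.r ×ˢ Set.Icc A.b A.t

/-- The names of the four corners. -/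
inductive Corner
  | north | west | south | east

/-- The four corners: north = upper-left, west = lower-left, south = lower-right, east =
upper-right. -/
def Rect.corner (A : Rect) : Corner → ℝ × ℝ
  | .north => (A.l, A.t)
  | .west => (A.l, A.b)
  | .south => (A.r, A.b)
  | .east => (A.r, A.t)

/-- A corner rectangle: a rectangle with one of its corners designated as its eye. -/
structure CornerRect extends Rect where
  eyeAt : Corner

/-- The eye. -/
def CornerRect.eye (A : CornerRect) : ℝ × ℝ := A.toRect.corner A.eyeAt

/-- In the family `R`, the rectangle `R A` sees the rectangle `R B`: there is a rectangle `Q` with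
the eye of `R A` as one of its corners, such that `Q ∩ R A` is the eye, `Q ∩ R B` is nonempty and
contained in the boundary of `R B`, and `Q` is disjoint from all other rectangles of the family. -/
def Sees {V : Type} (R : V → CornerRect) (A B : V) : Prop :=
  ∃ Q : Rect, (∃ c, Q.corner c = (R A).eye) ∧
    Q.pts ∩ (R A).pts = {(R A).eye} ∧
    (Q.pts ∩ (R B).pts).Nonempty ∧ Q.pts ∩ (R B).pts ⊆ frontier (R B).pts ∧
    ∀ C, C ≠ A → C ≠ B → Q.pts ∩ (R C).pts = ∅

/-- `G` is a corner rectangle visibility graph: it is the graph of a family of pairwise disjoint
corner rectangles. -/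
def IsCRVG {V : Type} (G : SimpleGraph V) : Prop :=
  ∃ R : V → CornerRect, (∀ A B, A ≠ B → Disjoint (R A).pts (R B).pts) ∧
    ∀ A B, A ≠ B → (G.Adj A B ↔ Sees R A B ∨ Sees R B A)

/-- A crossing-free straight-line drawing of `G` in the plane: different vertices are at different
points, no vertex lies on an edge of which it is not an end, and two different edges meet in common
end vertices only. -/
structure IsDrawing {V : Type} (G : SimpleGraph V) (p : V → ℝ × ℝ) : Prop where
  inj : Function.Injective p
  vertex : ∀ a b c, G.Adj a b → c ≠ a → c ≠ b → p c ∉ segment ℝ (p a) (p b)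
  edge : ∀ a b c d, G.Adj a b → G.Adj c d → s(a, b) ≠ s(c, d) →
    ∀ x ∈ segment ℝ (p a) (p b), x ∈ segment ℝ (p c) (p d) →
      ∃ v, (v = a ∨ v = b) ∧ (v = c ∨ v = d) ∧ x = p v

/-- Planar graphs.  (By Fáry's theorem a finite simple graph that can be drawn in the plane without
crossings has such a drawing with straight edges.) -/
def IsPlanar {V : Type} (G : SimpleGraph V) : Prop := ∃ p : V → ℝ × ℝ, IsDrawing G p

end Pool.Agent.CRV
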