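import Pool.Agent.CRV.Targets

set_option autoImplicit false

/-!
# CRV-EW: east, west and north rectangles
-/

namespace Pool.Agent.CRV

/-- the members of the contour are in `Γ` and the shadow of a member of the contour -/
theorem ew_cases {V : Type} {Γ : Set V} {R : V → CornerRect} {P M Q : List V} {X : CornerRect}
    (hb : Base Γ (P ++ M ++ Q) R) (hp : Pos R P M Q X) {c : V} (hc : c ∈ Γ) :
    ∃ a, ((a ∈ P ∧ (R a).l ≤ X.l ∧ (R a).t < X.b) ∨ (a ∈ M ∧ X.r < (R a).l ∧ (R a).t < X.b) ∨
      (a ∈ Q ∧ X.r < (R a).l ∧ X.t ≤ (R a).t)) ∧ (R a).l ≤ (R c).l ∧ (R c).t ≤ (R a).t := by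
  obtain ⟨a, ha, h⟩ := hb.shadow c hc
  refine ⟨a, ?_, h⟩
  simp only [List.mem_append] at ha
  rcases ha with (ha | ha) | ha
  · exact Or.inl ⟨ha, hp.left a ha⟩
  · exact Or.inr (Or.inl ⟨ha, hp.mid a ha⟩)
  · exact Or.inr (Or.inr ⟨ha, hp.right a ha⟩)

theorem tEAST : T_EAST := by
  intro V Γ R P M Q w X hb hp he c hc
  have hX1 := X.width
  have hX2 := X.height
  have hwΓ : w ∈ Γ := hb.sub w (by simp)
  have h1 := hp.right w (by simp)
  have h2 := hp.wall w (by simp)
  have hw1 := (R w).width
  have hw2 := (R w).height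
  have hm := hb.mono
  rw [List.pairwise_append] at hm
  have hq := (List.pairwise_cons.1 hm.2.1).1
  have key : ∀ d ∈ Γ, X.t ≤ (R d).t → (R w).l ≤ (R d).l := by
    intro d hd ht
    obtain ⟨a, ha, h3, h4⟩ := ew_cases hb hp hd
    rcases ha with ⟨_, h5⟩ | ⟨_, h5⟩ | ⟨ha, h5⟩
    · linarith [h5.2]
    · linarith [h5.2]
    · rcases List.mem_cons.1 ha with rfl | ha
      · exact h3
      · linarith [(hq a ha).1]
  constructor
  · rintro ⟨hq1, hq2⟩
    by_contra hcw
    refine hq2 w hwΓ (fun h => hcw h.symm) ?_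
    unfold InQuad at hq1
    unfold Dom InQuad
    rw [he] at hq1 ⊢
    simp only at hq1 ⊢
    have h3 := key c hc hq1.2
    refine ⟨⟨by linarith, h1.2⟩, max_le_max_right _ h3, ?_⟩
    rw [max_eq_right (by linarith : (R w).b ≤ X.t)]
    exact le_max_right _ _
  · rintro rfl
    refine ⟨?_, ?_⟩
    · unfold InQuad
      rw [he]
      simp only
      exact ⟨by linarith, h1.2⟩
    · intro d hd hdc hdom
      unfold Dom InQuad at hdom
      rw [he] at hdom
      simp only at hdom
      obtain ⟨⟨h3, h4⟩, h5, h6⟩ := hdom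
      have h7 := key d hd h4
      have h8 := (R d).width
      have h9 := (R d).height
      rw [max_eq_left (by linarith : X.r ≤ (R c).l)] at h5
      rw [max_eq_right (by linarith : (R c).b ≤ X.t)] at h6
      have h10 := (le_max_left _ _).trans h5
      have h11 := (le_max_left _ _).trans h6
      have := hb.apart d hd c hc hdc
      unfold Apart at this
      rcases this with h | h | h | h <;> linarith

theorem tWEST : T_WEST := by
  intro V Γ R P M Q f X hb hp he c hc
  have hX1 := X.width
  have hX2 := X.height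
  have hfΓ : f ∈ Γ := hb.sub f (by simp)
  have h1 := hp.left f (by simp)
  have h2 := hp.floor f (by simp)
  have hf1 := (R f).width
  have hf2 := (R f).height
  have hm := hb.mono
  rw [List.append_assoc, List.append_assoc, List.pairwise_append] at hm
  have hq : ∀ a ∈ P, (R a).t < (R f).t := fun a ha => (hm.2.2 a ha f (by simp)).2
  have key : ∀ d ∈ Γ, (R d).l ≤ X.l → (R d).t ≤ (R f).t := by
    intro d hd ht
    obtain ⟨a, ha, h3, h4⟩ := ew_cases hb hp hd
    rcases ha with ⟨ha, h5⟩ | ⟨_, h5⟩ | ⟨_, h5⟩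
    · rw [List.mem_append, List.mem_singleton] at ha
      rcases ha with ha | rfl
      · linarith [hq a ha]
      · exact h4
    · linarith [h5.1]
    · linarith [h5.1]
  constructor
  · rintro ⟨hq1, hq2⟩
    by_contra hcw
    refine hq2 f hfΓ (fun h => hcw h.symm) ?_
    unfold InQuad at hq1
    unfold Dom InQuad
    rw [he] at hq1 ⊢
    simp only at hq1 ⊢
    have h3 := key c hc hq1.1
    refine ⟨⟨h1.1, by linarith⟩, ?_, min_le_min_right _ h3⟩
    rw [min_eq_right (by linarith : X.l ≤ (R f).r)]
    exact min_le_right _ _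
  · rintro rfl
    refine ⟨?_, ?_⟩
    · unfold InQuad
      rw [he]
      simp only
      exact ⟨h1.1, by linarith⟩
    · intro d hd hdc hdom
      unfold Dom InQuad at hdom
      rw [he] at hdom
      simp only at hdom
      obtain ⟨⟨h3, h4⟩, h5, h6⟩ := hdom
      have h7 := key d hd h3
      have h8 := (R d).width
      have h9 := (R d).height
      rw [min_eq_right (by linarith : X.l ≤ (R c).r)] at h5
      rw [min_eq_left (by linarith : (R c).t ≤ X.b)] at h6
      have h10 := h5.trans (min_le_left _ _)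
      have h11 := h6.trans (min_le_left _ _)
      have := hb.apart d hd c hc hdc
      unfold Apart at this
      rcases this with h | h | h | h <;> linarith

theorem tNORTH : T_NORTH := by
  intro V Γ R P M Q X hb hp
  have hX1 := X.width
  have hX2 := X.height
  constructor
  · intro c hc
    obtain ⟨a, ha, h3, h4⟩ := ew_cases hb hp hc
    unfold Apart
    rcases ha with ⟨_, h5⟩ | ⟨_, h5⟩ | ⟨_, h5⟩
    · right; right; right
      linarith [h5.2]
    · left
      linarith [h5.1]
    · left
      linarith [h5.1]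
  · intro he c hc hq
    obtain ⟨a, ha, h3, h4⟩ := ew_cases hb hp hc
    unfold InQuad at hq
    rw [he] at hq
    simp only at hq
    rcases ha with ⟨_, h5⟩ | ⟨_, h5⟩ | ⟨_, h5⟩
    · linarith [h5.2, hq.2]
    · linarith [h5.1, hq.1]
    · linarith [h5.1, hq.1]

end Pool.Agent.CRV
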