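import Pool.Agent.CRV.Targets

set_option autoImplicit false

/-!
# GOOD: a list without crossing pairs has an element adjacent to its neighbours in the list only
-/

namespace Pool.Agent.CRV

theorem tGOOD : T_GOOD := by
  classical
  intro V E L hne hnd hsym hirr hcr
  by_cases h : ∃ n : ℕ, ∃ (A : List V) (x : V) (M : List V) (y : V) (B : List V),
      L = A ++ x :: (M ++ y :: B) ∧ E x y ∧ M ≠ [] ∧ M.length = n
  · obtain ⟨A, x, M, y, B, hL, hxy, hM, hn⟩ := Nat.find_spec h
    have hmin : ∀ (A' : List V) (x' : V) (M' : List V) (y' : V) (B' : List V),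
        L = A' ++ x' :: (M' ++ y' :: B') → E x' y' → M'.length < M.length → M' = [] := by
      intro A' x' M' y' B' hL' hE hlt
      by_contra hne'
      exact Nat.find_min h (m := M'.length) (by rw [← hn]; exact hlt)
        ⟨A', x', M', y', B', hL', hE, hne', rfl⟩
    obtain ⟨m, M', rfl⟩ := List.exists_cons_of_ne_nil hM
    refine ⟨A ++ [x], m, M' ++ y :: B, by rw [hL]; simp, ?_⟩
    intro z hz hmz
    rw [hL] at hz
    simp only [List.mem_append, List.mem_cons] at hz
    rcases hz with hz | rfl | (rfl | hz) | rfl | hz
    · exfalso
      refine hcr z x m y ?_ (hsym _ _ hmz) hxy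
      rw [hL]
      have h1 : [z].Sublist A := List.singleton_sublist.mpr hz
      have h2 : [x, m, y].Sublist (x :: (m :: M' ++ y :: B)) := by
        refine List.Sublist.cons_cons _ ?_
        rw [List.cons_append]
        refine List.Sublist.cons_cons _ ?_
        have h3 : [y].Sublist (M' ++ y :: B) := List.singleton_sublist.mpr (by simp)
        exact h3
      exact h1.append h2
    · left; simp
    · exact absurd hmz (hirr _)
    · obtain ⟨M1, M2, rfl⟩ := List.append_of_mem hz
      right
      have : M1 = [] := by
        refine hmin (A ++ [x]) m M1 z (M2 ++ y :: B) ?_ hmz ?_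
        · rw [hL]; simp
        · simp only [List.length_cons, List.length_append]; omega
      subst this
      simp
    · right
      have : M' = [] := by
        refine hmin (A ++ [x]) m M' z B ?_ hmz ?_
        · rw [hL]; simp
        · simp
      subst this
      simp
    · exfalso
      refine hcr x m y z ?_ hxy hmz
      rw [hL]
      have h2 : [x, m, y, z].Sublist (x :: (m :: M' ++ y :: B)) := by
        refine List.Sublist.cons_cons _ ?_
        rw [List.cons_append]
        refine List.Sublist.cons_cons _ ?_
        have h3 : [y, z].Sublist (y :: B) := List.Sublist.cons_cons _ (List.singleton_sublist.mpr hz)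
        exact h3.trans (List.sublist_append_right _ _)
      exact h2.trans (List.sublist_append_right _ _)
  · obtain ⟨x, B, rfl⟩ := List.exists_cons_of_ne_nil hne
    refine ⟨[], x, B, rfl, ?_⟩
    intro y hy hxy
    right
    rw [List.mem_cons] at hy
    rcases hy with rfl | hy
    · exact absurd hxy (hirr _)
    · obtain ⟨M, B', rfl⟩ := List.append_of_mem hy
      by_cases hM : M = []
      · subst hM; simp
      · exact absurd ⟨M.length, [], x, M, y, B', rfl, hxy, hM, rfl⟩ h

end Pool.Agent.CRV
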