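import Pool.Agent.CRV.Targets

set_option autoImplicit false

/-!
# ORDER and UNION: contour sequences from plane lists
-/

namespace Pool.Agent.CRV

/-- ORDER -/
theorem tORDER (h1 : T_CROSS) (h2 : T_GOOD) (h3 : T_CONTR) : T_ORDER := by
  intro V _ G
  suffices H : ∀ n : ℕ, ∀ (Γ : Finset V) (L : List V), Γ.card = n → PlaneList G Γ L →
      Contour G (↑Γ) L from fun Γ L hL => H Γ.card Γ L rfl hL
  intro n
  induction n using Nat.strong_induction_on with
  | _ n ih =>
    intro Γ L hn hL
    rcases List.eq_nil_or_concat L with hnil | hne
    · subst hnil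
      have : Γ = ∅ := by
        apply Finset.eq_empty_of_forall_notMem
        intro v hv
        obtain ⟨a, ha, -⟩ := hL.conn v hv
        simp at ha
      subst this
      rw [Finset.coe_empty]
      exact Contour.nil
    · have hne' : L ≠ [] := by
        obtain ⟨K, b, rfl⟩ := hne
        simp
      obtain ⟨hnd, hcr⟩ := h1 V G Γ L hL
      obtain ⟨A, x, B, hLe, hgood⟩ := h2 V (fun u v => G.Adj u v) L hne' hnd
        (fun a b hab => hab.symm) (fun a => G.loopless.irrefl a) hcr
      rw [hLe] at hL
      obtain ⟨us, hus, hpl⟩ := h3 V G Γ A B x hL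
      have hxΓ : x ∈ Γ := hL.sub x (by simp)
      have hc := ih (Γ.erase x).card (by rw [← hn]; exact Finset.card_erase_lt_of_mem hxΓ)
        (Γ.erase x) (A ++ us ++ B) rfl hpl
      have hstep := Contour.step (↑(Γ.erase x)) A us B x hc (by simp)
        (fun u hu => ((hus u).1 hu).2.1) (by
          intro v hv hadj
          by_cases hvus : v ∈ us
          · exact Or.inl hvus
          · right
            have hvΓ : v ∈ Γ := by
              have : v ∈ Γ.erase x := by exact_mod_cast hv
              exact Finset.mem_of_mem_erase this
            have hvL : v ∈ A ++ x :: B := by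
              by_contra hvL
              exact hvus ((hus v).2 ⟨hvΓ, hadj, hvL⟩)
            exact hgood v (by rw [hLe]; exact hvL) hadj)
      rw [hLe]
      have : insert x (↑(Γ.erase x) : Set V) = ↑Γ := by
        rw [← Finset.coe_insert, Finset.insert_erase hxΓ]
      rw [this] at hstep
      exact hstep

/-- UNION -/
theorem tUNION : T_UNION := by
  intro V G Γ Δ K L hK hL
  induction hL with
  | nil =>
    intro _ _
    simpa using hK
  | step Δ' A us B x hc hx hus hnb ih =>
    intro hdisj hadj
    have hc' := ih (fun v hv hv' => hdisj v hv (Set.mem_insert_of_mem _ hv'))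
      (fun u hu v hv => hadj u hu v (Set.mem_insert_of_mem _ hv))
    have e1 : K ++ (A ++ us ++ B) = (K ++ A) ++ us ++ B := by simp
    rw [e1] at hc'
    have hstep := Contour.step (Γ ∪ Δ') (K ++ A) us B x hc' (by
        rintro (h | h)
        · exact hdisj x h (Set.mem_insert _ _)
        · exact hx h) hus (by
        rintro v (hv | hv) hxv
        · exact absurd hxv.symm (hadj v hv x (Set.mem_insert _ _))
        · rcases hnb v hv hxv with h | h | h
          · exact Or.inl h
          · right; left
            rw [List.getLast?_append, h]
            rfl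
          · exact Or.inr (Or.inr h))
    have e2 : insert x (Γ ∪ Δ') = Γ ∪ insert x Δ' := by
      rw [Set.union_insert]
    have e3 : (K ++ A) ++ x :: B = K ++ (A ++ x :: B) := by simp
    rw [e2, e3] at hstep
    exact hstep

end Pool.Agent.CRV
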