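import Pool.Agent.CRV.Targets

set_option autoImplicit false

/-!
# CRV-PARITY: the parity of the number of edges of an even set above an edge
-/

namespace Pool.Agent.CRV

theorem mem_segment_slope (a b : ℝ × ℝ) (hab : a.1 < b.1) (x : ℝ) (h1 : a.1 ≤ x) (h2 : x ≤ b.1) :
    ((x, a.2 + slope a b * (x - a.1)) : ℝ × ℝ) ∈ segment ℝ a b := by
  rw [segment_eq_image']
  have hpos : 0 < b.1 - a.1 := sub_pos.mpr hab
  refine ⟨(x - a.1) / (b.1 - a.1), ⟨div_nonneg (by linarith) hpos.le,
    (div_le_one hpos).mpr (by linarith)⟩, ?_⟩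
  ext
  · simp only [Prod.fst_add, Prod.smul_fst, Prod.fst_sub, smul_eq_mul]
    field_simp
    ring
  · simp only [Prod.snd_add, Prod.smul_snd, Prod.snd_sub, smul_eq_mul, slope]
    field_simp

/-- two affine functions whose difference has no zero in the interior of `[m, M]` -/
theorem sign_lemma (α β m M : ℝ) (hm : m < M)
    (h : ∀ x, m < x → x < M → α + β * x ≠ 0) :
    0 ≤ (α + β * m) * (α + β * M) ∧ ¬ (α + β * m = 0 ∧ α + β * M = 0) := by
  constructor
  · by_contra hneg
    push Not at hneg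
    have hne : α + β * m - (α + β * M) ≠ 0 := by
      intro h0
      have : (α + β * m) * (α + β * M) = (α + β * M) ^ 2 := by
        have : α + β * m = α + β * M := by linarith
        rw [this]; ring
      rw [this] at hneg
      exact absurd (sq_nonneg (α + β * M)) (by linarith)
    set P := α + β * m with hP
    set Q := α + β * M with hQ
    have hβ : β * (M - m) = Q - P := by rw [hP, hQ]; ring
    have key : ∀ t : ℝ, α + β * (m + t * (M - m)) = P + t * (Q - P) := by
      intro t
      rw [← hβ, hP]; ring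
    have hMm : 0 < M - m := by linarith
    have hz : α + β * (m + P / (P - Q) * (M - m)) = 0 := by
      rw [key]
      field_simp
      ring
    have ht : 0 < P / (P - Q) ∧ P / (P - Q) < 1 := by
      rcases mul_neg_iff.mp hneg with ⟨h1, h2⟩ | ⟨h1, h2⟩
      · have h3 : 0 < P - Q := by linarith
        exact ⟨div_pos h1 h3, (div_lt_one h3).mpr (by linarith)⟩
      · have h3 : P - Q < 0 := by linarith
        exact ⟨div_pos_of_neg_of_neg h1 h3, (div_lt_one_of_neg h3).mpr (by linarith)⟩
    refine h (m + P / (P - Q) * (M - m)) ?_ ?_ hz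
    · have := mul_pos ht.1 hMm
      linarith
    · have := mul_lt_mul_of_pos_right ht.2 hMm
      linarith
  · rintro ⟨h1, h2⟩
    have hβ : β = 0 := by
      have : β * (M - m) = 0 := by linear_combination h2 - h1
      rcases mul_eq_zero.mp this with h | h
      · exact h
      · linarith
    refine h ((m + M) / 2) (by linarith) (by linarith) ?_
    rw [hβ] at h1 ⊢
    linarith

theorem slope_comm (a b : ℝ × ℝ) : slope a b = slope b a := by
  unfold slope
  rw [← neg_sub b.2 a.2, ← neg_sub b.1 a.1, neg_div_neg_eq]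

/-- the sign `T` of an edge `ab` relative to the edge `uv` -/
theorem exists_sign {V : Type} (G : SimpleGraph V) (p : V → ℝ × ℝ) (hp : IsDrawing G p)
    (a b u v : V) (hab : G.Adj a b) (huv : G.Adj u v) (h1 : (p a).1 < (p b).1)
    (h2 : (p u).1 < (p v).1) (h3 : (p u).1 < (p b).1) (h4 : (p a).1 < (p v).1)
    (hne : ¬ (a = u ∧ b = v)) :
    ∃ T : Prop,
      ((p a).1 < (p u).1 → (Below (p a) (p b) (p u) ↔ T)) ∧
      (a = u → (slope (p u) (p v) < slope (p u) (p b) ↔ T)) ∧
      ((p v).1 < (p b).1 → (Below (p a) (p b) (p v) ↔ T)) ∧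
      (b = v → (slope (p v) (p a) < slope (p v) (p u) ↔ T)) ∧
      ((p u).1 < (p a).1 →
        ((p u).2 + slope (p u) (p v) * ((p a).1 - (p u).1) < (p a).2 ↔ T)) ∧
      ((p b).1 < (p v).1 →
        ((p u).2 + slope (p u) (p v) * ((p b).1 - (p u).1) < (p b).2 ↔ T)) := by
  set m := max (p u).1 (p a).1 with hm
  set M := min (p v).1 (p b).1 with hM
  have hmM : m < M := by
    rw [hm, hM]
    exact max_lt (lt_min h2 h3) (lt_min h4 h1)
  set α := ((p a).2 - slope (p a) (p b) * (p a).1) - ((p u).2 - slope (p u) (p v) * (p u).1)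
    with hα
  set β := slope (p a) (p b) - slope (p u) (p v) with hβ
  have hD : ∀ x, α + β * x = ((p a).2 + slope (p a) (p b) * (x - (p a).1)) -
      ((p u).2 + slope (p u) (p v) * (x - (p u).1)) := by
    intro x
    rw [hα, hβ]; ring
  have hs : s(a, b) ≠ s(u, v) := by
    intro h
    rcases Sym2.eq_iff.mp h with ⟨rfl, rfl⟩ | ⟨rfl, rfl⟩
    · exact hne ⟨rfl, rfl⟩
    · linarith
  have hzero : ∀ x, m ≤ x → x ≤ M → α + β * x = 0 →
      (x = (p a).1 ∧ a = u) ∨ (x = (p b).1 ∧ b = v) := by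
    intro x hx1 hx2 hx
    have hxu : (p u).1 ≤ x := le_trans (le_max_left _ _) hx1
    have hxa : (p a).1 ≤ x := le_trans (le_max_right _ _) hx1
    have hxv : x ≤ (p v).1 := le_trans hx2 (min_le_left _ _)
    have hxb : x ≤ (p b).1 := le_trans hx2 (min_le_right _ _)
    have e1 := mem_segment_slope (p a) (p b) h1 x hxa hxb
    have e2 := mem_segment_slope (p u) (p v) h2 x hxu hxv
    have heq : (p a).2 + slope (p a) (p b) * (x - (p a).1) =
        (p u).2 + slope (p u) (p v) * (x - (p u).1) := by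
      have := hD x
      linarith
    rw [heq] at e1
    obtain ⟨w, hw1, hw2, hw3⟩ := hp.edge a b u v hab huv hs _ e1 e2
    have hx3 : x = (p w).1 := by
      have := congrArg Prod.fst hw3
      simpa using this
    rcases hw1 with rfl | rfl <;> rcases hw2 with rfl | rfl
    · exact Or.inl ⟨hx3, rfl⟩
    · linarith
    · linarith
    · exact Or.inr ⟨hx3, rfl⟩
  have hint : ∀ x, m < x → x < M → α + β * x ≠ 0 := by
    intro x hx1 hx2 hx
    rcases hzero x hx1.le hx2.le hx with ⟨h, -⟩ | ⟨h, -⟩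
    · have : (p a).1 ≤ m := le_max_right _ _
      linarith
    · have : M ≤ (p b).1 := min_le_right _ _
      linarith
  obtain ⟨hsgn, hnz⟩ := sign_lemma α β m M hmM hint
  have hmz : α + β * m = 0 → a = u := by
    intro h
    rcases hzero m le_rfl hmM.le h with ⟨-, h⟩ | ⟨h, -⟩
    · exact h
    · have : M ≤ (p b).1 := min_le_right _ _
      linarith
  have hMz : α + β * M = 0 → b = v := by
    intro h
    rcases hzero M hmM.le le_rfl h with ⟨h, -⟩ | ⟨-, h⟩
    · have : (p a).1 ≤ m := le_max_right _ _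
      linarith
    · exact h
  -- the sign at the left end
  have hleft : a ≠ u → (0 < α + β * m ↔ 0 < (α + β * m) + (α + β * M)) := by
    intro hau
    have hne0 : α + β * m ≠ 0 := fun h => hau (hmz h)
    constructor
    · intro h
      have : 0 ≤ α + β * M := nonneg_of_mul_nonneg_right hsgn h
      linarith
    · intro h
      by_contra hcon
      have hlt : α + β * m < 0 := lt_of_le_of_ne (not_lt.mp hcon) hne0
      have : α + β * M ≤ 0 := by
        by_contra h5
        push Not at h5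
        have := mul_neg_of_neg_of_pos hlt h5
        linarith
      linarith
  have hright : b ≠ v → (0 < α + β * M ↔ 0 < (α + β * m) + (α + β * M)) := by
    intro hbv
    have hne0 : α + β * M ≠ 0 := fun h => hbv (hMz h)
    constructor
    · intro h
      have : 0 ≤ α + β * m := nonneg_of_mul_nonneg_left hsgn h
      linarith
    · intro h
      by_contra hcon
      have hlt : α + β * M < 0 := lt_of_le_of_ne (not_lt.mp hcon) hne0
      have : α + β * m ≤ 0 := by
        by_contra h5
        push Not at h5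
        have := mul_neg_of_pos_of_neg h5 hlt
        linarith
      linarith
  refine ⟨0 < (α + β * m) + (α + β * M), ?_, ?_, ?_, ?_, ?_, ?_⟩
  · intro h
    have hmu : m = (p u).1 := max_eq_left h.le
    have hau : a ≠ u := by rintro rfl; exact lt_irrefl _ h
    rw [← hleft hau, hmu, hD]
    unfold Below
    constructor <;> intro h' <;> nlinarith
  · intro h
    subst h
    have hma : m = (p a).1 := max_self _
    have hz : α + β * m = 0 := by rw [hD, hma]; ring
    have hM' : α + β * M = (slope (p a) (p b) - slope (p a) (p v)) * (M - (p a).1) := by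
      rw [hD]; ring
    have hpos : 0 < M - (p a).1 := by rw [← hma]; linarith
    rw [hz, zero_add, hM', mul_pos_iff_of_pos_right hpos, sub_pos]
  · intro h
    have hMv : M = (p v).1 := min_eq_left h.le
    have hbv : b ≠ v := by rintro rfl; exact lt_irrefl _ h
    rw [← hright hbv, hMv, hD]
    have hv : (p u).2 + slope (p u) (p v) * ((p v).1 - (p u).1) = (p v).2 := by
      unfold slope
      have : (p v).1 - (p u).1 ≠ 0 := by linarith
      field_simp
      ring
    rw [hv]
    unfold Below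
    constructor <;> intro h' <;> linarith
  · intro h
    subst h
    have hMb : M = (p b).1 := min_self _
    have hz : α + β * M = 0 := by
      rw [hD, hMb]
      have hv : ∀ q : V, (p q).1 < (p b).1 →
          (p q).2 + slope (p q) (p b) * ((p b).1 - (p q).1) = (p b).2 := by
        intro q hq
        unfold slope
        have : (p b).1 - (p q).1 ≠ 0 := by linarith
        field_simp
        ring
      rw [hv a h1, hv u h2]; ring
    have hm' : α + β * m = (slope (p a) (p b) - slope (p u) (p b)) * (m - (p b).1) := by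
      have : α = - (β * (p b).1) := by rw [hMb] at hz; linarith
      rw [this, hβ]; ring
    have hneg : m - (p b).1 < 0 := by rw [← hMb]; linarith
    rw [hz, add_zero, hm', slope_comm (p b) (p a), slope_comm (p b) (p u)]
    constructor
    · intro h'
      exact mul_pos_of_neg_of_neg (by linarith) hneg
    · intro h'
      by_contra hcon
      push Not at hcon
      have := mul_nonpos_of_nonneg_of_nonpos (sub_nonneg.mpr hcon) hneg.le
      linarith
  · intro h
    have hma : m = (p a).1 := max_eq_right h.le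
    have hau : a ≠ u := by rintro rfl; exact lt_irrefl _ h
    rw [← hleft hau, hma, hD]
    constructor <;> intro h' <;> nlinarith
  · intro h
    have hMb : M = (p b).1 := min_eq_right h.le
    have hbv : b ≠ v := by rintro rfl; exact lt_irrefl _ h
    rw [← hright hbv, hMb, hD]
    have hv : (p a).2 + slope (p a) (p b) * ((p b).1 - (p a).1) = (p b).2 := by
      unfold slope
      have : (p b).1 - (p a).1 ≠ 0 := by linarith
      field_simp
      ring
    rw [hv]
    constructor <;> intro h' <;> linarith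

open scoped Classical in
/-- the sum of the four indicators of an edge is even -/
theorem indicators {V : Type} (G : SimpleGraph V) (p : V → ℝ × ℝ) (hp : IsDrawing G p)
    (hinj : ∀ a b, (p a).1 = (p b).1 → a = b)
    (a b u v : V) (hab : G.Adj a b) (huv : G.Adj u v) (h1 : (p a).1 < (p b).1)
    (h2 : (p u).1 < (p v).1) (c : ZMod 2) :
    ((if ((p a).1 < (p u).1 ∧ (p u).1 < (p b).1 ∧ Below (p a) (p b) (p u)) ∨
        (a = u ∧ slope (p u) (p v) < slope (p u) (p b)) then c else 0) +
     (if ((p a).1 < (p v).1 ∧ (p v).1 < (p b).1 ∧ Below (p a) (p b) (p v)) ∨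
        (b = v ∧ slope (p v) (p a) < slope (p v) (p u)) then c else 0)) +
    ((if (p u).1 < (p a).1 ∧ (p a).1 < (p v).1 ∧
        (p u).2 + slope (p u) (p v) * ((p a).1 - (p u).1) < (p a).2 then c else 0) +
     (if (p u).1 < (p b).1 ∧ (p b).1 < (p v).1 ∧
        (p u).2 + slope (p u) (p v) * ((p b).1 - (p u).1) < (p b).2 then c else 0)) = 0 := by
  by_cases h3 : (p u).1 < (p b).1
  swap
  · have e1 : ¬ (((p a).1 < (p u).1 ∧ (p u).1 < (p b).1 ∧ Below (p a) (p b) (p u)) ∨
        (a = u ∧ slope (p u) (p v) < slope (p u) (p b))) := by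
      rintro (⟨-, h, -⟩ | ⟨rfl, -⟩)
      · exact h3 h
      · exact h3 h1
    have e2 : ¬ (((p a).1 < (p v).1 ∧ (p v).1 < (p b).1 ∧ Below (p a) (p b) (p v)) ∨
        (b = v ∧ slope (p v) (p a) < slope (p v) (p u))) := by
      rintro (⟨-, h, -⟩ | ⟨rfl, -⟩)
      · exact h3 (h2.trans h)
      · exact h3 h2
    have e3 : ¬ ((p u).1 < (p a).1 ∧ (p a).1 < (p v).1 ∧
        (p u).2 + slope (p u) (p v) * ((p a).1 - (p u).1) < (p a).2) := by
      rintro ⟨h, -, -⟩
      exact h3 (h.trans h1)
    have e4 : ¬ ((p u).1 < (p b).1 ∧ (p b).1 < (p v).1 ∧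
        (p u).2 + slope (p u) (p v) * ((p b).1 - (p u).1) < (p b).2) := by
      rintro ⟨h, -, -⟩
      exact h3 h
    rw [if_neg e1, if_neg e2, if_neg e3, if_neg e4]
    simp
  by_cases h4 : (p a).1 < (p v).1
  swap
  · have e1 : ¬ (((p a).1 < (p u).1 ∧ (p u).1 < (p b).1 ∧ Below (p a) (p b) (p u)) ∨
        (a = u ∧ slope (p u) (p v) < slope (p u) (p b))) := by
      rintro (⟨h, -, -⟩ | ⟨rfl, -⟩)
      · exact h4 (h.trans h2)
      · exact h4 h2
    have e2 : ¬ (((p a).1 < (p v).1 ∧ (p v).1 < (p b).1 ∧ Below (p a) (p b) (p v)) ∨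
        (b = v ∧ slope (p v) (p a) < slope (p v) (p u))) := by
      rintro (⟨h, -, -⟩ | ⟨rfl, -⟩)
      · exact h4 h
      · exact h4 h1
    have e3 : ¬ ((p u).1 < (p a).1 ∧ (p a).1 < (p v).1 ∧
        (p u).2 + slope (p u) (p v) * ((p a).1 - (p u).1) < (p a).2) := by
      rintro ⟨-, h, -⟩
      exact h4 h
    have e4 : ¬ ((p u).1 < (p b).1 ∧ (p b).1 < (p v).1 ∧
        (p u).2 + slope (p u) (p v) * ((p b).1 - (p u).1) < (p b).2) := by
      rintro ⟨-, h, -⟩
      exact h4 (h1.trans h)
    rw [if_neg e1, if_neg e2, if_neg e3, if_neg e4]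
    simp
  by_cases hne : a = u ∧ b = v
  · obtain ⟨rfl, rfl⟩ := hne
    have e1 : ¬ (((p a).1 < (p a).1 ∧ (p a).1 < (p b).1 ∧ Below (p a) (p b) (p a)) ∨
        (a = a ∧ slope (p a) (p b) < slope (p a) (p b))) := by
      rintro (⟨h, -, -⟩ | ⟨-, h⟩)
      · exact lt_irrefl _ h
      · exact lt_irrefl _ h
    have e2 : ¬ (((p a).1 < (p b).1 ∧ (p b).1 < (p b).1 ∧ Below (p a) (p b) (p b)) ∨
        (b = b ∧ slope (p b) (p a) < slope (p b) (p a))) := by
      rintro (⟨-, h, -⟩ | ⟨-, h⟩)
      · exact lt_irrefl _ h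
      · exact lt_irrefl _ h
    have e3 : ¬ ((p a).1 < (p a).1 ∧ (p a).1 < (p b).1 ∧
        (p a).2 + slope (p a) (p b) * ((p a).1 - (p a).1) < (p a).2) := by
      rintro ⟨h, -, -⟩
      exact lt_irrefl _ h
    have e4 : ¬ ((p a).1 < (p b).1 ∧ (p b).1 < (p b).1 ∧
        (p a).2 + slope (p a) (p b) * ((p b).1 - (p a).1) < (p b).2) := by
      rintro ⟨-, h, -⟩
      exact lt_irrefl _ h
    rw [if_neg e1, if_neg e2, if_neg e3, if_neg e4]
    simp
  obtain ⟨T, t1, t2, t3, t4, t5, t6⟩ := exists_sign G p hp a b u v hab huv h1 h2 h3 h4 hne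
  have e1 : (((p a).1 < (p u).1 ∧ (p u).1 < (p b).1 ∧ Below (p a) (p b) (p u)) ∨
      (a = u ∧ slope (p u) (p v) < slope (p u) (p b))) ↔ (T ∧ (p a).1 ≤ (p u).1) := by
    constructor
    · rintro (⟨h, -, h'⟩ | ⟨h, h'⟩)
      · exact ⟨(t1 h).mp h', h.le⟩
      · exact ⟨(t2 h).mp h', by rw [h]⟩
    · rintro ⟨hT, h⟩
      rcases lt_or_eq_of_le h with h | h
      · exact Or.inl ⟨h, h3, (t1 h).mpr hT⟩
      · exact Or.inr ⟨hinj _ _ h, (t2 (hinj _ _ h)).mpr hT⟩
  have e2 : (((p a).1 < (p v).1 ∧ (p v).1 < (p b).1 ∧ Below (p a) (p b) (p v)) ∨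
      (b = v ∧ slope (p v) (p a) < slope (p v) (p u))) ↔ (T ∧ (p v).1 ≤ (p b).1) := by
    constructor
    · rintro (⟨-, h, h'⟩ | ⟨h, h'⟩)
      · exact ⟨(t3 h).mp h', h.le⟩
      · exact ⟨(t4 h).mp h', by rw [h]⟩
    · rintro ⟨hT, h⟩
      rcases lt_or_eq_of_le h with h | h
      · exact Or.inl ⟨h4, h, (t3 h).mpr hT⟩
      · exact Or.inr ⟨(hinj _ _ h).symm, (t4 (hinj _ _ h).symm).mpr hT⟩
  have e3 : ((p u).1 < (p a).1 ∧ (p a).1 < (p v).1 ∧
      (p u).2 + slope (p u) (p v) * ((p a).1 - (p u).1) < (p a).2) ↔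
      (T ∧ ¬ (p a).1 ≤ (p u).1) := by
    constructor
    · rintro ⟨h, -, h'⟩
      exact ⟨(t5 h).mp h', not_le.mpr h⟩
    · rintro ⟨hT, h⟩
      exact ⟨not_le.mp h, h4, (t5 (not_le.mp h)).mpr hT⟩
  have e4 : ((p u).1 < (p b).1 ∧ (p b).1 < (p v).1 ∧
      (p u).2 + slope (p u) (p v) * ((p b).1 - (p u).1) < (p b).2) ↔
      (T ∧ ¬ (p v).1 ≤ (p b).1) := by
    constructor
    · rintro ⟨-, h, h'⟩
      exact ⟨(t6 h).mp h', not_le.mpr h⟩
    · rintro ⟨hT, h⟩
      exact ⟨h3, not_le.mp h, (t6 (not_le.mp h)).mpr hT⟩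
  rw [if_congr e1 rfl rfl, if_congr e2 rfl rfl, if_congr e3 rfl rfl, if_congr e4 rfl rfl]
  have hc : c + c = 0 := CharTwo.add_self_eq_zero c
  by_cases hT : T <;> by_cases h5 : (p a).1 ≤ (p u).1 <;> by_cases h6 : (p v).1 ≤ (p b).1 <;>
    simp [hT, h5, h6, hc]

open scoped Classical in
theorem tPARITY : T_PARITY := by
  intro V _ G Γ p C hp hinj hC hev u hu v hv huv hx
  -- the four parts as sums over ordered edges
  have hsame : ∀ a b, G.Adj a b → (p a).1 < (p b).1 ∨ (p b).1 < (p a).1 := by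
    intro a b hab
    rcases lt_trichotomy (p a).1 (p b).1 with h | h | h
    · exact Or.inl h
    · exact absurd (hinj _ _ h) hab.ne
    · exact Or.inr h
  have hL : above G Γ p C u + (∑ a ∈ Γ, if G.Adj u a ∧ (p u).1 < (p a).1 ∧
      slope (p u) (p v) < slope (p u) (p a) then C u a else 0) =
      ∑ a ∈ Γ, ∑ b ∈ Γ, if G.Adj a b ∧ (p a).1 < (p b).1 then
        (if ((p a).1 < (p u).1 ∧ (p u).1 < (p b).1 ∧ Below (p a) (p b) (p u)) ∨
        (a = u ∧ slope (p u) (p v) < slope (p u) (p b)) then C a b else 0) else 0 := by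
    have h2 : (∑ a ∈ Γ, if G.Adj u a ∧ (p u).1 < (p a).1 ∧
        slope (p u) (p v) < slope (p u) (p a) then C u a else 0) =
        ∑ a ∈ Γ, ∑ b ∈ Γ, if a = u ∧ G.Adj u b ∧ (p u).1 < (p b).1 ∧
        slope (p u) (p v) < slope (p u) (p b) then C u b else 0 := by
      symm
      rw [Finset.sum_eq_single_of_mem u hu]
      · simp
      · intro a _ ha
        exact Finset.sum_eq_zero fun b _ => by simp [ha]
    rw [h2, above, ← Finset.sum_add_distrib]
    refine Finset.sum_congr rfl fun a _ => ?_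
    rw [← Finset.sum_add_distrib]
    refine Finset.sum_congr rfl fun b _ => ?_
    by_cases hau : a = u
    · subst hau
      by_cases h1 : G.Adj a b <;> by_cases h3 : (p a).1 < (p b).1 <;>
        by_cases h4 : slope (p a) (p v) < slope (p a) (p b) <;> simp [h1, h3, h4]
    · by_cases h1 : G.Adj a b
      · by_cases h3 : (p a).1 < (p u).1 ∧ (p u).1 < (p b).1 ∧ Below (p a) (p b) (p u)
        · have h5 : (p a).1 < (p b).1 := h3.1.trans h3.2.1
          simp [hau, h1, h3, h5]
        · simp [hau, h1, h3]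
      · simp [hau, h1]
  have hR : above G Γ p C v + (∑ a ∈ Γ, if G.Adj v a ∧ (p a).1 < (p v).1 ∧
      slope (p v) (p a) < slope (p v) (p u) then C v a else 0) =
      ∑ a ∈ Γ, ∑ b ∈ Γ, if G.Adj a b ∧ (p a).1 < (p b).1 then
        (if ((p a).1 < (p v).1 ∧ (p v).1 < (p b).1 ∧ Below (p a) (p b) (p v)) ∨
        (b = v ∧ slope (p v) (p a) < slope (p v) (p u)) then C a b else 0) else 0 := by
    have h2 : (∑ a ∈ Γ, if G.Adj v a ∧ (p a).1 < (p v).1 ∧
        slope (p v) (p a) < slope (p v) (p u) then C v a else 0) =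
        ∑ a ∈ Γ, ∑ b ∈ Γ, if b = v ∧ G.Adj v a ∧ (p a).1 < (p v).1 ∧
        slope (p v) (p a) < slope (p v) (p u) then C v a else 0 := by
      refine Finset.sum_congr rfl fun a _ => ?_
      rw [Finset.sum_eq_single_of_mem v hv]
      · simp
      · intro b _ hb
        simp [hb]
    rw [h2, above, ← Finset.sum_add_distrib]
    refine Finset.sum_congr rfl fun a _ => ?_
    rw [← Finset.sum_add_distrib]
    refine Finset.sum_congr rfl fun b _ => ?_
    by_cases hbv : b = v
    · subst hbv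
      rw [G.adj_comm b a, hC b a]
      by_cases h1 : G.Adj a b <;> by_cases h3 : (p a).1 < (p b).1 <;>
        by_cases h4 : slope (p b) (p a) < slope (p b) (p u) <;> simp [h1, h3, h4]
    · by_cases h1 : G.Adj a b
      · by_cases h3 : (p a).1 < (p v).1 ∧ (p v).1 < (p b).1 ∧ Below (p a) (p b) (p v)
        · have h5 : (p a).1 < (p b).1 := h3.1.trans h3.2.1
          simp [hbv, h1, h3, h5]
        · simp [hbv, h1, h3]
      · simp [hbv, h1]
  set S : V → Prop := fun z => (p u).1 < (p z).1 ∧ (p z).1 < (p v).1 ∧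
    (p u).2 + slope (p u) (p v) * ((p z).1 - (p u).1) < (p z).2 with hS
  have hZ : (∑ a ∈ Γ, ∑ b ∈ Γ, if G.Adj a b ∧ (p a).1 < (p b).1 then
      ((if S a then C a b else 0) + (if S b then C a b else 0)) else 0) = 0 := by
    have h1 : (∑ a ∈ Γ, ∑ b ∈ Γ, if G.Adj a b ∧ (p a).1 < (p b).1 then
        ((if S a then C a b else 0) + (if S b then C a b else 0)) else 0) =
        (∑ a ∈ Γ, ∑ b ∈ Γ, if G.Adj a b ∧ (p a).1 < (p b).1 ∧ S a then C a b else 0) +
        (∑ a ∈ Γ, ∑ b ∈ Γ, if G.Adj a b ∧ (p b).1 < (p a).1 ∧ S a then C a b else 0) := by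
      rw [Finset.sum_comm (f := fun a b => if G.Adj a b ∧ (p b).1 < (p a).1 ∧ S a then C a b
        else 0), ← Finset.sum_add_distrib]
      refine Finset.sum_congr rfl fun a _ => ?_
      rw [← Finset.sum_add_distrib]
      refine Finset.sum_congr rfl fun b _ => ?_
      rw [G.adj_comm b a, hC b a]
      by_cases h1 : G.Adj a b <;> by_cases h3 : (p a).1 < (p b).1 <;>
        by_cases h4 : S a <;> by_cases h5 : S b <;> simp [h1, h3, h4, h5]
    rw [h1, ← Finset.sum_add_distrib]
    refine Finset.sum_eq_zero fun a ha => ?_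
    rw [← Finset.sum_add_distrib]
    by_cases h4 : S a
    · refine Eq.trans ?_ (hev a ha)
      refine Finset.sum_congr rfl fun b _ => ?_
      by_cases h5 : G.Adj a b
      · rcases hsame a b h5 with h | h
        · simp [h5, h, h4, not_lt.mpr h.le]
        · simp [h5, h, h4, not_lt.mpr h.le]
      · simp [h5]
    · exact Finset.sum_eq_zero fun b _ => by simp [h4]
  rw [hL, hR]
  have htot : (∑ a ∈ Γ, ∑ b ∈ Γ, if G.Adj a b ∧ (p a).1 < (p b).1 then
        (if ((p a).1 < (p u).1 ∧ (p u).1 < (p b).1 ∧ Below (p a) (p b) (p u)) ∨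
        (a = u ∧ slope (p u) (p v) < slope (p u) (p b)) then C a b else 0) else 0) +
      (∑ a ∈ Γ, ∑ b ∈ Γ, if G.Adj a b ∧ (p a).1 < (p b).1 then
        (if ((p a).1 < (p v).1 ∧ (p v).1 < (p b).1 ∧ Below (p a) (p b) (p v)) ∨
        (b = v ∧ slope (p v) (p a) < slope (p v) (p u)) then C a b else 0) else 0) = 0 := by
    refine Eq.trans (add_zero _).symm ?_
    refine Eq.trans (congrArg (fun t => _ + t) hZ.symm) ?_
    rw [← Finset.sum_add_distrib, ← Finset.sum_add_distrib]
    refine Finset.sum_eq_zero fun a _ => ?_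
    rw [← Finset.sum_add_distrib, ← Finset.sum_add_distrib]
    refine Finset.sum_eq_zero fun b _ => ?_
    by_cases h1 : G.Adj a b ∧ (p a).1 < (p b).1
    · rw [if_pos h1, if_pos h1, if_pos h1]
      exact indicators G p hp hinj a b u v h1.1 huv h1.2 hx (C a b)
    · rw [if_neg h1, if_neg h1, if_neg h1]
      simp
  exact (CharTwo.add_eq_zero).mp htot

end Pool.Agent.CRV
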