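import Pool.Agent.CRV.Targets

set_option autoImplicit false

/-!
# CRV-REC: from contour sequences to rectangles
-/

namespace Pool.Agent.CRV

/-- the unit square -/
def unitRect : CornerRect where
  l := 0
  r := 1
  b := 0
  t := 1
  width := one_pos
  height := one_pos
  eyeAt := .north

theorem disjoint_of_apart {A B : CornerRect} (h : Apart A B) : Disjoint A.pts B.pts := by
  rw [Set.disjoint_left]
  rintro x ⟨⟨h1, h2⟩, h3, h4⟩ ⟨⟨h5, h6⟩, h7, h8⟩
  unfold Apart at h
  rcases h with h | h | h | h <;> linarith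

theorem rec_rep (h1 : T_STEP) {V : Type} {G : SimpleGraph V} {Γ : Set V} {L : List V}
    (h : Contour G Γ L) : ∃ R, Rep G Γ L R := by
  induction h with
  | nil =>
    refine ⟨fun _ => unitRect, ⟨?_, ?_, ?_, ?_⟩, ?_, ?_, ?_⟩
    · intro a ha
      simp at ha
    · exact List.Pairwise.nil
    · intro c hc
      exact absurd hc (Set.notMem_empty c)
    · intro c hc
      exact absurd hc (Set.notMem_empty c)
    · intro c hc
      exact absurd hc (Set.notMem_empty c)
    · intro z hz
      simp at hz
    · intro c hc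
      exact absurd hc (Set.notMem_empty c)
  | step Γ A us B x _ hx hus hnb ih =>
    obtain ⟨R, hR⟩ := ih
    exact h1 V G Γ A us B x R hR hx hus hnb

theorem tREC (h1 : T_STEP) (h2 : T_VIS) : T_REC := by
  intro V _ G L h
  obtain ⟨R, hR⟩ := rec_rep h1 h
  have hap : ∀ a b, a ≠ b → Apart (R a) (R b) := fun a b hab =>
    hR.base.apart a (Set.mem_univ _) b (Set.mem_univ _) hab
  refine ⟨R, fun a b hab => disjoint_of_apart (hap a b hab), ?_⟩
  intro a b hab
  rw [h2 V R hap a b hab, h2 V R hap b a hab.symm]
  exact hR.vis a (Set.mem_univ _) b (Set.mem_univ _) hab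

end Pool.Agent.CRV
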