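import Pool.Agent.CRV.Targets

set_option autoImplicit false

/-!
# CRV-ROT: the rotation system of a straight-line drawing
-/

namespace Pool.Agent.CRV

open Classical in
/-- the key by which the neighbours of a vertex are sorted -/
noncomputable def rkey {V : Type} (p : V → ℝ × ℝ) (v a : V) : ℝ :=
  Real.arctan (slope (p v) (p a)) + (if (p v).1 < (p a).1 then Real.pi else 0)

theorem rkey_right {V : Type} (p : V → ℝ × ℝ) (u v a : V) (h : (p u).1 < (p v).1) :
    rkey p u v < rkey p u a ↔ (p u).1 < (p a).1 ∧ slope (p u) (p v) < slope (p u) (p a) := by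
  unfold rkey
  rw [if_pos h]
  by_cases ha : (p u).1 < (p a).1
  · rw [if_pos ha]
    simp only [ha, true_and, add_lt_add_iff_right]
    exact Real.arctan_strictMono.lt_iff_lt
  · rw [if_neg ha]
    simp only [ha, false_and, iff_false, not_lt]
    have h1 := Real.neg_pi_div_two_lt_arctan (slope (p u) (p v))
    have h2 := Real.arctan_lt_pi_div_two (slope (p u) (p a))
    linarith

theorem rkey_left {V : Type} (p : V → ℝ × ℝ) (u v a : V) (h : (p u).1 < (p v).1)
    (ha : (p a).1 ≠ (p v).1) :
    rkey p v a < rkey p v u ↔ (p a).1 < (p v).1 ∧ slope (p v) (p a) < slope (p v) (p u) := by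
  unfold rkey
  rw [if_neg (not_lt.2 h.le)]
  rcases lt_or_gt_of_ne ha with hlt | hgt
  · rw [if_neg (not_lt.2 hlt.le)]
    simp only [hlt, true_and, add_zero]
    exact Real.arctan_strictMono.lt_iff_lt
  · rw [if_pos hgt]
    simp only [not_lt.2 hgt.le, false_and, iff_false, not_lt]
    have h1 := Real.neg_pi_div_two_lt_arctan (slope (p v) (p a))
    have h2 := Real.arctan_lt_pi_div_two (slope (p v) (p u))
    linarith

theorem rot_seg_aux (P A B : ℝ × ℝ) (h : |A.1 - P.1| ≤ |B.1 - P.1|) (hs : slope P A = slope P B)
    (hA : A.1 ≠ P.1) (hside : (P.1 < A.1 ↔ P.1 < B.1)) (hB : B.1 ≠ P.1) :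
    A ∈ segment ℝ P B := by
  have hB' : B.1 - P.1 ≠ 0 := sub_ne_zero.2 hB
  have hA' : A.1 - P.1 ≠ 0 := sub_ne_zero.2 hA
  set t := (A.1 - P.1) / (B.1 - P.1) with ht
  have ht0 : 0 ≤ t := by
    rcases lt_or_gt_of_ne hA with hlt | hgt
    · have : ¬ P.1 < B.1 := fun hh => absurd (hside.2 hh) (not_lt.2 hlt.le)
      have hB2 : B.1 < P.1 := lt_of_le_of_ne (not_lt.1 this) hB
      exact div_nonneg_of_nonpos (by linarith) (by linarith)
    · have : P.1 < B.1 := hside.1 hgt
      exact div_nonneg (by linarith) (by linarith)
  have ht1 : t ≤ 1 := by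
    have : |t| ≤ 1 := by
      rw [ht, abs_div]
      exact div_le_one_of_le₀ h (abs_nonneg _)
    exact (le_abs_self t).trans this
  have hsl : (A.2 - P.2) = t * (B.2 - P.2) := by
    unfold slope at hs
    rw [div_eq_div_iff hA' hB'] at hs
    rw [ht, div_mul_eq_mul_div, eq_div_iff hB']
    linarith
  refine ⟨1 - t, t, by linarith, ht0, by ring, ?_⟩
  have hx : (1 - t) * P.1 + t * B.1 = A.1 := by
    have : t * (B.1 - P.1) = A.1 - P.1 := by
      rw [ht, div_mul_cancel₀ _ hB']
    linarith
  have hy : (1 - t) * P.2 + t * B.2 = A.2 := by linarith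
  ext
  · simpa using hx
  · simpa using hy

theorem rkey_inj {V : Type} {G : SimpleGraph V} {p : V → ℝ × ℝ} (hp : IsDrawing G p)
    (hx : ∀ a b, (p a).1 = (p b).1 → a = b) {v a b : V} (ha : G.Adj v a) (hb : G.Adj v b)
    (h : rkey p v a = rkey p v b) : a = b := by
  by_contra hab
  have hav : (p a).1 ≠ (p v).1 := fun hh => ha.ne (hx _ _ hh).symm
  have hbv : (p b).1 ≠ (p v).1 := fun hh => hb.ne (hx _ _ hh).symm
  have h1 := Real.neg_pi_div_two_lt_arctan (slope (p v) (p a))
  have h2 := Real.arctan_lt_pi_div_two (slope (p v) (p a))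
  have h3 := Real.neg_pi_div_two_lt_arctan (slope (p v) (p b))
  have h4 := Real.arctan_lt_pi_div_two (slope (p v) (p b))
  have hside : ((p v).1 < (p a).1 ↔ (p v).1 < (p b).1) ∧ slope (p v) (p a) = slope (p v) (p b) := by
    unfold rkey at h
    by_cases h5 : (p v).1 < (p a).1 <;> by_cases h6 : (p v).1 < (p b).1
    · rw [if_pos h5, if_pos h6] at h
      exact ⟨by simp [h5, h6], Real.arctan_injective (by linarith)⟩
    · rw [if_pos h5, if_neg h6] at h
      exfalso; linarith
    · rw [if_neg h5, if_pos h6] at h
      exfalso; linarith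
    · rw [if_neg h5, if_neg h6] at h
      exact ⟨by simp [h5, h6], Real.arctan_injective (by linarith)⟩
  rcases le_total |(p a).1 - (p v).1| |(p b).1 - (p v).1| with hle | hle
  · exact hp.vertex v b a hb ha.ne' hab
      (rot_seg_aux _ _ _ hle hside.2 hav hside.1 hbv)
  · exact hp.vertex v a b ha hb.ne' (Ne.symm hab)
      (rot_seg_aux _ _ _ hle hside.2.symm hbv hside.1.symm hav)

theorem rot_takeWhile {W : Type} [DecidableEq W] (k : W → ℝ) (f : W → ZMod 2) (a : W) :
    ∀ l : List W, l.Pairwise (fun b c => k b < k c) → a ∈ l →
      ((l.takeWhile (fun u => decide (u ≠ a))).map f).sum =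
        (l.map (fun b => if k b < k a then f b else 0)).sum := by
  intro l
  induction l with
  | nil => intro _ h; exact absurd h (by simp)
  | cons c l ih =>
    intro hl ha
    rw [List.pairwise_cons] at hl
    by_cases hc : c = a
    · subst hc
      rw [List.takeWhile_cons_of_neg (by simp)]
      simp only [List.map_nil, List.sum_nil, List.map_cons, List.sum_cons, lt_irrefl, if_false,
        zero_add]
      symm
      apply List.sum_eq_zero
      intro x hx
      rw [List.mem_map] at hx
      obtain ⟨b, hb, rfl⟩ := hx
      rw [if_neg (not_lt.2 (hl.1 b hb).le)]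
    · have ha' : a ∈ l := by
        rcases List.mem_cons.1 ha with h | h
        · exact absurd h.symm hc
        · exact h
      rw [List.takeWhile_cons_of_pos (by simpa using hc)]
      simp only [List.map_cons, List.sum_cons]
      rw [ih hl.2 ha', if_pos (hl.1 a ha')]

open Classical in
/-- neighbours in `Γ` -/
noncomputable def rotN {V : Type} (G : SimpleGraph V) (Γ : Finset V) (v : V) : Finset V :=
  Γ.filter (fun a => v ∈ Γ ∧ G.Adj v a)

open Classical in
/-- sorted list of the neighbours -/
noncomputable def rotS {V : Type} (G : SimpleGraph V) (Γ : Finset V) (p : V → ℝ × ℝ) (v : V) :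
    List V :=
  (rotN G Γ v).toList.mergeSort (fun a b => decide (rkey p v a ≤ rkey p v b))

theorem rotS_perm {V : Type} (G : SimpleGraph V) (Γ : Finset V) (p : V → ℝ × ℝ) (v : V) :
    (rotS G Γ p v).Perm (rotN G Γ v).toList := List.mergeSort_perm _ _

theorem mem_rotS {V : Type} (G : SimpleGraph V) (Γ : Finset V) (p : V → ℝ × ℝ) (v a : V) :
    a ∈ rotS G Γ p v ↔ a ∈ Γ ∧ v ∈ Γ ∧ G.Adj v a := by
  classical
  rw [(rotS_perm G Γ p v).mem_iff, Finset.mem_toList]
  unfold rotN
  rw [Finset.mem_filter]

theorem rotS_nodup {V : Type} (G : SimpleGraph V) (Γ : Finset V) (p : V → ℝ × ℝ) (v : V) :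
    (rotS G Γ p v).Nodup := (rotS_perm G Γ p v).nodup_iff.2 (Finset.nodup_toList _)

theorem rotS_sorted {V : Type} {G : SimpleGraph V} (Γ : Finset V) {p : V → ℝ × ℝ}
    (hp : IsDrawing G p) (hx : ∀ a b, (p a).1 = (p b).1 → a = b) (v : V) :
    (rotS G Γ p v).Pairwise (fun a b => rkey p v a < rkey p v b) := by
  have h1 : (rotS G Γ p v).Pairwise (fun a b => decide (rkey p v a ≤ rkey p v b) = true) :=
    List.pairwise_mergeSort (le := fun a b => decide (rkey p v a ≤ rkey p v b))
      (by
        intro a b c hab hbc
        rw [decide_eq_true_iff] at hab hbc ⊢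
        exact hab.trans hbc)
      (by
        intro a b
        rw [Bool.or_eq_true, decide_eq_true_iff, decide_eq_true_iff]
        exact le_total _ _) _
  have h2 := rotS_nodup G Γ p v
  have h3 := List.Pairwise.and_mem.1 (h1.and h2)
  refine h3.imp ?_
  rintro a b ⟨ha, hb, hle, hne⟩
  rw [decide_eq_true_iff] at hle
  rw [mem_rotS] at ha hb
  exact lt_of_le_of_ne hle (fun h => hne (rkey_inj hp hx ha.2.2 hb.2.2 h))

open Classical in
theorem rotS_sum {V : Type} (G : SimpleGraph V) (Γ : Finset V) (p : V → ℝ × ℝ) (v : V)
    (hv : v ∈ Γ) (f : V → ZMod 2) :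
    ((rotS G Γ p v).map f).sum = ∑ a ∈ Γ, if G.Adj v a then f a else 0 := by
  rw [((rotS_perm G Γ p v).map f).sum_eq, Finset.sum_map_toList]
  unfold rotN
  rw [Finset.sum_filter]
  simp only [hv, true_and]

/-- the part of the rotation before the neighbours -/
def rotPre {V : Type} [DecidableEq V] (r v : V) : List (Option V) := if v = r then [none] else []

/-- the rotation -/
noncomputable def rotD {V : Type} [DecidableEq V] (G : SimpleGraph V) (Γ : Finset V)
    (p : V → ℝ × ℝ) (r : V) : Option V → List (Option V)
  | none => [some r]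
  | some v => rotPre r v ++ (rotS G Γ p v).map some

theorem mem_rotD_some {V : Type} [DecidableEq V] (G : SimpleGraph V) (Γ : Finset V)
    (p : V → ℝ × ℝ) (r v a : V) :
    some a ∈ rotD G Γ p r (some v) ↔ a ∈ Γ ∧ v ∈ Γ ∧ G.Adj v a := by
  unfold rotD rotPre
  rw [List.mem_append]
  have h1 : some a ∉ (if v = r then [none] else [] : List (Option V)) := by
    split_ifs <;> simp
  simp only [h1, false_or, List.mem_map, Option.some.injEq, exists_eq_right]
  exact mem_rotS G Γ p v a

theorem mem_rotD_none {V : Type} [DecidableEq V] (G : SimpleGraph V) (Γ : Finset V)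
    (p : V → ℝ × ℝ) (r v : V) :
    none ∈ rotD G Γ p r (some v) ↔ v = r := by
  unfold rotD rotPre
  rw [List.mem_append]
  have h1 : none ∉ (rotS G Γ p v).map some := by simp
  simp only [h1, or_false]
  split_ifs with h <;> simp [h]

theorem rotD_sum {V : Type} [DecidableEq V] (G : SimpleGraph V) (Γ : Finset V)
    (p : V → ℝ × ℝ) (r v : V) (hv : v ∈ Γ) (C : Option V → Option V → ZMod 2)
    (hC : C (some r) none = 0) :
    ((rotD G Γ p r (some v)).map (C (some v))).sum =
      ((rotS G Γ p v).map (fun a => C (some v) (some a))).sum := by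
  unfold rotD rotPre
  rw [List.map_append, List.sum_append, List.map_map]
  have h1 : (((if v = r then [none] else [] : List (Option V))).map (C (some v))).sum = 0 := by
    split_ifs with h
    · subst h; simpa using hC
    · simp
  rw [h1, zero_add]
  rfl

theorem rotD_cnt {V : Type} [DecidableEq V] {G : SimpleGraph V} {Γ : Finset V}
    {p : V → ℝ × ℝ} (hp : IsDrawing G p) (hx : ∀ a b, (p a).1 = (p b).1 → a = b) (r : V)
    {v a : V} (ha : a ∈ Γ) (hv : v ∈ Γ) (hva : G.Adj v a) (C : Option V → Option V → ZMod 2)
    (hC : C (some r) none = 0) :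
    cnt (rotD G Γ p r) C (some v) (some a) =
      ((rotS G Γ p v).map (fun b => if rkey p v b < rkey p v a then C (some v) (some b) else 0)).sum
      := by
  rw [← rot_takeWhile (rkey p v) (fun b => C (some v) (some b)) a _ (rotS_sorted Γ hp hx v)
    ((mem_rotS G Γ p v a).2 ⟨ha, hv, hva⟩)]
  unfold cnt rotD rotPre
  have h2 : ((rotS G Γ p v).map some).takeWhile (fun u => decide (u ≠ some a)) =
      ((rotS G Γ p v).takeWhile (fun u => decide (u ≠ a))).map some := by
    rw [List.takeWhile_map]
    congr 1
    congr 1
    funext u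
    simp
  by_cases h : v = r
  · subst h
    simp only [if_true, List.cons_append, List.nil_append]
    rw [List.takeWhile_cons_of_pos (by simp)]
    rw [List.map_cons, List.sum_cons, hC, zero_add, h2, List.map_map]
    rfl
  · simp only [if_neg h, List.nil_append]
    rw [h2, List.map_map]
    rfl

theorem zmod2_add_self (x : ZMod 2) : x + x = 0 := CharTwo.add_self_eq_zero x

theorem tROT (h1 : T_PARITY) : T_ROT := by
  classical
  intro V _ _ G Γ p r hp hx hr hmax
  refine ⟨rotD G Γ p r, ?_, rfl, ?_⟩
  swap
  · intro u v
    rw [mem_rotD_some]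
    constructor
    · rintro ⟨h1, h2, h3⟩; exact ⟨h1, h2, h3.symm⟩
    · rintro ⟨h1, h2, h3⟩; exact ⟨h1, h2, h3.symm⟩
  · refine ⟨?_, ?_, ?_, ?_⟩
    · rintro (_ | v)
      · simp [rotD]
      · have h2 : ((rotS G Γ p v).map some).Nodup :=
          (rotS_nodup G Γ p v).map (Option.some_injective _)
        change (rotPre r v ++ (rotS G Γ p v).map some).Nodup
        unfold rotPre
        split_ifs with h
        · rw [List.cons_append, List.nil_append, List.nodup_cons]
          exact ⟨by simp, h2⟩
        · rw [List.nil_append]; exact h2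
    · rintro (_ | u) (_ | v)
      · intro h; simp [rotD] at h
      · intro h
        rw [mem_rotD_none] at h
        simp [rotD, h]
      · intro h
        simp only [rotD, List.mem_singleton, Option.some.injEq] at h
        exact (mem_rotD_none G Γ p r u).2 h
      · rw [mem_rotD_some, mem_rotD_some]
        rintro ⟨h1, h2, h3⟩; exact ⟨h2, h1, h3.symm⟩
    · rintro (_ | v)
      · simp [rotD]
      · rw [mem_rotD_some]
        rintro ⟨_, _, h⟩
        exact G.irrefl h
    · intro C hsym heven
      have hC0 : C none (some r) = 0 := by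
        have := heven none
        simpa [rotD] using this
      have hC : C (some r) none = 0 := by rw [hsym]; exact hC0
      have hev : ∀ v ∈ Γ, ∑ a ∈ Γ, (if G.Adj v a then C (some v) (some a) else 0) = 0 := by
        intro v hv
        rw [← rotS_sum G Γ p v hv, ← rotD_sum G Γ p r v hv C hC]
        exact heven (some v)
      have habove : above G Γ p (fun a b => C (some a) (some b)) r = 0 := by
        unfold above
        apply Finset.sum_eq_zero
        intro a ha
        apply Finset.sum_eq_zero
        intro b hb
        rw [if_neg]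
        rintro ⟨_, h3, h4, h5⟩
        unfold Below slope at h5
        have h6 : 0 < (p b).1 - (p a).1 := by linarith
        have h7 := hmax a ha
        have h8 := hmax b hb
        rw [div_mul_eq_mul_div, ← sub_lt_iff_lt_add', lt_div_iff₀ h6] at h5
        nlinarith [mul_nonneg (sub_nonneg.2 h7) (sub_nonneg.2 h4.le),
          mul_nonneg (sub_nonneg.2 h8) (sub_nonneg.2 h3.le)]
      have main : ∀ u ∈ Γ, ∀ v ∈ Γ, G.Adj u v → (p u).1 < (p v).1 →
          above G Γ p (fun a b => C (some a) (some b)) u +
            above G Γ p (fun a b => C (some a) (some b)) v =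
          cnt (rotD G Γ p r) C (some u) (some v) + cnt (rotD G Γ p r) C (some v) (some u) +
            C (some u) (some v) := by
        intro u hu v hv huv hlt
        have hpar := h1 V G Γ p (fun a b => C (some a) (some b)) hp hx
          (fun a b => hsym _ _) hev u hu v hv huv hlt
        rw [rotD_cnt hp hx r hv hu huv C hC, rotD_cnt hp hx r hu hv huv.symm C hC,
          rotS_sum G Γ p u hu, rotS_sum G Γ p v hv]
        have e1 : (∑ a ∈ Γ, if G.Adj u a then (if rkey p u a < rkey p u v then
              C (some u) (some a) else 0) else 0) + C (some u) (some v) +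
            (∑ a ∈ Γ, if G.Adj u a ∧ (p u).1 < (p a).1 ∧
              slope (p u) (p v) < slope (p u) (p a) then C (some u) (some a) else 0) = 0 := by
          refine Eq.trans ?_ (hev u hu)
          have e0 : C (some u) (some v) = ∑ a ∈ Γ, if a = v then C (some u) (some a) else 0 := by
            rw [Finset.sum_ite_eq' Γ v (fun a => C (some u) (some a)), if_pos hv]
          rw [e0, ← Finset.sum_add_distrib, ← Finset.sum_add_distrib]
          apply Finset.sum_congr rfl
          intro a _
          by_cases hua : G.Adj u a
          · have hk := rkey_right p u v a hlt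
            rw [if_pos hua, if_pos hua]
            by_cases hav : a = v
            · subst hav
              simp
            · rw [if_neg hav]
              have hne : rkey p u a ≠ rkey p u v := fun h => hav (rkey_inj hp hx hua huv h)
              rcases lt_or_gt_of_ne hne with h | h
              · rw [if_pos h, if_neg (fun hh => lt_asymm h (hk.2 hh.2))]; ring
              · rw [if_neg (not_lt.2 h.le), if_pos ⟨hua, hk.1 h⟩]; ring
          · have hav : a ≠ v := by rintro rfl; exact hua huv
            simp [hua, hav]
        have e2 : (∑ a ∈ Γ, if G.Adj v a then (if rkey p v a < rkey p v u then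
              C (some v) (some a) else 0) else 0) =
            (∑ a ∈ Γ, if G.Adj v a ∧ (p a).1 < (p v).1 ∧
              slope (p v) (p a) < slope (p v) (p u) then C (some v) (some a) else 0) := by
          apply Finset.sum_congr rfl
          intro a _
          by_cases hva : G.Adj v a
          · have hne : (p a).1 ≠ (p v).1 := fun h => hva.ne (hx _ _ h).symm
            have hk := rkey_left p u v a hlt hne
            rw [if_pos hva]
            by_cases h : rkey p v a < rkey p v u
            · rw [if_pos h, if_pos ⟨hva, hk.1 h⟩]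
            · rw [if_neg h, if_neg (fun hh => h (hk.2 hh.2))]
          · simp [hva]
        rw [e2]
        generalize (∑ a ∈ Γ, if G.Adj v a ∧ (p a).1 < (p v).1 ∧
          slope (p v) (p a) < slope (p v) (p u) then C (some v) (some a) else 0) = S2 at hpar ⊢
        generalize (∑ a ∈ Γ, if G.Adj u a ∧ (p u).1 < (p a).1 ∧
          slope (p u) (p v) < slope (p u) (p a) then C (some u) (some a) else 0) = S1 at hpar e1
        generalize (∑ a ∈ Γ, if G.Adj u a then (if rkey p u a < rkey p u v then
          C (some u) (some a) else 0) else 0) = S0 at e1 ⊢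
        generalize above G Γ p (fun a b => C (some a) (some b)) u = X at hpar ⊢
        generalize above G Γ p (fun a b => C (some a) (some b)) v = Y at hpar ⊢
        generalize C (some u) (some v) = Z at e1 ⊢
        have a2 := zmod2_add_self Y
        linear_combination hpar - e1 + a2
      refine ⟨fun w => match w with
        | none => 0
        | some v => above G Γ p (fun a b => C (some a) (some b)) v, ?_⟩
      rintro (_ | u) (_ | v)
      · intro h; simp [rotD] at h
      · intro h
        have hv : v = r := by simpa [rotD] using h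
        subst hv
        simp only [habove, add_zero]
        rw [hC0]
        simp [cnt, rotD, rotPre]
      · intro h
        rw [mem_rotD_none] at h
        subst h
        simp only [habove, add_zero]
        rw [hC]
        simp [cnt, rotD, rotPre]
      · intro h
        rw [mem_rotD_some] at h
        obtain ⟨hv, hu, huv⟩ := h
        have hne : (p u).1 ≠ (p v).1 := fun h => huv.ne (hx _ _ h)
        rcases lt_or_gt_of_ne hne with hlt | hgt
        · exact main u hu v hv huv hlt
        · have := main v hv u hu huv.symm hgt
          simp only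
          rw [hsym (some u) (some v)]
          rw [add_comm, this]
          ring

end Pool.Agent.CRV
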