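import Pool.Agent.CRV.Targets

set_option autoImplicit false

/-!
# Corner rectangle visibility graphs: SAFES, SAFEE, SAFEW, SAFEN
-/

namespace Pool.Agent.CRV

/-- the possible positions of an allowed rectangle with respect to the element `x` of the
contour -/
theorem allowed_cases {V : Type} (R : V → CornerRect) (A B : List V) (x : V) (Y : CornerRect)
    (h : Allowed R (A ++ x :: B) Y) :
    (Y.r < (R x).r ∧ (R x).l ≤ Y.l ∧ (R x).t < Y.b) ∨
    (∃ f ∈ B, (R f).l ≤ Y.l ∧ (R x).t < Y.b) ∨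
    (Y.r < (R x).l ∧ (R x).t < Y.b) ∨
    (Y.r < (R x).l ∧ Y.t ≤ (R x).t ∧ (R x).b < Y.b) ∨
    (∃ w ∈ A, Y.t ≤ (R w).t ∧ Y.r < (R x).l) := by
  obtain ⟨P, M, Q, hL, hp⟩ := h
  rw [List.append_assoc] at hL
  -- `x` is the head of `Q`
  have c4 : ∀ Q', Q = x :: Q' → (Y.r < (R x).l ∧ Y.t ≤ (R x).t ∧ (R x).b < Y.b) := by
    rintro Q' rfl
    have h1 := hp.right x (by simp)
    exact ⟨h1.1, h1.2, hp.wall x rfl⟩
  have c3 : x ∈ M → (Y.r < (R x).l ∧ (R x).t < Y.b) := fun hx => hp.mid x hx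
  have cons_cases : ∀ S T : List V, x :: B = S ++ T → (S = [] ∧ T = x :: B) ∨
      ∃ S', S = x :: S' ∧ B = S' ++ T := by
    intro S T hST
    cases S with
    | nil => exact Or.inl ⟨rfl, hST.symm⟩
    | cons a S =>
      rw [List.cons_append, List.cons.injEq] at hST
      exact Or.inr ⟨S, by rw [hST.1], hST.2⟩
  rcases List.append_eq_append_iff.1 hL with ⟨a, h1, h2⟩ | ⟨c, h1, h2⟩
  · -- `P = A ++ a`
    rcases cons_cases _ _ h2 with ⟨rfl, h3⟩ | ⟨S, rfl, h3⟩
    · rcases cons_cases _ _ h3.symm with ⟨rfl, h4⟩ | ⟨S, rfl, h4⟩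
      · exact Or.inr (Or.inr (Or.inr (Or.inl (c4 _ h4))))
      · exact Or.inr (Or.inr (Or.inl (c3 (by simp))))
    · rcases List.eq_nil_or_concat S with rfl | ⟨S', f, rfl⟩
      · have h5 := hp.left x (by rw [h1]; simp)
        have h6 := hp.floor x (by rw [h1]; simp)
        exact Or.inl ⟨h6, h5.1, h5.2⟩
      · have h5 := hp.left x (by rw [h1]; simp)
        have h6 := hp.left f (by rw [h1]; simp)
        refine Or.inr (Or.inl ⟨f, ?_, h6.1, h5.2⟩)
        rw [h3]; simp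
  · -- `A = P ++ c`
    rcases List.append_eq_append_iff.1 h2 with ⟨a, h3, h4⟩ | ⟨a, h3, h4⟩
    · -- `c = M ++ a`, `Q = a ++ x :: B`
      cases a with
      | nil => exact Or.inr (Or.inr (Or.inr (Or.inl (c4 B (by simpa using h4)))))
      | cons w a =>
        have h5 := hp.right x (by rw [h4]; simp)
        have h6 := hp.right w (by rw [h4]; simp)
        refine Or.inr (Or.inr (Or.inr (Or.inr ⟨w, ?_, h6.2, h5.1⟩)))
        rw [h1, h3]; simp
    · -- `M = c ++ a`, `x :: B = a ++ Q`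
      rcases cons_cases _ _ h4 with ⟨rfl, h5⟩ | ⟨S, rfl, h5⟩
      · exact Or.inr (Or.inr (Or.inr (Or.inl (c4 _ h5))))
      · exact Or.inr (Or.inr (Or.inl (c3 (by rw [h3]; simp))))

theorem tSAFES : T_SAFES := by
  intro V R A B x _ he Y hY hq
  have hY1 := Y.width
  have hY2 := Y.height
  have hx1 := (R x).width
  have hx2 := (R x).height
  unfold InQuad at hq
  rw [he] at hq
  obtain ⟨q1, q2⟩ := hq
  rcases allowed_cases R A B x Y hY with ⟨h1, h2, h3⟩ | ⟨f, hf, h1, h2⟩ | ⟨h1, h2⟩ |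
    ⟨h1, h2, h3⟩ | ⟨w, hw, h1, h2⟩ <;> linarith

theorem tSAFEE : T_SAFEE := by
  intro V R A B x w _ he k1 k2 k3 hB Y hY
  have hY1 := Y.width
  have hY2 := Y.height
  have hx1 := (R x).width
  have hx2 := (R x).height
  have hw1 := (R w).width
  have hw2 := (R w).height
  have key : InQuad (R x) Y → (R w).l ≤ Y.l ∧ (R x).t < Y.b := by
    intro hq
    unfold InQuad at hq
    rw [he] at hq
    obtain ⟨q1, q2⟩ := hq
    rcases allowed_cases R A B x Y hY with ⟨h1, h2, h3⟩ | ⟨f, hf, h1, h2⟩ | ⟨h1, h2⟩ |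
      ⟨h1, h2, h3⟩ | ⟨w', hw, h1, h2⟩
    · exfalso; linarith
    · exact ⟨(hB f hf).trans h1, h2⟩
    · exfalso; linarith
    · exfalso; linarith
    · exfalso; linarith
  constructor
  · intro hq
    obtain ⟨h1, h2⟩ := key hq
    unfold Dom InQuad
    rw [he]
    refine ⟨⟨by linarith, k2⟩, max_le_max h1 le_rfl, ?_⟩
    rw [max_eq_right k3.le]
    exact le_max_right _ _
  · intro hd
    obtain ⟨h1, h2⟩ := key hd.1
    have hd2 := hd.2
    rw [he] at hd2
    obtain ⟨_, hd3⟩ := hd2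
    rw [max_eq_right k3.le] at hd3
    have := (le_max_left Y.b (R x).t).trans hd3
    linarith

theorem tSAFEW : T_SAFEW := by
  intro V R A B x f _ he k1 k2 k3 hA Y hY
  have hY1 := Y.width
  have hY2 := Y.height
  have hx1 := (R x).width
  have hx2 := (R x).height
  have hf1 := (R f).width
  have hf2 := (R f).height
  have key : InQuad (R x) Y → Y.t ≤ (R f).t ∧ Y.r < (R x).l := by
    intro hq
    unfold InQuad at hq
    rw [he] at hq
    obtain ⟨q1, q2⟩ := hq
    rcases allowed_cases R A B x Y hY with ⟨h1, h2, h3⟩ | ⟨f', hf, h1, h2⟩ | ⟨h1, h2⟩ |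
      ⟨h1, h2, h3⟩ | ⟨w', hw, h1, h2⟩
    · exfalso; linarith
    · exfalso; linarith
    · exfalso; linarith
    · exfalso; linarith
    · exact ⟨h1.trans (hA w' hw), h2⟩
  constructor
  · intro hq
    obtain ⟨h1, h2⟩ := key hq
    unfold Dom InQuad
    rw [he]
    refine ⟨⟨k2, by linarith⟩, ?_, min_le_min h1 le_rfl⟩
    rw [min_eq_right k3.le]
    exact min_le_right _ _
  · intro hd
    obtain ⟨h1, h2⟩ := key hd.1
    have hd2 := hd.2
    rw [he] at hd2
    obtain ⟨hd3, _⟩ := hd2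
    rw [min_eq_right k3.le] at hd3
    have := hd3.trans (min_le_left Y.r (R x).l)
    linarith

theorem tSAFEN : T_SAFEN := by
  intro V R A B x z _ he k1 k2 hA hB Y hY
  have hY1 := Y.width
  have hY2 := Y.height
  have hx1 := (R x).width
  have hx2 := (R x).height
  have hz1 := (R z).width
  have hz2 := (R z).height
  have key : InQuad (R z) Y → (Y.r < (R x).r ∧ (R x).t < Y.b) ∨
      (Y.r < (R x).l ∧ (R x).b < Y.b) := by
    intro hq
    unfold InQuad at hq
    rw [he] at hq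
    obtain ⟨q1, q2⟩ := hq
    rcases allowed_cases R A B x Y hY with ⟨h1, h2, h3⟩ | ⟨f', hf, h1, h2⟩ | ⟨h1, h2⟩ |
      ⟨h1, h2, h3⟩ | ⟨w', hw, h1, h2⟩
    · exact Or.inl ⟨h1, h3⟩
    · exfalso
      have := hB f' hf
      linarith
    · exact Or.inl ⟨by linarith, h2⟩
    · exact Or.inr ⟨h1, h3⟩
    · exfalso
      have := hA w' hw
      linarith
  constructor
  · intro hq
    have h := key hq
    unfold Dom InQuad
    rw [he]
    refine ⟨⟨k1, k2⟩, min_le_min ?_ le_rfl, max_le_max ?_ le_rfl⟩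
    · rcases h with h | h <;> linarith
    · rcases h with h | h <;> linarith
  · intro hd
    have h := key hd.1
    have hd2 := hd.2
    rw [he] at hd2
    obtain ⟨hd3, hd4⟩ := hd2
    rcases h with ⟨h1, h2⟩ | ⟨h1, h2⟩
    · have h5 := (le_max_left Y.b (R z).t).trans hd4
      rcases le_max_iff.1 h5 with h6 | h6 <;> linarith
    · have h5 := hd3.trans (min_le_left Y.r (R z).l)
      rcases min_le_iff.1 h5 with h6 | h6 <;> linarith

end Pool.Agent.CRV
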