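import Pool.Agent.CRV.Targets

set_option autoImplicit false

/-!
# SHEAR: a drawing with different `x`-coordinates
-/

namespace Pool.Agent.CRV

/-- the shear -/
noncomputable def shearMap (e : ℝ) : ℝ × ℝ →ₗ[ℝ] ℝ × ℝ where
  toFun q := (q.1 + e * q.2, q.2)
  map_add' a b := by ext <;> simp; ring
  map_smul' c a := by ext <;> simp; ring

theorem shearMap_inj (e : ℝ) : Function.Injective (shearMap e) := by
  intro a b h
  have h0 : (a.1 + e * a.2, a.2) = (b.1 + e * b.2, b.2) := h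
  obtain ⟨h1, h2⟩ := Prod.mk.inj h0
  rw [h2] at h1
  exact Prod.ext (by linarith) h2

theorem IsDrawing.image {V : Type} {G : SimpleGraph V} {p : V → ℝ × ℝ} (h : IsDrawing G p)
    (T : ℝ × ℝ →ₗ[ℝ] ℝ × ℝ) (hT : Function.Injective T) : IsDrawing G (fun v => T (p v)) := by
  have key : ∀ a b x : ℝ × ℝ, x ∈ segment ℝ (T a) (T b) → ∃ y ∈ segment ℝ a b, T y = x := by
    intro a b x hx
    rw [← LinearMap.coe_toAffineMap, ← image_segment] at hx
    exact hx
  refine ⟨fun a b hab => h.inj (hT hab), ?_, ?_⟩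
  · intro a b c hab hca hcb hc
    obtain ⟨y, hy, hy2⟩ := key _ _ _ hc
    rw [hT hy2] at hy
    exact h.vertex a b c hab hca hcb hy
  · intro a b c d hab hcd hne x hx hx'
    obtain ⟨y, hy, hy2⟩ := key _ _ _ hx
    obtain ⟨z, hz, hz2⟩ := key _ _ _ hx'
    have : z = y := hT (hz2.trans hy2.symm)
    rw [this] at hz
    obtain ⟨v, hv1, hv2, hv3⟩ := h.edge a b c d hab hcd hne y hy hz
    exact ⟨v, hv1, hv2, by rw [← hy2, hv3]⟩

/-- SHEAR -/
theorem tSHEAR : T_SHEAR := by
  intro V _ G hG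
  obtain ⟨p, hp⟩ := hG
  have hfin : (⋃ q : V × V, {e : ℝ | q.1 ≠ q.2 ∧
      (p q.1).1 + e * (p q.1).2 = (p q.2).1 + e * (p q.2).2}).Finite := by
    apply Set.finite_iUnion
    intro q
    apply Set.Subsingleton.finite
    rintro e ⟨hne, he⟩ f ⟨-, hf⟩
    by_contra hef
    have h1 : (e - f) * ((p q.1).2 - (p q.2).2) = 0 := by linarith
    rcases mul_eq_zero.1 h1 with h2 | h2
    · exact hef (by linarith)
    · have h3 : (p q.1).2 = (p q.2).2 := by linarith
      rw [h3] at he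
      exact hne (hp.inj (Prod.ext (by linarith) h3))
  obtain ⟨e, he⟩ := hfin.infinite_compl.nonempty
  refine ⟨fun v => shearMap e (p v), hp.image _ (shearMap_inj e), ?_⟩
  intro a b hab
  by_contra hne
  exact he (Set.mem_iUnion.2 ⟨(a, b), hne, hab⟩)

end Pool.Agent.CRV
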