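import Pool.Agent.CRV.Targets

set_option autoImplicit false

/-!
# SOUTH: a south rectangle sees exactly the contour from the floor to the wall
-/

namespace Pool.Agent.CRV

/-- two different elements of an increasing list are comparable -/
theorem incr_total {V : Type} {R : V → CornerRect} {M : List V}
    (h5 : M.Pairwise fun a b => (R a).l < (R b).l ∧ (R a).t < (R b).t) :
    ∀ a ∈ M, ∀ k ∈ M, a ≠ k → ((R a).l < (R k).l ∧ (R a).t < (R k).t) ∨
      ((R k).l < (R a).l ∧ (R k).t < (R a).t) := by
  intro a ha k hk hak
  have h9 : M.Pairwise fun a k => ((R a).l < (R k).l ∧ (R a).t < (R k).t) ∨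
    ((R k).l < (R a).l ∧ (R k).t < (R a).t) := h5.imp fun h => Or.inl h
  have : Std.Symm fun a k => ((R a).l < (R k).l ∧ (R a).t < (R k).t) ∨
    ((R k).l < (R a).l ∧ (R k).t < (R a).t) := ⟨fun _ _ h => h.symm⟩
  exact List.Pairwise.forall h9 ha hk hak

theorem tSOUTH : T_SOUTH := by
  intro V Γ R P M Q f w X hB hP hX c hc
  obtain ⟨h1, h2, h3⟩ := List.pairwise_append.mp hB.mono
  obtain ⟨h4, h5, h6⟩ := List.pairwise_append.mp h1
  obtain ⟨-, -, h7⟩ := List.pairwise_append.mp h4
  obtain ⟨h8, -⟩ := List.pairwise_cons.mp h2
  have hMM := incr_total h5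
  have hfl := hP.left f (by simp)
  have hff := hP.floor f (by simp)
  have hwr := hP.right w (by simp)
  have hww := hP.wall w (by simp)
  have hXw := X.width
  have hXh := X.height
  have hfw := (R f).width
  have hfh := (R f).height
  have hwh := (R w).height
  have hwW := (R w).width
  have dom : ∀ d e, Dom X (R d) (R e) ↔ (X.r ≤ (R d).r ∧ (R d).b ≤ X.b) ∧
      max (R d).l X.r ≤ max (R e).l X.r ∧ min (R e).t X.b ≤ min (R d).t X.b := by
    intro d e; unfold Dom InQuad; rw [hX]
  have inq : ∀ d, InQuad X (R d) ↔ X.r ≤ (R d).r ∧ (R d).b ≤ X.b := by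
    intro d; unfold InQuad; rw [hX]
  -- `f` dominates
  have domf : ∀ e, (R e).t ≤ (R f).t → Dom X (R f) (R e) := by
    intro e he
    rw [dom]
    refine ⟨⟨hff.le, by linarith⟩, ?_, ?_⟩
    · rw [max_eq_right (by linarith)]; exact le_max_right _ _
    · exact min_le_min_right _ he
  have domw : ∀ e, (R w).l ≤ (R e).l → Dom X (R w) (R e) := by
    intro e he
    rw [dom]
    refine ⟨⟨by linarith, hww.le⟩, max_le_max_right _ he, ?_⟩
    rw [min_eq_right (a := (R w).t) (by linarith)]; exact min_le_right _ _
  constructor
  · rintro ⟨hq, hd⟩
    obtain ⟨a, ha, hal, hat⟩ := hB.shadow c hc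
    by_contra hcon
    push Not at hcon
    obtain ⟨hcf, hcM, hcw⟩ := hcon
    rw [List.mem_append, List.mem_append, List.mem_append] at ha
    rcases ha with ((ha | ha) | ha) | ha
    · have := h7 a ha f (by simp)
      exact hd f (hB.sub f (by simp)) hcf.symm (domf c (by linarith))
    · rw [List.mem_singleton] at ha
      subst ha
      exact hd a (hB.sub a (by simp)) hcf.symm (domf c hat)
    · have hac : a ≠ c := fun h => hcM (h ▸ ha)
      refine hd a (hB.sub a (by simp [ha])) hac ?_
      rw [dom]
      have hm := hP.mid a ha
      have hw' := (R a).width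
      have hh' := (R a).height
      exact ⟨⟨by linarith, by linarith⟩, max_le_max_right _ hal, min_le_min_right _ hat⟩
    · rw [List.mem_cons] at ha
      refine hd w (hB.sub w (by simp)) hcw.symm (domw c ?_)
      rcases ha with rfl | ha
      · exact hal
      · have := h8 a ha
        linarith
  · intro hk
    have hin : InQuad X (R c) := by
      rw [inq]
      rcases hk with rfl | hk | rfl
      · exact ⟨hff.le, by linarith⟩
      · have hm := hP.mid c hk
        have hw' := (R c).width
        have hh' := (R c).height
        exact ⟨by linarith, by linarith⟩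
      · exact ⟨by linarith, hww.le⟩
    refine ⟨hin, ?_⟩
    intro d hd hdc hD
    rw [dom] at hD
    obtain ⟨⟨hD1, hD2⟩, hD3, hD4⟩ := hD
    obtain ⟨a, ha, hal, hat⟩ := hB.shadow d hd
    -- `a` before `c`
    have before : (R a).t < (R c).t → (R a).t < X.b → False := by
      intro h10 h11
      have : min (R d).t X.b ≤ (R a).t := (min_le_left _ _).trans hat
      have : (R a).t < min (R c).t X.b := lt_min h10 h11
      linarith
    have after : (R c).l < (R a).l → X.r < (R a).l → False := by
      intro h10 h11
      have : (R a).l ≤ max (R d).l X.r := hal.trans (le_max_left _ _)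
      have : max (R c).l X.r < (R a).l := max_lt h10 h11
      linarith
    have hap := hB.apart d hd c hc hdc
    have hdw := (R d).width
    have hdh := (R d).height
    rw [List.mem_append, List.mem_append, List.mem_append, List.mem_singleton, List.mem_cons] at ha
    rcases hk with rfl | hk | rfl
    · -- `c` is the floor
      rcases ha with ((ha | rfl) | ha) | rfl | ha
      · exact before (h7 a ha c (by simp)).2 (hP.left a (by simp [ha])).2
      · rw [max_eq_right (a := (R a).l) (by linarith)] at hD3
        rw [min_eq_left (a := (R a).t) (by linarith)] at hD4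
        have h12 := le_min_iff.mp hD4
        have h13 := max_le_iff.mp hD3
        rcases hap with h | h | h | h <;> linarith [h12.1, h13.1]
      · exact after (h6 c (by simp) a ha).1 (hP.mid a ha).1
      · exact after (h3 c (by simp) a (by simp)).1 hwr.1
      · exact after (h3 c (by simp) a (by simp [ha])).1 (hP.right a (by simp [ha])).1
    · have hcm := hP.mid c hk
      rcases ha with ((ha | rfl) | ha) | rfl | ha
      · exact before (h6 a (by simp [ha]) c hk).2 (hP.left a (by simp [ha])).2
      · exact before (h6 a (by simp) c hk).2 hfl.2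
      · by_cases hac : a = c
        · subst hac
          have hw' := (R a).width
          have hh' := (R a).height
          rw [max_eq_left (a := (R a).l) (by linarith)] at hD3
          rw [min_eq_left (a := (R a).t) (by linarith)] at hD4
          have h12 := le_min_iff.mp hD4
          have h13 := max_le_iff.mp hD3
          rcases hap with h | h | h | h <;> linarith [h12.1, h13.1]
        · rcases hMM a ha c hk hac with h | h
          · exact before h.2 (hP.mid a ha).2
          · exact after h.1 (hP.mid a ha).1
      · exact after (h3 c (by simp [hk]) a (by simp)).1 hwr.1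
      · exact after (h3 c (by simp [hk]) a (by simp [ha])).1 (hP.right a (by simp [ha])).1
    · rcases ha with ((ha | rfl) | ha) | rfl | ha
      · exact before (h3 a (by simp [ha]) c (by simp)).2 (hP.left a (by simp [ha])).2
      · exact before (h3 a (by simp) c (by simp)).2 hfl.2
      · exact before (h3 a (by simp [ha]) c (by simp)).2 (hP.mid a ha).2
      · rw [max_eq_left (a := (R a).l) (by linarith)] at hD3
        rw [min_eq_right (a := (R a).t) (by linarith)] at hD4
        have h12 := le_min_iff.mp hD4
        have h13 := max_le_iff.mp hD3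
        rcases hap with h | h | h | h <;> linarith [h12.1, h13.1]
      · exact after (h8 a ha).1 (hP.right a (by simp [ha])).1

end Pool.Agent.CRV
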