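import Pool.Agent.CRV.Targets

set_option autoImplicit false

/-!
# VIS: the discrete form of `Sees`
-/

namespace Pool.Agent.CRV

/-- the arithmetic core, for the eye at the upper right corner -/
theorem vis_core {V : Type} [Finite V] (xl xr yl yr : V → ℝ) (hx : ∀ v, xl v < xr v)
    (hy : ∀ v, yl v < yr v)
    (hap : ∀ u v, u ≠ v → xr u < xl v ∨ xr v < xl u ∨ yr u < yl v ∨ yr v < yl u)
    (a b : V) (hab : a ≠ b) :
    (∃ w h : ℝ, 0 < w ∧ 0 < h ∧
      (xr a ≤ xr b ∧ xl b ≤ xr a + w ∧ yr a ≤ yr b ∧ yl b ≤ yr a + h) ∧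
      ¬ (xr a < xr b ∧ xl b < xr a + w ∧ yr a < yr b ∧ yl b < yr a + h) ∧
      ∀ d, d ≠ a → d ≠ b →
        ¬ (xr a ≤ xr d ∧ xl d ≤ xr a + w ∧ yr a ≤ yr d ∧ yl d ≤ yr a + h)) ↔
    (xr a ≤ xr b ∧ yr a ≤ yr b) ∧ ∀ d, d ≠ a → d ≠ b →
      ¬ ((xr a ≤ xr d ∧ yr a ≤ yr d) ∧ max (xl d) (xr a) ≤ max (xl b) (xr a) ∧
        max (yl d) (yr a) ≤ max (yl b) (yr a)) := by
  constructor
  · rintro ⟨w, h, hw, hh, ⟨h1, h2, h3, h4⟩, -, h6⟩
    refine ⟨⟨h1, h3⟩, fun d hda hdb hd => h6 d hda hdb ⟨hd.1.1, ?_, hd.1.2, ?_⟩⟩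
    · have := le_max_left (xl d) (xr a)
      have h7 : max (xl b) (xr a) ≤ xr a + w := max_le h2 (by linarith)
      linarith [hd.2.1]
    · have := le_max_left (yl d) (yr a)
      have h7 : max (yl b) (yr a) ≤ yr a + h := max_le h4 (by linarith)
      linarith [hd.2.2]
  · rintro ⟨⟨h1, h3⟩, h6⟩
    have heps : ∀ f : V → ℝ, ∃ ε : ℝ, 0 < ε ∧ ∀ d, 0 < f d → ε < f d := by
      intro f
      classical
      cases nonempty_fintype V
      by_cases hne : (Finset.univ.filter fun d => 0 < f d).Nonempty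
      · obtain ⟨m, hm, hmin⟩ := Finset.exists_min_image _ f hne
        refine ⟨f m / 2, by linarith [(Finset.mem_filter.1 hm).2], fun d hd => ?_⟩
        have h8 := hmin d (Finset.mem_filter.2 ⟨Finset.mem_univ _, hd⟩)
        linarith [(Finset.mem_filter.1 hm).2]
      · refine ⟨1, one_pos, fun d hd => ?_⟩
        exact absurd ⟨d, Finset.mem_filter.2 ⟨Finset.mem_univ _, hd⟩⟩ hne
    obtain ⟨e1, he1, he1'⟩ := heps (fun d => xl d - xr a)
    obtain ⟨e2, he2, he2'⟩ := heps (fun d => yl d - yr a)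
    have hor : xr a < xl b ∨ yr a < yl b := by
      rcases hap a b hab with h | h | h | h
      · exact Or.inl h
      · have := hx a; exfalso; linarith
      · exact Or.inr h
      · have := hy a; exfalso; linarith
    have hw : ∃ w : ℝ, 0 < w ∧ xl b ≤ xr a + w ∧ (xr a < xl b → ¬ xl b < xr a + w) ∧
        ∀ d, xl d ≤ xr a + w → max (xl d) (xr a) ≤ max (xl b) (xr a) := by
      by_cases hc : xr a < xl b
      · refine ⟨xl b - xr a, by linarith, by linarith, fun _ => by linarith, fun d hd => ?_⟩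
        exact max_le_max (by linarith) le_rfl
      · refine ⟨e1, he1, by linarith, fun h => absurd h hc, fun d hd => ?_⟩
        have h9 : ¬ (0 < xl d - xr a) := fun h => by
          have := he1' d h
          linarith
        exact max_le (le_trans (by linarith) (le_max_right _ _)) (le_max_right _ _)
    have hh : ∃ h : ℝ, 0 < h ∧ yl b ≤ yr a + h ∧ (yr a < yl b → ¬ yl b < yr a + h) ∧
        ∀ d, yl d ≤ yr a + h → max (yl d) (yr a) ≤ max (yl b) (yr a) := by
      by_cases hc : yr a < yl b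
      · refine ⟨yl b - yr a, by linarith, by linarith, fun _ => by linarith, fun d hd => ?_⟩
        exact max_le_max (by linarith) le_rfl
      · refine ⟨e2, he2, by linarith, fun h => absurd h hc, fun d hd => ?_⟩
        have h9 : ¬ (0 < yl d - yr a) := fun h => by
          have := he2' d h
          linarith
        exact max_le (le_trans (by linarith) (le_max_right _ _)) (le_max_right _ _)
    obtain ⟨w, hw0, hw1, hw2, hw3⟩ := hw
    obtain ⟨h, hh0, hh1, hh2, hh3⟩ := hh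
    refine ⟨w, h, hw0, hh0, ⟨h1, hw1, h3, hh1⟩, ?_, ?_⟩
    · rintro ⟨-, k2, -, k4⟩
      rcases hor with h5 | h5
      · exact hw2 h5 k2
      · exact hh2 h5 k4
    · rintro d hda hdb ⟨k1, k2, k3, k4⟩
      exact h6 d hda hdb ⟨⟨k1, k3⟩, hw3 d k2, hh3 d k4⟩

theorem inter_nonempty (P C : Rect) : (P.pts ∩ C.pts).Nonempty ↔
    P.l ≤ C.r ∧ C.l ≤ P.r ∧ P.b ≤ C.t ∧ C.b ≤ P.t := by
  constructor
  · rintro ⟨x, hx, hy⟩
    simp only [Rect.pts, Set.mem_prod, Set.mem_Icc] at hx hy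
    exact ⟨by linarith [hx.1.1, hy.1.2], by linarith [hx.1.2, hy.1.1],
      by linarith [hx.2.1, hy.2.2], by linarith [hx.2.2, hy.2.1]⟩
  · rintro ⟨h1, h2, h3, h4⟩
    refine ⟨(max P.l C.l, max P.b C.b), ?_, ?_⟩
    · exact ⟨⟨le_max_left _ _, max_le P.width.le h2⟩, ⟨le_max_left _ _, max_le P.height.le h4⟩⟩
    · exact ⟨⟨le_max_right _ _, max_le h1 C.width.le⟩, ⟨le_max_right _ _, max_le h3 C.height.le⟩⟩

theorem inter_frontier (P C : Rect) : P.pts ∩ C.pts ⊆ frontier C.pts ↔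
    ¬ (P.l < C.r ∧ C.l < P.r ∧ P.b < C.t ∧ C.b < P.t) := by
  have hcl : IsClosed C.pts := isClosed_Icc.prod isClosed_Icc
  have hint : interior C.pts = Set.Ioo C.l C.r ×ˢ Set.Ioo C.b C.t := by
    unfold Rect.pts
    rw [interior_prod_eq, interior_Icc, interior_Icc]
  rw [hcl.frontier_eq, hint]
  constructor
  · rintro h ⟨h1, h2, h3, h4⟩
    have a1 : max P.l C.l < min P.r C.r :=
      max_lt (lt_min P.width h1) (lt_min h2 C.width)
    have a2 : max P.b C.b < min P.t C.t :=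
      max_lt (lt_min P.height h3) (lt_min h4 C.height)
    obtain ⟨x, hx1, hx2⟩ := exists_between a1
    obtain ⟨y, hy1, hy2⟩ := exists_between a2
    rw [max_lt_iff] at hx1 hy1
    rw [lt_min_iff] at hx2 hy2
    have hmem : (x, y) ∈ P.pts ∩ C.pts :=
      ⟨⟨⟨hx1.1.le, hx2.1.le⟩, ⟨hy1.1.le, hy2.1.le⟩⟩, ⟨⟨hx1.2.le, hx2.2.le⟩, ⟨hy1.2.le, hy2.2.le⟩⟩⟩
    exact (h hmem).2 ⟨⟨hx1.2, hx2.2⟩, ⟨hy1.2, hy2.2⟩⟩
  · rintro h x ⟨hx, hy⟩
    refine ⟨hy, fun hz => h ?_⟩
    simp only [Rect.pts, Set.mem_prod, Set.mem_Icc, Set.mem_Ioo] at hx hz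
    exact ⟨by linarith [hx.1.1, hz.1.2], by linarith [hx.1.2, hz.1.1],
      by linarith [hx.2.1, hz.2.2], by linarith [hx.2.2, hz.2.1]⟩

theorem inter_empty (P C : Rect) : P.pts ∩ C.pts = ∅ ↔
    ¬ (P.l ≤ C.r ∧ C.l ≤ P.r ∧ P.b ≤ C.t ∧ C.b ≤ P.t) := by
  rw [← inter_nonempty, Set.not_nonempty_iff_eq_empty]

theorem mem_pts (P : Rect) (x y : ℝ) : (x, y) ∈ P.pts ↔ (P.l ≤ x ∧ x ≤ P.r) ∧ P.b ≤ y ∧ y ≤ P.t :=
  Iff.rfl

/-- two rectangles which meet in a corner `e` of both are on different sides of `e` -/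
theorem corner_sides (P A : Rect) (e : ℝ × ℝ) (h : P.pts ∩ A.pts = {e}) :
    ¬ (P.l < e.1 ∧ A.l < e.1) ∧ ¬ (e.1 < P.r ∧ e.1 < A.r) ∧
    ¬ (P.b < e.2 ∧ A.b < e.2) ∧ ¬ (e.2 < P.t ∧ e.2 < A.t) := by
  have he : e ∈ P.pts ∩ A.pts := by rw [h]; exact rfl
  have h1 : (e.1, e.2) ∈ P.pts := he.1
  have h2 : (e.1, e.2) ∈ A.pts := he.2
  rw [mem_pts] at h1 h2
  have key : ∀ x y, (x, y) ∈ P.pts → (x, y) ∈ A.pts → x = e.1 ∧ y = e.2 := by
    intro x y hp ha
    have : (x, y) ∈ P.pts ∩ A.pts := ⟨hp, ha⟩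
    rw [h] at this
    have h3 : (x, y) = e := this
    rw [← h3]
    exact ⟨rfl, rfl⟩
  refine ⟨?_, ?_, ?_, ?_⟩
  · rintro ⟨k1, k2⟩
    have := (key (max P.l A.l) e.2
      ⟨⟨le_max_left _ _, max_le P.width.le (by linarith [h1.1.2])⟩, h1.2⟩
      ⟨⟨le_max_right _ _, max_le (by linarith [h2.1.2]) A.width.le⟩, h2.2⟩).1
    have h5 : max P.l A.l < e.1 := max_lt k1 k2
    linarith
  · rintro ⟨k1, k2⟩
    have := (key (min P.r A.r) e.2
      ⟨⟨le_min P.width.le (by linarith [h1.1.1]), min_le_left _ _⟩, h1.2⟩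
      ⟨⟨le_min (by linarith [h2.1.1]) A.width.le, min_le_right _ _⟩, h2.2⟩).1
    have h5 : e.1 < min P.r A.r := lt_min k1 k2
    linarith
  · rintro ⟨k1, k2⟩
    have := (key e.1 (max P.b A.b)
      ⟨h1.1, ⟨le_max_left _ _, max_le P.height.le (by linarith [h1.2.2])⟩⟩
      ⟨h2.1, ⟨le_max_right _ _, max_le (by linarith [h2.2.2]) A.height.le⟩⟩).2
    have h5 : max P.b A.b < e.2 := max_lt k1 k2
    linarith
  · rintro ⟨k1, k2⟩
    have := (key e.1 (min P.t A.t)
      ⟨h1.1, ⟨le_min P.height.le (by linarith [h1.2.1]), min_le_left _ _⟩⟩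
      ⟨h2.1, ⟨le_min (by linarith [h2.2.1]) A.height.le, min_le_right _ _⟩⟩).2
    have h5 : e.2 < min P.t A.t := lt_min k1 k2
    linarith

theorem inter_single (P A : Rect) (e : ℝ × ℝ) (hP : e ∈ P.pts) (hA : e ∈ A.pts)
    (hx : (P.r = e.1 ∧ A.l = e.1) ∨ (P.l = e.1 ∧ A.r = e.1))
    (hy : (P.t = e.2 ∧ A.b = e.2) ∨ (P.b = e.2 ∧ A.t = e.2)) : P.pts ∩ A.pts = {e} := by
  ext x
  constructor
  · rintro ⟨h1, h2⟩
    simp only [Rect.pts, Set.mem_prod, Set.mem_Icc] at h1 h2
    have k1 : x.1 = e.1 := by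
      rcases hx with ⟨u, v⟩ | ⟨u, v⟩
      · exact le_antisymm (by linarith [h1.1.2]) (by linarith [h2.1.1])
      · exact le_antisymm (by linarith [h2.1.2]) (by linarith [h1.1.1])
    have k2 : x.2 = e.2 := by
      rcases hy with ⟨u, v⟩ | ⟨u, v⟩
      · exact le_antisymm (by linarith [h1.2.2]) (by linarith [h2.2.1])
      · exact le_antisymm (by linarith [h2.2.2]) (by linarith [h1.2.1])
    exact Prod.ext k1 k2
  · intro h
    have : x = e := h
    rw [this]
    exact ⟨hP, hA⟩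

/-- the rectangle `Q` touches `A` at the eye of `A` -/
def AtEye (A : CornerRect) (Q : Rect) : Prop :=
  match A.eyeAt with
  | .north => Q.r = A.l ∧ Q.b = A.t
  | .west => Q.r = A.l ∧ Q.t = A.b
  | .south => Q.l = A.r ∧ Q.t = A.b
  | .east => Q.l = A.r ∧ Q.b = A.t

theorem atEye_iff (A : CornerRect) (Q : Rect) :
    ((∃ c, Q.corner c = A.eye) ∧ Q.pts ∩ A.pts = {A.eye}) ↔ AtEye A Q := by
  have wa := A.width
  have ha := A.height
  have wq := Q.width
  have hq := Q.height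
  constructor
  · rintro ⟨⟨c, hc⟩, h⟩
    have hs := corner_sides Q A.toRect A.eye h
    obtain ⟨s1, s2, s3, s4⟩ := hs
    unfold AtEye
    unfold CornerRect.eye at hc s1 s2 s3 s4
    rcases he : A.eyeAt with _ | _ | _ | _ <;> rw [he] at hc s1 s2 s3 s4 <;>
      rcases c with _ | _ | _ | _ <;>
      simp only [Rect.corner, Prod.mk.injEq, not_and, not_lt] at hc s1 s2 s3 s4 ⊢ <;>
      (obtain ⟨c1, c2⟩ := hc
       first
        | exact ⟨c1, c2⟩
        | (exfalso; have := s1 (by linarith); linarith)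
        | (exfalso; have := s2 (by linarith); linarith)
        | (exfalso; have := s3 (by linarith); linarith)
        | (exfalso; have := s4 (by linarith); linarith))
  · intro h
    unfold AtEye at h
    unfold CornerRect.eye
    rcases he : A.eyeAt with _ | _ | _ | _ <;> rw [he] at h <;> simp only at h <;>
      obtain ⟨h1, h2⟩ := h
    · refine ⟨⟨.south, by simp only [Rect.corner, h1, h2]⟩, inter_single _ _ _ ?_ ?_ ?_ ?_⟩
      · exact ⟨⟨by simp only [Rect.corner]; linarith, by simp only [Rect.corner]; linarith⟩,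
          ⟨by simp only [Rect.corner]; linarith, by simp only [Rect.corner]; linarith⟩⟩
      · exact ⟨⟨by simp only [Rect.corner]; linarith, by simp only [Rect.corner]; linarith⟩,
          ⟨by simp only [Rect.corner]; linarith, by simp only [Rect.corner]; linarith⟩⟩
      · exact Or.inl ⟨h1, rfl⟩
      · exact Or.inr ⟨h2, rfl⟩
    · refine ⟨⟨.east, by simp only [Rect.corner, h1, h2]⟩, inter_single _ _ _ ?_ ?_ ?_ ?_⟩
      · exact ⟨⟨by simp only [Rect.corner]; linarith, by simp only [Rect.corner]; linarith⟩,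
          ⟨by simp only [Rect.corner]; linarith, by simp only [Rect.corner]; linarith⟩⟩
      · exact ⟨⟨by simp only [Rect.corner]; linarith, by simp only [Rect.corner]; linarith⟩,
          ⟨by simp only [Rect.corner]; linarith, by simp only [Rect.corner]; linarith⟩⟩
      · exact Or.inl ⟨h1, rfl⟩
      · exact Or.inl ⟨h2, rfl⟩
    · refine ⟨⟨.north, by simp only [Rect.corner, h1, h2]⟩, inter_single _ _ _ ?_ ?_ ?_ ?_⟩
      · exact ⟨⟨by simp only [Rect.corner]; linarith, by simp only [Rect.corner]; linarith⟩,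
          ⟨by simp only [Rect.corner]; linarith, by simp only [Rect.corner]; linarith⟩⟩
      · exact ⟨⟨by simp only [Rect.corner]; linarith, by simp only [Rect.corner]; linarith⟩,
          ⟨by simp only [Rect.corner]; linarith, by simp only [Rect.corner]; linarith⟩⟩
      · exact Or.inr ⟨h1, rfl⟩
      · exact Or.inl ⟨h2, rfl⟩
    · refine ⟨⟨.west, by simp only [Rect.corner, h1, h2]⟩, inter_single _ _ _ ?_ ?_ ?_ ?_⟩
      · exact ⟨⟨by simp only [Rect.corner]; linarith, by simp only [Rect.corner]; linarith⟩,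
          ⟨by simp only [Rect.corner]; linarith, by simp only [Rect.corner]; linarith⟩⟩
      · exact ⟨⟨by simp only [Rect.corner]; linarith, by simp only [Rect.corner]; linarith⟩,
          ⟨by simp only [Rect.corner]; linarith, by simp only [Rect.corner]; linarith⟩⟩
      · exact Or.inr ⟨h1, rfl⟩
      · exact Or.inr ⟨h2, rfl⟩

/-- `Q` meets `C` -/
def Meets (Q C : Rect) : Prop := Q.l ≤ C.r ∧ C.l ≤ Q.r ∧ Q.b ≤ C.t ∧ C.b ≤ Q.t

/-- the interiors of `Q` and `C` meet -/
def MeetsInt (Q C : Rect) : Prop := Q.l < C.r ∧ C.l < Q.r ∧ Q.b < C.t ∧ C.b < Q.t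

theorem sees_iff {V : Type} (R : V → CornerRect) (a b : V) : Sees R a b ↔
    ∃ Q : Rect, AtEye (R a) Q ∧ Meets Q (R b).toRect ∧ ¬ MeetsInt Q (R b).toRect ∧
      ∀ d, d ≠ a → d ≠ b → ¬ Meets Q (R d).toRect := by
  unfold Sees
  refine exists_congr fun Q => ?_
  rw [← and_assoc, atEye_iff, inter_nonempty, inter_frontier]
  refine and_congr Iff.rfl (and_congr Iff.rfl (and_congr Iff.rfl ?_))
  refine forall_congr' fun d => forall_congr' fun _ => forall_congr' fun _ => ?_
  rw [inter_empty]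
  exact Iff.rfl

theorem tVIS : T_VIS := by
  intro V _ R hap a b hab
  have hxw : ∀ v, (R v).l < (R v).r := fun v => (R v).width
  have hyw : ∀ v, (R v).b < (R v).t := fun v => (R v).height
  have hxw' : ∀ v, -(R v).r < -(R v).l := fun v => neg_lt_neg (hxw v)
  have hyw' : ∀ v, -(R v).t < -(R v).b := fun v => neg_lt_neg (hyw v)
  rw [sees_iff]
  unfold Vis
  rcases he : (R a).eyeAt with _ | _ | _ | _
  · -- north
    have hcore := vis_core (fun v => -(R v).r) (fun v => -(R v).l) (fun v => (R v).b)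
      (fun v => (R v).t) hxw' hyw
      (fun u v huv => by
        have := hap u v huv
        unfold Apart at this
        simp only [neg_lt_neg_iff]
        tauto) a b hab
    simp only [neg_le_neg_iff, neg_lt_neg_iff, max_neg_neg] at hcore
    simp only [InQuad, Dom, AtEye, he, Meets, MeetsInt, Set.mem_univ, forall_true_left]
    refine Iff.trans ⟨?_, ?_⟩ hcore
    · rintro ⟨Q, ⟨h1, h2⟩, h3, h4, h5⟩
      refine ⟨Q.r - Q.l, Q.t - Q.b, by linarith [Q.width], by linarith [Q.height], ?_, ?_, ?_⟩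
      · refine ⟨?_, ?_, ?_, ?_⟩ <;> linarith [h3.1, h3.2.1, h3.2.2.1, h3.2.2.2]
      · rintro ⟨k1, k2, k3, k4⟩
        exact h4 ⟨by linarith, by linarith, by linarith, by linarith⟩
      · rintro d hda hdb ⟨k1, k2, k3, k4⟩
        exact h5 d hda hdb ⟨by linarith, by linarith, by linarith, by linarith⟩
    · rintro ⟨w, h, hw, hh, h3, h4, h5⟩
      refine ⟨⟨(R a).l - w, (R a).l, (R a).t, (R a).t + h, by linarith, by linarith⟩,
        ⟨rfl, rfl⟩, ?_, ?_, ?_⟩
      · refine ⟨?_, ?_, ?_, ?_⟩ <;> simp only <;> linarith [h3.1, h3.2.1, h3.2.2.1, h3.2.2.2]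
      · rintro ⟨k1, k2, k3, k4⟩
        simp only at k1 k2 k3 k4
        exact h4 ⟨by linarith, by linarith, by linarith, by linarith⟩
      · rintro d hda hdb ⟨k1, k2, k3, k4⟩
        simp only at k1 k2 k3 k4
        exact h5 d hda hdb ⟨by linarith, by linarith, by linarith, by linarith⟩
  · -- west
    have hcore := vis_core (fun v => -(R v).r) (fun v => -(R v).l) (fun v => -(R v).t)
      (fun v => -(R v).b) hxw' hyw'
      (fun u v huv => by
        have := hap u v huv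
        unfold Apart at this
        simp only [neg_lt_neg_iff]
        tauto) a b hab
    simp only [neg_le_neg_iff, neg_lt_neg_iff, max_neg_neg] at hcore
    simp only [InQuad, Dom, AtEye, he, Meets, MeetsInt, Set.mem_univ, forall_true_left]
    refine Iff.trans ⟨?_, ?_⟩ hcore
    · rintro ⟨Q, ⟨h1, h2⟩, h3, h4, h5⟩
      refine ⟨Q.r - Q.l, Q.t - Q.b, by linarith [Q.width], by linarith [Q.height], ?_, ?_, ?_⟩
      · refine ⟨?_, ?_, ?_, ?_⟩ <;> linarith [h3.1, h3.2.1, h3.2.2.1, h3.2.2.2]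
      · rintro ⟨k1, k2, k3, k4⟩
        exact h4 ⟨by linarith, by linarith, by linarith, by linarith⟩
      · rintro d hda hdb ⟨k1, k2, k3, k4⟩
        exact h5 d hda hdb ⟨by linarith, by linarith, by linarith, by linarith⟩
    · rintro ⟨w, h, hw, hh, h3, h4, h5⟩
      refine ⟨⟨(R a).l - w, (R a).l, (R a).b - h, (R a).b, by linarith, by linarith⟩,
        ⟨rfl, rfl⟩, ?_, ?_, ?_⟩
      · refine ⟨?_, ?_, ?_, ?_⟩ <;> simp only <;> linarith [h3.1, h3.2.1, h3.2.2.1, h3.2.2.2]
      · rintro ⟨k1, k2, k3, k4⟩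
        simp only at k1 k2 k3 k4
        exact h4 ⟨by linarith, by linarith, by linarith, by linarith⟩
      · rintro d hda hdb ⟨k1, k2, k3, k4⟩
        simp only at k1 k2 k3 k4
        exact h5 d hda hdb ⟨by linarith, by linarith, by linarith, by linarith⟩
  · -- south
    have hcore := vis_core (fun v => (R v).l) (fun v => (R v).r) (fun v => -(R v).t)
      (fun v => -(R v).b) hxw hyw'
      (fun u v huv => by
        have := hap u v huv
        unfold Apart at this
        simp only [neg_lt_neg_iff]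
        tauto) a b hab
    simp only [neg_le_neg_iff, neg_lt_neg_iff, max_neg_neg] at hcore
    simp only [InQuad, Dom, AtEye, he, Meets, MeetsInt, Set.mem_univ, forall_true_left]
    refine Iff.trans ⟨?_, ?_⟩ hcore
    · rintro ⟨Q, ⟨h1, h2⟩, h3, h4, h5⟩
      refine ⟨Q.r - Q.l, Q.t - Q.b, by linarith [Q.width], by linarith [Q.height], ?_, ?_, ?_⟩
      · refine ⟨?_, ?_, ?_, ?_⟩ <;> linarith [h3.1, h3.2.1, h3.2.2.1, h3.2.2.2]
      · rintro ⟨k1, k2, k3, k4⟩
        exact h4 ⟨by linarith, by linarith, by linarith, by linarith⟩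
      · rintro d hda hdb ⟨k1, k2, k3, k4⟩
        exact h5 d hda hdb ⟨by linarith, by linarith, by linarith, by linarith⟩
    · rintro ⟨w, h, hw, hh, h3, h4, h5⟩
      refine ⟨⟨(R a).r, (R a).r + w, (R a).b - h, (R a).b, by linarith, by linarith⟩,
        ⟨rfl, rfl⟩, ?_, ?_, ?_⟩
      · refine ⟨?_, ?_, ?_, ?_⟩ <;> simp only <;> linarith [h3.1, h3.2.1, h3.2.2.1, h3.2.2.2]
      · rintro ⟨k1, k2, k3, k4⟩
        simp only at k1 k2 k3 k4
        exact h4 ⟨by linarith, by linarith, by linarith, by linarith⟩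
      · rintro d hda hdb ⟨k1, k2, k3, k4⟩
        simp only at k1 k2 k3 k4
        exact h5 d hda hdb ⟨by linarith, by linarith, by linarith, by linarith⟩
  · -- east
    have hcore := vis_core (fun v => (R v).l) (fun v => (R v).r) (fun v => (R v).b)
      (fun v => (R v).t) hxw hyw
      (fun u v huv => by
        have := hap u v huv
        unfold Apart at this
        tauto) a b hab
    simp only [InQuad, Dom, AtEye, he, Meets, MeetsInt, Set.mem_univ, forall_true_left]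
    refine Iff.trans ⟨?_, ?_⟩ hcore
    · rintro ⟨Q, ⟨h1, h2⟩, h3, h4, h5⟩
      refine ⟨Q.r - Q.l, Q.t - Q.b, by linarith [Q.width], by linarith [Q.height], ?_, ?_, ?_⟩
      · refine ⟨?_, ?_, ?_, ?_⟩ <;> linarith [h3.1, h3.2.1, h3.2.2.1, h3.2.2.2]
      · rintro ⟨k1, k2, k3, k4⟩
        exact h4 ⟨by linarith, by linarith, by linarith, by linarith⟩
      · rintro d hda hdb ⟨k1, k2, k3, k4⟩
        exact h5 d hda hdb ⟨by linarith, by linarith, by linarith, by linarith⟩
    · rintro ⟨w, h, hw, hh, h3, h4, h5⟩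
      refine ⟨⟨(R a).r, (R a).r + w, (R a).t, (R a).t + h, by linarith, by linarith⟩,
        ⟨rfl, rfl⟩, ?_, ?_, ?_⟩
      · refine ⟨?_, ?_, ?_, ?_⟩ <;> simp only <;> linarith [h3.1, h3.2.1, h3.2.2.1, h3.2.2.2]
      · rintro ⟨k1, k2, k3, k4⟩
        simp only at k1 k2 k3 k4
        exact h4 ⟨by linarith, by linarith, by linarith, by linarith⟩
      · rintro d hda hdb ⟨k1, k2, k3, k4⟩
        simp only at k1 k2 k3 k4
        exact h5 d hda hdb ⟨by linarith, by linarith, by linarith, by linarith⟩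

end Pool.Agent.CRV
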