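import Pool.Agent.CRV.STEP
import Pool.Agent.CRV.EW
import Pool.Agent.CRV.SAFE
import Pool.Agent.CRV.SOUTH
import Pool.Agent.CRV.DECR
import Pool.Agent.CRV.COORD
import Pool.Agent.CRV.REC
import Pool.Agent.CRV.VIS
import Pool.Agent.CRV.CROSS
import Pool.Agent.CRV.GOOD
import Pool.Agent.CRV.CONTR
import Pool.Agent.CRV.ORDER
import Pool.Agent.CRV.SHEAR
import Pool.Agent.CRV.PARITY
import Pool.Agent.CRV.ROT
import Pool.Agent.CRV.ALL

set_option autoImplicit false

/-!
# Every planar graph is a corner rectangle visibility graph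
-/

namespace Pool.Agent.CRV

theorem main {V : Type} [Finite V] (G : SimpleGraph V) (h : IsPlanar G) : IsCRVG G := by
  have hstep : T_STEP := tSTEP tSOUTH tEAST tWEST tNORTH tSAFES tSAFEE tSAFEW tSAFEN tDECR tCOORD
  have hord : T_ORDER := tORDER tCROSS tGOOD tCONTR
  obtain ⟨L, hL⟩ := tALL tSHEAR (tROT tPARITY) hord tUNION V G h
  exact tREC hstep tVIS V G L hL

end Pool.Agent.CRV
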