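import Pool.Agent.CRV.Targets

set_option autoImplicit false

/-!
# CRV-STEP
-/

namespace Pool.Agent.CRV

variable {V : Type}

theorem Apart.symm {A B : CornerRect} (h : Apart A B) : Apart B A := by
  unfold Apart at *
  tauto

theorem vis_new {Γ : Set V} {R : V → CornerRect} {x c : V} (hx : x ∉ Γ) :
    Vis (insert x Γ) R x c ↔ VisX Γ R (R x) c := by
  unfold Vis VisX
  constructor
  · rintro ⟨h1, h2⟩
    exact ⟨h1, fun d hd hdc => h2 d (Set.mem_insert_of_mem _ hd) (by rintro rfl; exact hx hd) hdc⟩
  · rintro ⟨h1, h2⟩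
    exact ⟨h1, fun d hd hdx hdc => h2 d (hd.resolve_left hdx) hdc⟩

theorem vis_old {Γ : Set V} {R : V → CornerRect} {x z c : V} (hx : x ∉ Γ) (hz : z ∈ Γ)
    (hc : c ∈ Γ) : Vis (insert x Γ) R z c ↔ Vis Γ R z c ∧ ¬ Dom (R z) (R x) (R c) := by
  unfold Vis
  constructor
  · rintro ⟨h1, h2⟩
    refine ⟨⟨h1, fun d hd hdz hdc => h2 d (Set.mem_insert_of_mem _ hd) hdz hdc⟩, ?_⟩
    exact h2 x (Set.mem_insert _ _) (by rintro rfl; exact hx hz) (by rintro rfl; exact hx hc)
  · rintro ⟨⟨h1, h2⟩, h3⟩
    refine ⟨h1, fun d hd hdz hdc => ?_⟩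
    rcases hd with rfl | hd
    · exact h3
    · exact h2 d hd hdz hdc

theorem Rep.congr {G : SimpleGraph V} {Γ : Set V} {L : List V} {R R' : V → CornerRect}
    (h : Rep G Γ L R) (hR : ∀ a ∈ Γ, R a = R' a) : Rep G Γ L R' := by
  have hV : ∀ z ∈ Γ, ∀ c ∈ Γ, (Vis Γ R' z c ↔ Vis Γ R z c) := by
    intro z hz c hc
    unfold Vis
    rw [← hR z hz, ← hR c hc]
    constructor
    · rintro ⟨h1, h2⟩
      exact ⟨h1, fun d hd hdz hdc => by rw [hR d hd]; exact h2 d hd hdz hdc⟩
    · rintro ⟨h1, h2⟩
      exact ⟨h1, fun d hd hdz hdc => by rw [← hR d hd]; exact h2 d hd hdz hdc⟩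
  have hA : ∀ X, Allowed R' L X → Allowed R L X := by
    rintro X ⟨P, M, Q, rfl, hp⟩
    have hs := h.base.sub
    have e1 : ∀ a ∈ P, R a = R' a := fun a ha => hR a (hs a (by simp [ha]))
    have e2 : ∀ a ∈ M, R a = R' a := fun a ha => hR a (hs a (by simp [ha]))
    have e3 : ∀ a ∈ Q, R a = R' a := fun a ha => hR a (hs a (by simp [ha]))
    refine ⟨P, M, Q, rfl, ?_, ?_, ?_, ?_, ?_⟩
    · intro a ha
      rw [e1 a ha]
      exact hp.left a ha
    · intro a ha
      rw [e2 a ha]
      exact hp.mid a ha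
    · intro a ha
      rw [e3 a ha]
      exact hp.right a ha
    · intro f hf
      rw [e1 f (List.mem_of_getLast? hf)]
      exact hp.floor f hf
    · intro w hw
      rw [e3 w (List.mem_of_head? hw)]
      exact hp.wall w hw
  refine ⟨⟨h.base.sub, ?_, ?_, ?_⟩, ?_, ?_, ?_⟩
  · refine h.base.mono.imp_of_mem ?_
    intro a b ha hb hab
    rw [← hR a (h.base.sub a ha), ← hR b (h.base.sub b hb)]
    exact hab
  · intro c hc
    obtain ⟨a, ha, h1⟩ := h.base.shadow c hc
    exact ⟨a, ha, by rw [← hR a (h.base.sub a ha), ← hR c hc]; exact h1⟩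
  · intro c hc d hd hcd
    rw [← hR c hc, ← hR d hd]
    exact h.base.apart c hc d hd hcd
  · intro c hc d hd hcd
    rw [hV c hc d hd, hV d hd c hc]
    exact h.vis c hc d hd hcd
  · intro z hz hn c hc hcz
    have hz' := h.base.sub z hz
    rw [← hR z hz'] at hn ⊢
    rw [← hR c hc]
    exact h.north z hz hn c hc hcz
  · intro z hz hn X hX
    rw [← hR z hz] at hn
    obtain ⟨h1, h2⟩ := h.safe z hz hn X (hA X hX)
    refine ⟨?_, ?_⟩
    · intro hq
      rw [← hR z hz] at hq ⊢
      obtain ⟨c, hc, hcz, hd⟩ := h1 hq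
      exact ⟨c, hc, hcz, by rw [← hR c hc]; exact hd⟩
    · intro c hc hcz hv
      rw [hV z hz c hc] at hv
      rw [← hR z hz, ← hR c hc]
      exact h2 c hc hcz hv

theorem mem_P {R : V → CornerRect} {A us B P M Q : List V} {X : CornerRect}
    (h : Placed R A us B P M Q X) {a : V} (ha : a ∈ A) : a ∈ P := by
  rcases h.hP with rfl | ⟨u, us', _, rfl⟩
  · exact ha
  · simp [ha]

theorem mem_Q {R : V → CornerRect} {A us B P M Q : List V} {X : CornerRect}
    (h : Placed R A us B P M Q X) {a : V} (ha : a ∈ B) : a ∈ Q := by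
  rcases h.hQ with rfl | ⟨us', u, _, rfl⟩
  · exact ha
  · simp [ha]

/-- the new contour is increasing -/
theorem mono_new {Γ : Set V} {R : V → CornerRect} {A us B P M Q : List V} {x : V}
    (hb : Base Γ (A ++ us ++ B) R) (h : Placed R A us B P M Q (R x)) :
    (A ++ x :: B).Pairwise fun a b => (R a).l < (R b).l ∧ (R a).t < (R b).t := by
  have hm := hb.mono
  rw [List.append_assoc, List.pairwise_append] at hm
  obtain ⟨m1, m2, m3⟩ := hm
  rw [List.pairwise_append] at m2
  obtain ⟨_, m4, _⟩ := m2
  rw [List.pairwise_append]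
  refine ⟨m1, ?_, ?_⟩
  · rw [List.pairwise_cons]
    refine ⟨?_, m4⟩
    intro q hq
    have := h.pos.right q (mem_Q h hq)
    have := h.right q hq
    have := (R x).width
    constructor <;> linarith
  · intro a ha q hq
    rcases List.mem_cons.1 hq with rfl | hq
    · have := h.left a ha
      have := h.pos.left a (mem_P h ha)
      have := (R q).height
      constructor <;> linarith
    · exact m3 a ha q (by simp [hq])

theorem step_core (hN : T_NORTH) (hSN : T_SAFEN) (hD : T_DECR) {G : SimpleGraph V} {Γ : Set V}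
    {A us B P M Q : List V} {x : V} {R : V → CornerRect}
    (hrep : Rep G Γ (A ++ us ++ B) R) (hx : x ∉ Γ) (hpl : Placed R A us B P M Q (R x))
    (hus : ∀ u ∈ us, G.Adj x u)
    (hvis : ∀ c ∈ Γ, (VisX Γ R (R x) c ↔ G.Adj x c))
    (hnew : (R x).eyeAt = .north ∨ ∀ Y, Allowed R (A ++ x :: B) Y →
      (InQuad (R x) Y → ∃ c ∈ Γ, Dom (R x) (R c) Y) ∧
        ∀ c ∈ Γ, G.Adj x c → ¬ Dom (R x) Y (R c)) :
    Rep G (insert x Γ) (A ++ x :: B) R := by
  have hb := hrep.base
  have hall : Allowed R (A ++ us ++ B) (R x) := ⟨P, M, Q, hpl.split, hpl.pos⟩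
  have hmono := mono_new hb hpl
  have hnorth := hN V Γ R P M Q (R x) (hpl.split ▸ hb) hpl.pos
  have hxne : ∀ c ∈ Γ, x ≠ c := by
    rintro c hc rfl
    exact hx hc
  have hLm := hb.mono
  rw [List.append_assoc, List.pairwise_append] at hLm
  obtain ⟨_, m2, m3⟩ := hLm
  rw [List.pairwise_append] at m2
  obtain ⟨_, _, m5⟩ := m2
  -- kept vertices do not see `x` with a north eye
  have hkeep : ∀ z, z ∈ A ∨ z ∈ B → (R z).eyeAt = .north → ¬ InQuad (R z) (R x) := by
    intro z hz hn hq
    unfold InQuad at hq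
    rw [hn] at hq
    simp only at hq
    rcases hz with hz | hz
    · have := hpl.left z hz
      linarith [hq.1]
    · have := hpl.right z hz
      linarith [hq.2]
  -- who sees `x`
  have hsee : ∀ z ∈ Γ, Vis (insert x Γ) R z x → z ∈ us := by
    intro z hz hv
    by_cases hn : z ∈ A ++ us ++ B ∧ (R z).eyeAt = .north
    · by_contra hzu
      have hz' : z ∈ A ∨ z ∈ B := by
        have := hn.1
        simp only [List.mem_append] at this
        tauto
      exact hkeep z hz' hn.2 hv.1
    · exfalso
      obtain ⟨c, hc, hcz, hd⟩ := (hrep.safe z hz hn (R x) hall).1 hv.1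
      exact hv.2 c (Set.mem_insert_of_mem _ hc) hcz (hxne c hc).symm hd
  have hold : ∀ z ∈ Γ, ∀ c ∈ Γ, c ≠ z → (Vis (insert x Γ) R z c ↔ Vis Γ R z c) := by
    intro z hz c hc hcz
    rw [vis_old hx hz hc]
    constructor
    · exact fun h => h.1
    · intro h
      refine ⟨h, ?_⟩
      by_cases hn : z ∈ A ++ us ++ B ∧ (R z).eyeAt = .north
      · exact absurd h.1 (hrep.north z hn.1 hn.2 c hc hcz)
      · exact (hrep.safe z hz hn (R x) hall).2 c hc hcz h
  have hxadj : ∀ d ∈ Γ, (G.Adj x d ↔ Vis (insert x Γ) R x d ∨ Vis (insert x Γ) R d x) := by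
    intro d hd
    rw [vis_new hx, hvis d hd]
    constructor
    · exact Or.inl
    · rintro (h | h)
      · exact h
      · exact hus d (hsee d hd h)
  refine ⟨⟨?_, hmono, ?_, ?_⟩, ?_, ?_, ?_⟩
  · intro a ha
    simp only [List.mem_append, List.mem_cons] at ha
    rcases ha with ha | rfl | ha
    · exact Set.mem_insert_of_mem _ (hb.sub a (by simp [ha]))
    · exact Set.mem_insert _ _
    · exact Set.mem_insert_of_mem _ (hb.sub a (by simp [ha]))
  · rintro c (rfl | hc)
    · exact ⟨c, by simp, le_refl _, le_refl _⟩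
    · obtain ⟨a, ha, h1, h2⟩ := hb.shadow c hc
      simp only [List.mem_append] at ha
      rcases ha with (ha | ha) | ha
      · exact ⟨a, by simp [ha], h1, h2⟩
      · have := hpl.cover a ha
        exact ⟨x, by simp, by linarith, by linarith⟩
      · exact ⟨a, by simp [ha], h1, h2⟩
  · rintro c (rfl | hc) d (rfl | hd) hcd
    · exact absurd rfl hcd
    · exact hnorth.1 d hd
    · exact (hnorth.1 c hc).symm
    · exact hb.apart c hc d hd hcd
  · rintro c (rfl | hc) d (rfl | hd) hcd
    · exact absurd rfl hcd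
    · exact hxadj d hd
    · rw [G.adj_comm, hxadj c hc, or_comm]
    · rw [hold c hc d hd hcd.symm, hold d hd c hc hcd]
      exact hrep.vis c hc d hd hcd
  · intro z hz hn c hc hcz
    simp only [List.mem_append, List.mem_cons] at hz
    rcases hc with rfl | hc
    · have hz' : z ∈ A ∨ z ∈ B := by
        rcases hz with h | h | h
        · exact Or.inl h
        · exact absurd h.symm hcz
        · exact Or.inr h
      exact hkeep z hz' hn
    · rcases hz with hz | rfl | hz
      · exact hrep.north z (by simp [hz]) hn c hc hcz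
      · exact hnorth.2 hn c hc
      · exact hrep.north z (by simp [hz]) hn c hc hcz
  · intro z hz hn Y hY
    rcases hz with rfl | hz
    · rcases hnew with h | h
      · exact absurd ⟨by simp, h⟩ hn
      · obtain ⟨h1, h2⟩ := h Y hY
        refine ⟨?_, ?_⟩
        · intro hq
          obtain ⟨c, hc, hd⟩ := h1 hq
          exact ⟨c, Set.mem_insert_of_mem _ hc, (hxne c hc).symm, hd⟩
        · rintro c (rfl | hc) hcz hv
          · exact absurd rfl hcz
          · rw [vis_new hx, hvis c hc] at hv
            exact h2 c hc hv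
    · by_cases hzn : z ∈ A ++ us ++ B ∧ (R z).eyeAt = .north
      · have hzu : z ∈ us := by
          by_contra hzu
          apply hn
          refine ⟨?_, hzn.2⟩
          have := hzn.1
          simp only [List.mem_append, List.mem_cons] at this ⊢
          tauto
        obtain ⟨h1, h2⟩ := hSN V R A B x z hmono hzn.2 (hpl.cover z hzu).1 (hpl.cover z hzu).2
          (fun a ha => (m3 a ha z (by simp [hzu])).2) (fun q hq => (m5 z hzu q hq).1) Y hY
        refine ⟨?_, ?_⟩
        · intro hq
          exact ⟨x, Set.mem_insert _ _, hxne z hz, h1 hq⟩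
        · rintro c (rfl | hc) hcz hv
          · exact h2
          · exact absurd hv.1 (hrep.north z hzn.1 hzn.2 c hc hcz)
      · have hY' := hD V Γ R A us B P M Q x hb hpl Y hY
        obtain ⟨h1, h2⟩ := hrep.safe z hz hzn Y hY'
        refine ⟨?_, ?_⟩
        · intro hq
          obtain ⟨c, hc, hcz, hd⟩ := h1 hq
          exact ⟨c, Set.mem_insert_of_mem _ hc, hcz, hd⟩
        · rintro c (rfl | hc) hcz hv
          · exfalso
            obtain ⟨d, hd, hdz, hdom⟩ := (hrep.safe z hz hzn (R c) hall).1 hv.1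
            exact hv.2 d (Set.mem_insert_of_mem _ hd) hdz (hxne d hd).symm hdom
          · rw [hold z hz c hc hcz] at hv
            exact h2 c hc hcz hv

theorem Pos.congr {R R' : V → CornerRect} {P M Q : List V} {X : CornerRect}
    (h : Pos R P M Q X) (hR : ∀ a ∈ P ++ M ++ Q, R a = R' a) : Pos R' P M Q X := by
  have e1 : ∀ a ∈ P, R' a = R a := fun a ha => (hR a (by simp [ha])).symm
  have e2 : ∀ a ∈ M, R' a = R a := fun a ha => (hR a (by simp [ha])).symm
  have e3 : ∀ a ∈ Q, R' a = R a := fun a ha => (hR a (by simp [ha])).symm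
  refine ⟨?_, ?_, ?_, ?_, ?_⟩
  · intro a ha
    rw [e1 a ha]
    exact h.left a ha
  · intro a ha
    rw [e2 a ha]
    exact h.mid a ha
  · intro a ha
    rw [e3 a ha]
    exact h.right a ha
  · intro f hf
    rw [e1 f (List.mem_of_getLast? hf)]
    exact h.floor f hf
  · intro w hw
    rw [e3 w (List.mem_of_head? hw)]
    exact h.wall w hw

theorem Placed.congr {R R' : V → CornerRect} {A us B P M Q : List V} {X : CornerRect}
    (h : Placed R A us B P M Q X) (hR : ∀ a ∈ A ++ us ++ B, R a = R' a) :
    Placed R' A us B P M Q X := by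
  have e1 : ∀ a ∈ A, R' a = R a := fun a ha => (hR a (by simp [ha])).symm
  have e2 : ∀ a ∈ us, R' a = R a := fun a ha => (hR a (by simp [ha])).symm
  have e3 : ∀ a ∈ B, R' a = R a := fun a ha => (hR a (by simp [ha])).symm
  refine ⟨h.split, h.pos.congr (by rw [← h.split]; exact hR), h.hP, h.hQ, ?_, ?_, ?_⟩
  · intro a ha
    rw [e1 a ha]
    exact h.left a ha
  · intro a ha
    rw [e3 a ha]
    exact h.right a ha
  · intro a ha
    rw [e2 a ha]
    exact h.cover a ha

/-- choice of the new rectangle -/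
theorem step_of (hN : T_NORTH) (hSN : T_SAFEN) (hD : T_DECR) (hC : T_COORD) {G : SimpleGraph V}
    {Γ : Set V} {A us B : List V} {x : V} {R : V → CornerRect}
    (hrep : Rep G Γ (A ++ us ++ B) R) (hx : x ∉ Γ) (hus : ∀ u ∈ us, G.Adj x u)
    (P M Q : List V) (e : Corner) (hs : A ++ us ++ B = P ++ M ++ Q)
    (hP : P = A ∨ ∃ (u : V) (us' : List V), us = u :: us' ∧ P = A ++ [u])
    (hQ : Q = B ∨ ∃ (us' : List V) (u : V), us = us' ++ [u] ∧ Q = u :: B)
    (hvis : ∀ R' : V → CornerRect, Base Γ (P ++ M ++ Q) R' → Pos R' P M Q (R' x) →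
      (R' x).eyeAt = e → ∀ c ∈ Γ, (VisX Γ R' (R' x) c ↔ G.Adj x c))
    (hnew : ∀ R' : V → CornerRect, Base Γ (P ++ M ++ Q) R' → Pos R' P M Q (R' x) →
      (R' x).eyeAt = e →
      ((A ++ x :: B).Pairwise fun a b => (R' a).l < (R' b).l ∧ (R' a).t < (R' b).t) →
      (∀ a ∈ A, a ∈ P) → (∀ a ∈ B, a ∈ Q) →
      e = .north ∨ ∀ Y, Allowed R' (A ++ x :: B) Y →
        (InQuad (R' x) Y → ∃ c ∈ Γ, Dom (R' x) (R' c) Y) ∧
          ∀ c ∈ Γ, G.Adj x c → ¬ Dom (R' x) Y (R' c)) :
    ∃ R', Rep G (insert x Γ) (A ++ x :: B) R' := by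
  classical
  obtain ⟨X, hXe, hX⟩ := hC V Γ R A us B P M Q e hrep.base hs hP hQ
  set R' : V → CornerRect := Function.update R x X with hR'
  have hRx : R' x = X := by simp [hR']
  have hRc : ∀ a ∈ Γ, R a = R' a := by
    intro a ha
    have : a ≠ x := by
      rintro rfl
      exact hx ha
    simp [hR', this]
  have hrep' := hrep.congr hRc
  have hX' : Placed R' A us B P M Q (R' x) := by
    rw [hRx]
    exact hX.congr fun a ha => hRc a (hrep.base.sub a ha)
  have hbase' : Base Γ (P ++ M ++ Q) R' := hs ▸ hrep'.base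
  have he : (R' x).eyeAt = e := by rw [hRx, hXe]
  refine ⟨R', step_core hN hSN hD hrep' hx hX' hus (hvis R' hbase' hX'.pos he) ?_⟩
  have hm := mono_new hrep'.base hX'
  rcases hnew R' hbase' hX'.pos he hm (fun a ha => mem_P hX' ha) (fun a ha => mem_Q hX' ha) with
    h | h
  · left
    rw [he, h]
  · exact Or.inr h

/-- south -/
theorem step_south (hN : T_NORTH) (hSN : T_SAFEN) (hD : T_DECR) (hC : T_COORD) (hS : T_SOUTH)
    (hSS : T_SAFES) {G : SimpleGraph V}
    {Γ : Set V} {A us B : List V} {x : V} {R : V → CornerRect}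
    (hrep : Rep G Γ (A ++ us ++ B) R) (hx : x ∉ Γ) (hus : ∀ u ∈ us, G.Adj x u)
    (P M Q : List V) (f w : V) (hs : A ++ us ++ B = (P ++ [f]) ++ M ++ (w :: Q))
    (hP : P ++ [f] = A ∨ ∃ (u : V) (us' : List V), us = u :: us' ∧ P ++ [f] = A ++ [u])
    (hQ : w :: Q = B ∨ ∃ (us' : List V) (u : V), us = us' ++ [u] ∧ w :: Q = u :: B)
    (hadj : ∀ c ∈ Γ, (c = f ∨ c ∈ M ∨ c = w) ↔ G.Adj x c) :
    ∃ R', Rep G (insert x Γ) (A ++ x :: B) R' := by
  refine step_of hN hSN hD hC hrep hx hus (P ++ [f]) M (w :: Q) .south hs hP hQ ?_ ?_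
  · intro R' hb hp he c hc
    rw [hS V Γ R' P M Q f w (R' x) hb hp he c hc, hadj c hc]
  · intro R' hb hp he hm _ _
    right
    intro Y hY
    have h := hSS V R' A B x hm he Y hY
    exact ⟨fun hq => absurd hq h, fun c _ _ hd => h hd.1⟩

/-- east -/
theorem step_east (hN : T_NORTH) (hSN : T_SAFEN) (hD : T_DECR) (hC : T_COORD) (hE : T_EAST)
    (hSE : T_SAFEE) {G : SimpleGraph V}
    {Γ : Set V} {A us B : List V} {x : V} {R : V → CornerRect}
    (hrep : Rep G Γ (A ++ us ++ B) R) (hx : x ∉ Γ) (hus : ∀ u ∈ us, G.Adj x u)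
    (P M Q : List V) (w : V) (hs : A ++ us ++ B = P ++ M ++ (w :: Q))
    (hP : P = A ∨ ∃ (u : V) (us' : List V), us = u :: us' ∧ P = A ++ [u])
    (hQ : w :: Q = B ∨ ∃ (us' : List V) (u : V), us = us' ++ [u] ∧ w :: Q = u :: B)
    (hadj : ∀ c ∈ Γ, c = w ↔ G.Adj x c) :
    ∃ R', Rep G (insert x Γ) (A ++ x :: B) R' := by
  refine step_of hN hSN hD hC hrep hx hus P M (w :: Q) .east hs hP hQ ?_ ?_
  · intro R' hb hp he c hc
    rw [hE V Γ R' P M Q w (R' x) hb hp he c hc, hadj c hc]
  · intro R' hb hp he hm _ hB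
    right
    intro Y hY
    have hwm : w ∈ P ++ M ++ (w :: Q) := by simp
    have hwΓ : w ∈ Γ := hb.sub w hwm
    have h1 := hp.right w (by simp)
    have h2 := hp.wall w (by simp)
    have h3 := (R' x).height
    have hlq : ∀ q ∈ B, (R' w).l ≤ (R' q).l := by
      intro q hq
      rcases List.mem_cons.1 (hB q hq) with rfl | hq
      · exact le_refl _
      · have hm' := hb.mono
        rw [List.pairwise_append] at hm'
        have := (List.pairwise_cons.1 hm'.2.1).1 q hq
        exact this.1.le
    obtain ⟨h4, h5⟩ := hSE V R' A B x w hm he h1.1 h1.2 (by linarith) hlq Y hY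
    refine ⟨fun hq => ⟨w, hwΓ, h4 hq⟩, ?_⟩
    intro c hc hcx
    rw [← hadj c hc] at hcx
    subst hcx
    exact h5

/-- west -/
theorem step_west (hN : T_NORTH) (hSN : T_SAFEN) (hD : T_DECR) (hC : T_COORD) (hW : T_WEST)
    (hSW : T_SAFEW) {G : SimpleGraph V}
    {Γ : Set V} {A us B : List V} {x : V} {R : V → CornerRect}
    (hrep : Rep G Γ (A ++ us ++ B) R) (hx : x ∉ Γ) (hus : ∀ u ∈ us, G.Adj x u)
    (P M Q : List V) (f : V) (hs : A ++ us ++ B = (P ++ [f]) ++ M ++ Q)
    (hP : P ++ [f] = A ∨ ∃ (u : V) (us' : List V), us = u :: us' ∧ P ++ [f] = A ++ [u])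
    (hQ : Q = B ∨ ∃ (us' : List V) (u : V), us = us' ++ [u] ∧ Q = u :: B)
    (hadj : ∀ c ∈ Γ, c = f ↔ G.Adj x c) :
    ∃ R', Rep G (insert x Γ) (A ++ x :: B) R' := by
  refine step_of hN hSN hD hC hrep hx hus (P ++ [f]) M Q .west hs hP hQ ?_ ?_
  · intro R' hb hp he c hc
    rw [hW V Γ R' P M Q f (R' x) hb hp he c hc, hadj c hc]
  · intro R' hb hp he hm hA _
    right
    intro Y hY
    have hwm : f ∈ (P ++ [f]) ++ M ++ Q := by simp
    have hfΓ : f ∈ Γ := hb.sub f hwm
    have h1 := hp.left f (by simp)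
    have h2 := hp.floor f (by simp)
    have h3 := (R' x).width
    have hlq : ∀ a ∈ A, (R' a).t ≤ (R' f).t := by
      intro a ha
      have ha' := hA a ha
      rw [List.mem_append] at ha'
      rcases ha' with ha' | ha'
      · have hm' := hb.mono
        rw [List.append_assoc, List.append_assoc, List.pairwise_append] at hm'
        exact (hm'.2.2 a ha' f (by simp)).2.le
      · rw [List.mem_singleton] at ha'
        rw [ha']
    obtain ⟨h4, h5⟩ := hSW V R' A B x f hm he h1.2 h1.1 (by linarith) hlq Y hY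
    refine ⟨fun hq => ⟨f, hfΓ, h4 hq⟩, ?_⟩
    intro c hc hcx
    rw [← hadj c hc] at hcx
    subst hcx
    exact h5

/-- north -/
theorem step_north (hN : T_NORTH) (hSN : T_SAFEN) (hD : T_DECR) (hC : T_COORD)
    {G : SimpleGraph V} {Γ : Set V} {A B : List V} {x : V} {R : V → CornerRect}
    (hrep : Rep G Γ (A ++ [] ++ B) R) (hx : x ∉ Γ)
    (hadj : ∀ c ∈ Γ, ¬ G.Adj x c) :
    ∃ R', Rep G (insert x Γ) (A ++ x :: B) R' := by
  refine step_of hN hSN hD hC hrep hx (by simp) A [] B .north rfl (Or.inl rfl) (Or.inl rfl) ?_ ?_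
  · intro R' hb hp he c hc
    refine ⟨fun h => absurd h.1 ?_, fun h => absurd h (hadj c hc)⟩
    exact (hN V Γ R' A [] B (R' x) hb hp).2 he c hc
  · intro R' hb hp he hm _ _
    exact Or.inl rfl

theorem tSTEP (hS : T_SOUTH) (hE : T_EAST) (hW : T_WEST) (hN : T_NORTH) (hSS : T_SAFES)
    (hSE : T_SAFEE) (hSW : T_SAFEW) (hSN : T_SAFEN) (hD : T_DECR) (hC : T_COORD) : T_STEP := by
  intro V G Γ A us B x R hrep hx hus hnb
  have hsub := hrep.base.sub
  have hnd : (A ++ us ++ B).Nodup := by
    refine hrep.base.mono.imp ?_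
    rintro a b ⟨h, _⟩ rfl
    exact lt_irrefl _ h
  -- kept neighbours
  by_cases pa : ∃ f, A.getLast? = some f ∧ G.Adj x f
  · obtain ⟨f, hf, hxf⟩ := pa
    obtain ⟨A', rfl⟩ : ∃ A', A = A' ++ [f] := List.getLast?_eq_some_iff.1 hf
    by_cases pb : ∃ w, B.head? = some w ∧ G.Adj x w
    · obtain ⟨w, hw, hxw⟩ := pb
      obtain ⟨B', rfl⟩ : ∃ B', B = w :: B' := by
        rcases B with _ | ⟨b, B'⟩
        · simp at hw
        · simp at hw
          exact ⟨B', by rw [hw]⟩
      refine step_south hN hSN hD hC hS hSS hrep hx hus A' us B' f w rfl (Or.inl rfl)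
        (Or.inl rfl) ?_
      intro c hc
      constructor
      · rintro (rfl | h | rfl)
        · exact hxf
        · exact hus c h
        · exact hxw
      · intro h
        rcases hnb c hc h with h | h | h
        · exact Or.inr (Or.inl h)
        · left
          simp at h
          exact h.symm
        · right; right
          simp at h
          exact h.symm
    · have hnB : ∀ v, B.head? = some v → ¬ G.Adj x v := fun v hv h => pb ⟨v, hv, h⟩
      rcases List.eq_nil_or_concat us with rfl | ⟨us', u, rfl⟩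
      · refine step_west hN hSN hD hC hW hSW hrep hx hus A' [] B f (by simp) (Or.inl rfl)
          (Or.inl rfl) ?_
        intro c hc
        constructor
        · rintro rfl
          exact hxf
        · intro h
          rcases hnb c hc h with h' | h' | h'
          · simp at h'
          · simp at h'
            exact h'.symm
          · exact absurd h (hnB c h')
      · refine step_south hN hSN hD hC hS hSS hrep hx hus A' us' B f u (by simp) (Or.inl rfl)
          (Or.inr ⟨us', u, by simp, rfl⟩) ?_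
        intro c hc
        constructor
        · rintro (rfl | h | rfl)
          · exact hxf
          · exact hus c (by simp [h])
          · exact hus c (by simp)
        · intro h
          rcases hnb c hc h with h' | h' | h'
          · simp at h'
            tauto
          · left
            simp at h'
            exact h'.symm
          · exact absurd h (hnB c h')
  · have hnA : ∀ v, A.getLast? = some v → ¬ G.Adj x v := fun v hv h => pa ⟨v, hv, h⟩
    by_cases pb : ∃ w, B.head? = some w ∧ G.Adj x w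
    · obtain ⟨w, hw, hxw⟩ := pb
      obtain ⟨B', rfl⟩ : ∃ B', B = w :: B' := by
        rcases B with _ | ⟨b, B'⟩
        · simp at hw
        · simp at hw
          exact ⟨B', by rw [hw]⟩
      rcases us with _ | ⟨u, us'⟩
      · refine step_east hN hSN hD hC hE hSE hrep hx hus A [] B' w (by simp) (Or.inl rfl)
          (Or.inl rfl) ?_
        intro c hc
        constructor
        · rintro rfl
          exact hxw
        · intro h
          rcases hnb c hc h with h' | h' | h'
          · simp at h'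
          · exact absurd h (hnA c h')
          · simp at h'
            exact h'.symm
      · refine step_south hN hSN hD hC hS hSS hrep hx hus A us' B' u w (by simp)
          (Or.inr ⟨u, us', rfl, rfl⟩) (Or.inl rfl) ?_
        intro c hc
        constructor
        · rintro (rfl | h | rfl)
          · exact hus c (by simp)
          · exact hus c (by simp [h])
          · exact hxw
        · intro h
          rcases hnb c hc h with h' | h' | h'
          · simp at h'
            tauto
          · exact absurd h (hnA c h')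
          · right; right
            simp at h'
            exact h'.symm
    · have hnB : ∀ v, B.head? = some v → ¬ G.Adj x v := fun v hv h => pb ⟨v, hv, h⟩
      have hus' : ∀ c ∈ Γ, G.Adj x c → c ∈ us := by
        intro c hc h
        rcases hnb c hc h with h' | h' | h'
        · exact h'
        · exact absurd h (hnA c h')
        · exact absurd h (hnB c h')
      rcases us with _ | ⟨u, us'⟩
      · refine step_north hN hSN hD hC hrep hx ?_
        intro c hc h
        have := hus' c hc h
        simp at this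
      · rcases List.eq_nil_or_concat us' with rfl | ⟨us'', u', rfl⟩
        · refine step_east hN hSN hD hC hE hSE hrep hx hus A [] B u (by simp) (Or.inl rfl)
            (Or.inr ⟨[], u, rfl, rfl⟩) ?_
          intro c hc
          constructor
          · rintro rfl
            exact hus c (by simp)
          · intro h
            have := hus' c hc h
            simpa using this
        · refine step_south hN hSN hD hC hS hSS hrep hx hus A us'' B u u' (by simp)
            (Or.inr ⟨u, us'' ++ [u'], by simp, rfl⟩) (Or.inr ⟨u :: us'', u', by simp, rfl⟩) ?_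
          intro c hc
          constructor
          · rintro (rfl | h | rfl)
            · exact hus c (by simp)
            · exact hus c (by simp [h])
            · exact hus c (by simp)
          · intro h
            have := hus' c hc h
            simp at this
            tauto

end Pool.Agent.CRV
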