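import Pool.Agent.CRV.Defs

set_option autoImplicit false

/-!
# Corner rectangle visibility graphs: exact targets (proofs in Blueprint.lean.txt)
-/

namespace Pool.Agent.CRV

/-! ## Part A: rectangles -/

/-- `C` meets the closed quadrant at the eye of `A` -/
def InQuad (A C : CornerRect) : Prop :=
  match A.eyeAt with
  | .north => C.l ≤ A.l ∧ A.t ≤ C.t
  | .west => C.l ≤ A.l ∧ C.b ≤ A.b
  | .south => A.r ≤ C.r ∧ C.b ≤ A.b
  | .east => A.r ≤ C.r ∧ A.t ≤ C.t

/-- every rectangle at the eye of `A` that meets `C` meets `D` -/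
def Dom (A D C : CornerRect) : Prop :=
  InQuad A D ∧
  match A.eyeAt with
  | .north => min C.r A.l ≤ min D.r A.l ∧ max D.b A.t ≤ max C.b A.t
  | .west => min C.r A.l ≤ min D.r A.l ∧ min C.t A.b ≤ min D.t A.b
  | .south => max D.l A.r ≤ max C.l A.r ∧ min C.t A.b ≤ min D.t A.b
  | .east => max D.l A.r ≤ max C.l A.r ∧ max D.b A.t ≤ max C.b A.t

/-- the rectangle `X` sees `R c` among the rectangles of `Γ` -/
def VisX {V : Type} (Γ : Set V) (R : V → CornerRect) (X : CornerRect) (c : V) : Prop :=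
  InQuad X (R c) ∧ ∀ d ∈ Γ, d ≠ c → ¬ Dom X (R d) (R c)

/-- `R z` sees `R c` among the rectangles of `Γ` -/
def Vis {V : Type} (Γ : Set V) (R : V → CornerRect) (z c : V) : Prop :=
  InQuad (R z) (R c) ∧ ∀ d ∈ Γ, d ≠ z → d ≠ c → ¬ Dom (R z) (R d) (R c)

/-- disjoint rectangles -/
def Apart (A B : CornerRect) : Prop := A.r < B.l ∨ B.r < A.l ∨ A.t < B.b ∨ B.t < A.b

/-- VIS: the discrete form of `Sees` -/
def T_VIS : Prop := ∀ (V : Type) [Finite V] (R : V → CornerRect),
  (∀ a b, a ≠ b → Apart (R a) (R b)) → ∀ a b, a ≠ b → (Sees R a b ↔ Vis Set.univ R a b)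

/-- contour `L` of the rectangles of `Γ` -/
structure Base {V : Type} (Γ : Set V) (L : List V) (R : V → CornerRect) : Prop where
  sub : ∀ a ∈ L, a ∈ Γ
  mono : L.Pairwise fun a b => (R a).l < (R b).l ∧ (R a).t < (R b).t
  shadow : ∀ c ∈ Γ, ∃ a ∈ L, (R a).l ≤ (R c).l ∧ (R c).t ≤ (R a).t
  apart : ∀ c ∈ Γ, ∀ d ∈ Γ, c ≠ d → Apart (R c) (R d)

/-- position of `X` at the contour `P ++ M ++ Q`: the floor is the last element of `P`, the wall is
the first element of `Q` -/
structure Pos {V : Type} (R : V → CornerRect) (P M Q : List V) (X : CornerRect) : Prop where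
  left : ∀ a ∈ P, (R a).l ≤ X.l ∧ (R a).t < X.b
  mid : ∀ m ∈ M, X.r < (R m).l ∧ (R m).t < X.b
  right : ∀ q ∈ Q, X.r < (R q).l ∧ X.t ≤ (R q).t
  floor : ∀ f, P.getLast? = some f → X.r < (R f).r
  wall : ∀ w, Q.head? = some w → (R w).b < X.b

/-- `X` may be placed now or later -/
def Allowed {V : Type} (R : V → CornerRect) (L : List V) (X : CornerRect) : Prop :=
  ∃ P M Q, L = P ++ M ++ Q ∧ Pos R P M Q X

/-- `X` is placed with floor and wall given by `P`, `M`, `Q` and covers exactly `us`; the new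
contour is `A ++ x :: B` -/
structure Placed {V : Type} (R : V → CornerRect) (A us B P M Q : List V) (X : CornerRect) :
    Prop where
  split : A ++ us ++ B = P ++ M ++ Q
  pos : Pos R P M Q X
  hP : P = A ∨ ∃ (u : V) (us' : List V), us = u :: us' ∧ P = A ++ [u]
  hQ : Q = B ∨ ∃ (us' : List V) (u : V), us = us' ++ [u] ∧ Q = u :: B
  left : ∀ a ∈ A, (R a).l < X.l
  right : ∀ q ∈ B, X.t < (R q).t
  cover : ∀ u ∈ us, X.l ≤ (R u).l ∧ (R u).t ≤ X.t

/-- SOUTH: a south rectangle sees exactly the contour from the floor to the wall -/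
def T_SOUTH : Prop := ∀ (V : Type) (Γ : Set V) (R : V → CornerRect) (P M Q : List V) (f w : V)
  (X : CornerRect), Base Γ ((P ++ [f]) ++ M ++ (w :: Q)) R → Pos R (P ++ [f]) M (w :: Q) X →
  X.eyeAt = .south → ∀ c ∈ Γ, (VisX Γ R X c ↔ c = f ∨ c ∈ M ∨ c = w)

/-- EAST: an east rectangle sees exactly the wall -/
def T_EAST : Prop := ∀ (V : Type) (Γ : Set V) (R : V → CornerRect) (P M Q : List V) (w : V)
  (X : CornerRect), Base Γ (P ++ M ++ (w :: Q)) R → Pos R P M (w :: Q) X →
  X.eyeAt = .east → ∀ c ∈ Γ, (VisX Γ R X c ↔ c = w)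

/-- WEST: a west rectangle sees exactly the floor -/
def T_WEST : Prop := ∀ (V : Type) (Γ : Set V) (R : V → CornerRect) (P M Q : List V) (f : V)
  (X : CornerRect), Base Γ ((P ++ [f]) ++ M ++ Q) R → Pos R (P ++ [f]) M Q X →
  X.eyeAt = .west → ∀ c ∈ Γ, (VisX Γ R X c ↔ c = f)

/-- NORTH: nothing is in the quadrant of a north rectangle; the new rectangle is disjoint from the
old ones -/
def T_NORTH : Prop := ∀ (V : Type) (Γ : Set V) (R : V → CornerRect) (P M Q : List V)
  (X : CornerRect), Base Γ (P ++ M ++ Q) R → Pos R P M Q X →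
  (∀ c ∈ Γ, Apart X (R c)) ∧ (X.eyeAt = .north → ∀ c ∈ Γ, ¬ InQuad X (R c))

/-- SAFES: later rectangles are not in the quadrant of a south rectangle -/
def T_SAFES : Prop := ∀ (V : Type) (R : V → CornerRect) (A B : List V) (x : V),
  (A ++ x :: B).Pairwise (fun a b => (R a).l < (R b).l ∧ (R a).t < (R b).t) →
  (R x).eyeAt = .south → ∀ Y, Allowed R (A ++ x :: B) Y → ¬ InQuad (R x) Y

/-- SAFEE: an east rectangle `x` which sees `w`; `w` is the next one after `x` or is removed, so the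
elements of `B` are `w` or have larger coordinates -/
def T_SAFEE : Prop := ∀ (V : Type) (R : V → CornerRect) (A B : List V) (x w : V),
  (A ++ x :: B).Pairwise (fun a b => (R a).l < (R b).l ∧ (R a).t < (R b).t) →
  (R x).eyeAt = .east → (R x).r < (R w).l → (R x).t ≤ (R w).t → (R w).b < (R x).t →
  (∀ q ∈ B, (R w).l ≤ (R q).l) → ∀ Y, Allowed R (A ++ x :: B) Y →
    (InQuad (R x) Y → Dom (R x) (R w) Y) ∧ ¬ Dom (R x) Y (R w)

/-- SAFEW -/
def T_SAFEW : Prop := ∀ (V : Type) (R : V → CornerRect) (A B : List V) (x f : V),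
  (A ++ x :: B).Pairwise (fun a b => (R a).l < (R b).l ∧ (R a).t < (R b).t) →
  (R x).eyeAt = .west → (R f).t < (R x).b → (R f).l ≤ (R x).l → (R x).l < (R f).r →
  (∀ a ∈ A, (R a).t ≤ (R f).t) → ∀ Y, Allowed R (A ++ x :: B) Y →
    (InQuad (R x) Y → Dom (R x) (R f) Y) ∧ ¬ Dom (R x) Y (R f)

/-- SAFEN: a north rectangle `z` which is removed by `x` -/
def T_SAFEN : Prop := ∀ (V : Type) (R : V → CornerRect) (A B : List V) (x z : V),
  (A ++ x :: B).Pairwise (fun a b => (R a).l < (R b).l ∧ (R a).t < (R b).t) →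
  (R z).eyeAt = .north → (R x).l ≤ (R z).l → (R z).t ≤ (R x).t →
  (∀ a ∈ A, (R a).t < (R z).t) → (∀ q ∈ B, (R z).l < (R q).l) →
  ∀ Y, Allowed R (A ++ x :: B) Y →
    (InQuad (R z) Y → Dom (R z) (R x) Y) ∧ ¬ Dom (R z) Y (R x)

/-- DECR: what is allowed later was allowed before -/
def T_DECR : Prop := ∀ (V : Type) (Γ : Set V) (R : V → CornerRect) (A us B P M Q : List V) (x : V),
  Base Γ (A ++ us ++ B) R → Placed R A us B P M Q (R x) →
  ∀ Y, Allowed R (A ++ x :: B) Y → Allowed R (A ++ us ++ B) Y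

/-- COORD: there is room for the new rectangle -/
def T_COORD : Prop := ∀ (V : Type) (Γ : Set V) (R : V → CornerRect) (A us B P M Q : List V)
  (e : Corner), Base Γ (A ++ us ++ B) R → A ++ us ++ B = P ++ M ++ Q →
  (P = A ∨ ∃ (u : V) (us' : List V), us = u :: us' ∧ P = A ++ [u]) →
  (Q = B ∨ ∃ (us' : List V) (u : V), us = us' ++ [u] ∧ Q = u :: B) →
  ∃ X : CornerRect, X.eyeAt = e ∧ Placed R A us B P M Q X

/-- safe: `z` does not see `X`, and `X` does not hide anything from `z` -/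
def Safe {V : Type} (Γ : Set V) (R : V → CornerRect) (z : V) (X : CornerRect) : Prop :=
  (InQuad (R z) X → ∃ c ∈ Γ, c ≠ z ∧ Dom (R z) (R c) X) ∧
    ∀ c ∈ Γ, c ≠ z → Vis Γ R z c → ¬ Dom (R z) X (R c)

/-- a representation of `G` on the set `Γ` with contour `L` -/
structure Rep {V : Type} (G : SimpleGraph V) (Γ : Set V) (L : List V) (R : V → CornerRect) :
    Prop where
  base : Base Γ L R
  vis : ∀ c ∈ Γ, ∀ d ∈ Γ, c ≠ d → (G.Adj c d ↔ Vis Γ R c d ∨ Vis Γ R d c)
  north : ∀ z ∈ L, (R z).eyeAt = .north → ∀ c ∈ Γ, c ≠ z → ¬ InQuad (R z) (R c)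
  safe : ∀ z ∈ Γ, ¬ (z ∈ L ∧ (R z).eyeAt = .north) → ∀ X, Allowed R L X → Safe Γ R z X

/-- Contour sequences.  The new vertex `x` is adjacent to all vertices of `us`, which are removed
from the contour; its other neighbours in `Γ` can only be the last vertex of `A` and the first
vertex of `B`. -/
inductive Contour {V : Type} (G : SimpleGraph V) : Set V → List V → Prop
  | nil : Contour G ∅ []
  | step (Γ : Set V) (A us B : List V) (x : V) : Contour G Γ (A ++ us ++ B) → x ∉ Γ →
      (∀ u ∈ us, G.Adj x u) →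
      (∀ v ∈ Γ, G.Adj x v → v ∈ us ∨ A.getLast? = some v ∨ B.head? = some v) →
      Contour G (insert x Γ) (A ++ x :: B)

/-- STEP -/
def T_STEP : Prop := ∀ (V : Type) (G : SimpleGraph V) (Γ : Set V) (A us B : List V) (x : V)
  (R : V → CornerRect), Rep G Γ (A ++ us ++ B) R → x ∉ Γ → (∀ u ∈ us, G.Adj x u) →
  (∀ v ∈ Γ, G.Adj x v → v ∈ us ∨ A.getLast? = some v ∨ B.head? = some v) →
  ∃ R', Rep G (insert x Γ) (A ++ x :: B) R'

/-- REC: from contour sequences to rectangles -/
def T_REC : Prop := ∀ (V : Type) [Finite V] (G : SimpleGraph V) (L : List V),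
  Contour G Set.univ L → IsCRVG G

/-! ## Part B: rotation systems -/

/-- the sum of `C v` over the elements of `rot v` before `a` -/
def cnt {W : Type} [DecidableEq W] (rot : W → List W) (C : W → W → ZMod 2) (v a : W) : ZMod 2 :=
  (((rot v).takeWhile (fun u => decide (u ≠ a))).map (C v)).sum

/-- A plane rotation system (in homological form): `rot v` is the cyclic list of the neighbours of
`v`; for every even set `C` of edges the corners can be coloured such that the two colours at an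
edge are different exactly for the edges of `C`.  (`s v` is the colour of the corner before the
first element of `rot v`.) -/
structure PlaneRot {W : Type} [DecidableEq W] (rot : W → List W) : Prop where
  nodup : ∀ v, (rot v).Nodup
  symm : ∀ u v, u ∈ rot v → v ∈ rot u
  loopless : ∀ v, v ∉ rot v
  hom : ∀ C : W → W → ZMod 2, (∀ u v, C u v = C v u) → (∀ v, ((rot v).map (C v)).sum = 0) →
    ∃ s : W → ZMod 2, ∀ u v, v ∈ rot u → s u + s v = cnt rot C u v + cnt rot C v u + C u v

/-- The graph `G` on `Γ` with an additional vertex `none`, joined to the vertices of `L` in this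
order, is plane, and every component of `G` on `Γ` meets `L`. -/
structure PlaneList {V : Type} [DecidableEq V] (G : SimpleGraph V) (Γ : Finset V) (L : List V) :
    Prop where
  rot : ∃ rot : Option V → List (Option V), PlaneRot rot ∧ rot none = L.map some ∧
    ∀ u v, some u ∈ rot (some v) ↔ u ∈ Γ ∧ v ∈ Γ ∧ G.Adj u v
  sub : ∀ a ∈ L, a ∈ Γ
  conn : ∀ v ∈ Γ, ∃ a ∈ L, Relation.ReflTransGen (fun c d => G.Adj c d ∧ d ∈ Γ) v a

/-- CROSS: no two edges cross -/
def T_CROSS : Prop := ∀ (V : Type) [DecidableEq V] (G : SimpleGraph V) (Γ : Finset V) (L : List V),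
  PlaneList G Γ L → L.Nodup ∧
    ∀ x a y b, [x, a, y, b].Sublist L → G.Adj x y → G.Adj a b → False

/-- GOOD: a list without crossing pairs contains an element adjacent to its neighbours in the list
only -/
def T_GOOD : Prop := ∀ (V : Type) (E : V → V → Prop) (L : List V), L ≠ [] → L.Nodup →
  (∀ a b, E a b → E b a) → (∀ a, ¬ E a a) →
  (∀ x a y b, [x, a, y, b].Sublist L → E x y → E a b → False) →
  ∃ (A : List V) (x : V) (B : List V), L = A ++ x :: B ∧
    ∀ y ∈ L, E x y → A.getLast? = some y ∨ B.head? = some y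

/-- CONTR: contraction of the edge from `none` to `x` -/
def T_CONTR : Prop := ∀ (V : Type) [DecidableEq V] (G : SimpleGraph V) (Γ : Finset V)
  (A B : List V) (x : V), PlaneList G Γ (A ++ x :: B) →
  ∃ us : List V, (∀ u, u ∈ us ↔ u ∈ Γ ∧ G.Adj x u ∧ u ∉ A ++ x :: B) ∧
    PlaneList G (Γ.erase x) (A ++ us ++ B)

/-- ORDER: contour sequences from plane lists -/
def T_ORDER : Prop := ∀ (V : Type) [DecidableEq V] (G : SimpleGraph V) (Γ : Finset V) (L : List V),
  PlaneList G Γ L → Contour G (↑Γ) L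

/-- UNION -/
def T_UNION : Prop := ∀ (V : Type) (G : SimpleGraph V) (Γ Δ : Set V) (K L : List V),
  Contour G Γ K → Contour G Δ L → (∀ v ∈ Γ, v ∉ Δ) → (∀ u ∈ Γ, ∀ v ∈ Δ, ¬ G.Adj u v) →
  Contour G (Γ ∪ Δ) (K ++ L)

/-! ## Part C: drawings -/

/-- SHEAR: a drawing with different `x`-coordinates -/
def T_SHEAR : Prop := ∀ (V : Type) [Finite V] (G : SimpleGraph V), IsPlanar G →
  ∃ p : V → ℝ × ℝ, IsDrawing G p ∧ ∀ a b, (p a).1 = (p b).1 → a = b

/-- the slope of the line through `u` and `v` -/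
noncomputable def slope (p : ℝ × ℝ) (q : ℝ × ℝ) : ℝ := (q.2 - p.2) / (q.1 - p.1)

/-- `z` is below the line through `a` and `b` -/
def Below (a b z : ℝ × ℝ) : Prop := z.2 < a.2 + slope a b * (z.1 - a.1)

open scoped Classical in
/-- the number (mod 2) of edges `a b` in `C` above the point `p v` -/
noncomputable def above {V : Type} [Fintype V] (G : SimpleGraph V) (Γ : Finset V) (p : V → ℝ × ℝ)
    (C : V → V → ZMod 2) (v : V) : ZMod 2 :=
  ∑ a ∈ Γ, ∑ b ∈ Γ, if G.Adj a b ∧ (p a).1 < (p v).1 ∧ (p v).1 < (p b).1 ∧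
    Below (p a) (p b) (p v) then C a b else 0

open scoped Classical in
/-- PARITY: the parity of the number of edges of an even set above an edge is the same at both
ends -/
def T_PARITY : Prop := ∀ (V : Type) [Fintype V] (G : SimpleGraph V) (Γ : Finset V)
  (p : V → ℝ × ℝ) (C : V → V → ZMod 2), IsDrawing G p → (∀ a b, (p a).1 = (p b).1 → a = b) →
  (∀ a b, C a b = C b a) → (∀ v ∈ Γ, ∑ a ∈ Γ, (if G.Adj v a then C v a else 0) = 0) →
  ∀ u ∈ Γ, ∀ v ∈ Γ, G.Adj u v → (p u).1 < (p v).1 →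
    above G Γ p C u + (∑ a ∈ Γ, if G.Adj u a ∧ (p u).1 < (p a).1 ∧
      slope (p u) (p v) < slope (p u) (p a) then C u a else 0) =
    above G Γ p C v + (∑ a ∈ Γ, if G.Adj v a ∧ (p a).1 < (p v).1 ∧
      slope (p v) (p a) < slope (p v) (p u) then C v a else 0)

/-- ROT: the rotation system of a drawing, with a new vertex `none` above the highest vertex -/
def T_ROT : Prop := ∀ (V : Type) [Fintype V] [DecidableEq V] (G : SimpleGraph V) (Γ : Finset V)
  (p : V → ℝ × ℝ) (r : V), IsDrawing G p → (∀ a b, (p a).1 = (p b).1 → a = b) → r ∈ Γ →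
  (∀ v ∈ Γ, (p v).2 ≤ (p r).2) →
  ∃ rot : Option V → List (Option V), PlaneRot rot ∧ rot none = [some r] ∧
    ∀ u v, some u ∈ rot (some v) ↔ u ∈ Γ ∧ v ∈ Γ ∧ G.Adj u v

/-- ALL: contour sequences for planar graphs -/
def T_ALL : Prop := ∀ (V : Type) [Finite V] (G : SimpleGraph V), IsPlanar G →
  ∃ L, Contour G Set.univ L

end Pool.Agent.CRV
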